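import Pool.Agent.V11252.SAW.PolyGen
import Pool.Agent.Y981.L2.Area5

/-!
The generating function of the polygons of large area below the critical point.
-/

set_option autoImplicit false

namespace Pool.Agent.V11252.SAW

open Pool.Agent.TH795.EP Pool.Agent.TH795.EP2 Pool.Agent.TH795.SE2 Pool.Agent.TH262.SawL H981 Finset Filter Topology
open Pool.Agent.Y981.L2 (Lam psi psi_mono psi_nonneg psi_zero Rate R Dia
  young R_mono R_nonneg R_smul pw pw_anti pw_nat pw_ldp width mass mass_pos summable_aux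
  par par_le area_width)
open Pool.Agent.Y981.L2X (M speed Rate_nonneg)

/-- the good length -/
theorem GP_term (E : ℝ) (hE : 0 < E) : ∃ K A : ℝ, 0 ≤ K ∧ 0 ≤ A ∧ ∀ e z : ℝ, 0 < e → e ≤ E →
    0 < z → Real.log z + Real.log mu = -e → ∀ k : ℕ, 1 ≤ k → ∃ n : ℕ, 2 ≤ n ∧ k < n ∧
    Real.log n ≤ A * Lk k e ∧
    Real.exp (-(2 * k * mass e) - K * Lk k e ^ 2) ≤ pk n k * z ^ (2 * n) := by
  have hmu := mu_pos
  have hlm := log_mu_nonneg
  obtain ⟨K2, hK2, hlow⟩ := pk_lower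
  obtain ⟨B, hB⟩ : ∃ B, B = E + Real.log mu := ⟨_, rfl⟩
  have hB0 : 0 < B := by rw [hB]; linarith
  obtain ⟨A, hA⟩ : ∃ A, A = 2 + Real.log (4 + B) := ⟨_, rfl⟩
  have hA0 : 0 ≤ Real.log (4 + B) := Real.log_nonneg (by linarith)
  have hA1 : 0 ≤ A := by rw [hA]; linarith
  refine ⟨2 + 6 * E + K2 * A ^ 2, A, by positivity, hA1, ?_⟩
  intro e z he heE hz hlz k hk
  obtain ⟨S, hS⟩ : ∃ S : ℝ, S = k := ⟨_, rfl⟩
  have hS1 : 1 ≤ S := by rw [hS]; exact_mod_cast hk
  have hmB : mass e ≤ B := (mass_le_B he).trans (by rw [hB]; linarith)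
  have hy0 : ((S, 0) : ℝ × ℝ) ≠ 0 := by
    intro h0
    have h1 := congrArg Prod.fst h0
    simp only [Prod.fst_zero] at h1
    linarith
  obtain ⟨s, hs0, hsD, hs⟩ := speed he hy0 one_pos
  have hR0 := Rate_nonneg hsD
  simp only [zero_div] at hs hR0 hsD
  have hMb := (M_between he (S, 0)).2
  simp only [abs_zero, add_zero] at hMb
  rw [abs_of_nonneg (by linarith : (0 : ℝ) ≤ S)] at hMb
  have hs1 : S ≤ s := by
    have h1 : |S / s| + |(0 : ℝ)| ≤ 1 := hsD
    rw [abs_zero, add_zero, abs_div, abs_of_pos hs0, div_le_one hs0,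
      abs_of_nonneg (by linarith : (0 : ℝ) ≤ S)] at h1
    exact h1
  obtain ⟨ρ, hρ⟩ : ∃ ρ, ρ = R (S / s) := ⟨_, rfl⟩
  have hρ' : Rate (S / s, 0) = ρ := hρ.symm
  rw [hρ'] at hs hR0
  have hn : ∃ n : ℕ, s + 1 ≤ n ∧ (n : ℝ) ≤ s + 3 := by
    refine ⟨⌈s + 1⌉₊, Nat.le_ceil _, ?_⟩
    have := Nat.ceil_lt_add_one (by positivity : 0 ≤ s + 1)
    linarith
  obtain ⟨n, hn1, hn2⟩ := hn
  have hn4 : 2 ≤ n := by
    have : (2 : ℝ) ≤ n := by linarith
    exact_mod_cast this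
  have hn0 : (0 : ℝ) < n := by exact_mod_cast (by omega : 0 < n)
  have hkn : k < n := by
    have : (k : ℝ) < n := by rw [← hS]; linarith
    exact_mod_cast this
  have h1 := hlow n hn4 k hk hkn z e hz hlz
  obtain ⟨t, ht⟩ : ∃ t, t = s / n := ⟨_, rfl⟩
  have ht0 : 0 ≤ t := by rw [ht]; positivity
  have ht1 : t ≤ 1 := by rw [ht, div_le_one hn0]; linarith
  have hSs : S / s ≤ 1 := by rw [div_le_one hs0]; exact hs1
  have hR1 := R_smul (by positivity : 0 ≤ S / s) hSs ht0 ht1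
  rw [← hρ] at hR1
  have e1 : t * (S / s) = S / n := by
    rw [ht]
    field_simp
  rw [e1] at hR1
  have h5 := mul_le_mul_of_nonneg_left hR1 hn0.le
  have e3 : (n : ℝ) * (t * ρ) = s * ρ := by
    rw [ht]
    field_simp
  rw [e3] at h5
  have h6 : (n : ℝ) * e ≤ (s + 3) * e := mul_le_mul_of_nonneg_right hn2 he.le
  -- the logarithm of the length
  have he1 : 0 < 1 / e := by positivity
  have e6 : s * (ρ + e) = s * ρ + s * e := by ring
  rw [e6] at hs
  have hmS : S * mass e ≤ B * S := by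
    have := mul_le_mul_of_nonneg_left hmB (by linarith : (0 : ℝ) ≤ S)
    linarith
  have h10 : s ≤ (B * S + 1) * (1 / e) := by
    have h11 : s * e ≤ B * S + 1 := by
      have h12 : 0 ≤ s * ρ := mul_nonneg hs0.le hR0
      linarith
    rw [mul_one_div, le_div_iff₀ he]
    exact h11
  have h11 : (n : ℝ) ≤ (4 + B) * (2 + S + 1 / e) ^ 2 := by
    have := scale_lo hB0 hS1 he1
    linarith
  have hLg1 := one_le_Lk hk he
  obtain ⟨L, hL⟩ : ∃ L, L = Lk k e := ⟨_, rfl⟩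
  have hLgd : L = Real.log (2 + S + 1 / e) := by rw [hL]; unfold Lk; rw [← hS]
  rw [← hL] at hLg1 ⊢
  have h12 : Real.log n ≤ A * L := by
    have h13 := Real.log_le_log hn0 h11
    rw [Real.log_mul (by positivity) (by positivity), Real.log_pow] at h13
    push_cast at h13
    rw [← hLgd] at h13
    have h14 : Real.log (4 + B) * 1 ≤ Real.log (4 + B) * L := mul_le_mul_of_nonneg_left hLg1 hA0
    have e1 : A * L = 2 * L + Real.log (4 + B) * L := by rw [hA]; ring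
    rw [e1]
    linarith
  have h12' : 0 ≤ Real.log (n : ℝ) := Real.log_nonneg (by linarith)
  have h13 : Real.log (n : ℝ) ^ 2 ≤ A ^ 2 * L ^ 2 := by
    rw [← mul_pow]
    exact pow_le_pow_left₀ h12' h12 2
  refine ⟨n, hn4, hkn, h12, ?_⟩
  refine le_trans ?_ h1
  apply Real.exp_le_exp.2
  rw [← hS]
  have h14 := mul_le_mul_of_nonneg_left h13 hK2
  have hL3 : 1 ≤ L ^ 2 := one_le_pow₀ hLg1
  have u1 : 2 * (3 * e) ≤ 2 * (3 * E) := by linarith
  have u2 : E * 1 ≤ E * L ^ 2 := mul_le_mul_of_nonneg_left hL3 hE.le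
  have e4 : (2 + 6 * E + K2 * A ^ 2) * L ^ 2 =
      2 * L ^ 2 + 6 * (E * L ^ 2) + K2 * (A ^ 2 * L ^ 2) := by
    ring
  rw [e4]
  have e5 : (s + 3) * e = s * e + 3 * e := by ring
  rw [e5] at h6
  clear hLgd h10 h11 h12 hs1 hn1 hn2 e1 hR1
  linarith


/-- the number of polygons of perimeter `2 n` with area at least `k ^ 2` -/
noncomputable def ak (n k : ℕ) : ℝ := par n ((k : ℝ) ^ 2) * PP n

/-- the generating function of the polygons of area at least `k ^ 2` -/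
noncomputable def GA (z : ℝ) (k : ℕ) : ℝ := ∑' n : ℕ, ak (n + 2) k * z ^ (2 * (n + 2))

theorem PP_pos' {n : ℕ} (hn : 2 ≤ n) : 0 < PP n := by
  obtain ⟨K, _, h⟩ := PP_b
  exact (h n hn).1

theorem par_nonneg (n : ℕ) (r : ℝ) : 0 ≤ par n r := by
  unfold Pool.Agent.Y981.L2.par
  positivity

theorem GA_bounds (E : ℝ) (hE : 0 < E) : ∃ K : ℝ, 0 ≤ K ∧ ∀ e z : ℝ, 0 < e → e ≤ E → 0 < z →
    Real.log z + Real.log mu = -e → ∀ k : ℕ, 1 ≤ k →
    Summable (fun n : ℕ => ak (n + 2) k * z ^ (2 * (n + 2))) ∧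
    Real.exp (-(4 * k * mass e) - K * Lk k e ^ 2) ≤ GA z k ∧
    GA z k ≤ Real.exp (-(2 * k * mass e) + K * Lk k e ^ 2) := by
  obtain ⟨K1, hK1, h1⟩ := GP_upper E hE
  obtain ⟨K2, A, hK2, hA, h2⟩ := GP_term E hE
  obtain ⟨K3, hK3, h3⟩ := area_width
  refine ⟨1 + K1 + 4 * K2 + 4 * K3 * A ^ 2, by positivity, ?_⟩
  intro e z he heE hz hlz k hk
  obtain ⟨s1, b1⟩ := h1 e z he heE hz hlz k hk
  have hLk1 := one_le_Lk hk he
  obtain ⟨L, hL⟩ : ∃ L, L = Lk k e := ⟨_, rfl⟩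
  rw [← hL] at b1 hLk1 ⊢
  have hL2 : 1 ≤ L ^ 2 := one_le_pow₀ hLk1
  have hterm : ∀ n : ℕ, ak (n + 2) k * z ^ (2 * (n + 2)) ≤
      2 * (pk (n + 2) k * z ^ (2 * (n + 2))) := by
    intro n
    have h4 := par_le (n := n + 2) (by omega) (r := (k : ℝ)) (Nat.cast_nonneg k)
    have h5 := PP_pos' (show 2 ≤ n + 2 by omega)
    have h6 := pow_pos hz (2 * (n + 2))
    unfold ak pk
    have h7 := mul_le_mul_of_nonneg_right (mul_le_mul_of_nonneg_right h4 h5.le) h6.le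
    linarith
  have hnn : ∀ n : ℕ, 0 ≤ ak (n + 2) k * z ^ (2 * (n + 2)) := fun n =>
    mul_nonneg (mul_nonneg (par_nonneg _ _) (PP_pos' (by omega)).le) (pow_nonneg hz.le _)
  have hsumm : Summable (fun n : ℕ => ak (n + 2) k * z ^ (2 * (n + 2))) :=
    Summable.of_nonneg_of_le hnn hterm (s1.mul_left 2)
  refine ⟨hsumm, ?_, ?_⟩
  · obtain ⟨n, hn, hkn, hlog, hb⟩ := h2 e z he heE hz hlz (2 * k) (by omega)
    have h4 := (h3 n hn k hk hkn).1
    have h5 := PP_pos' hn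
    have h6 := pow_pos hz (2 * n)
    have h7 : ak n k * z ^ (2 * n) ≤ GA z k := by
      obtain ⟨j, rfl⟩ : ∃ j, n = j + 2 := ⟨n - 2, by omega⟩
      exact hsumm.le_tsum j (fun i _ => hnn i)
    have h8 : Real.exp (-(K3 * Real.log n ^ 2)) * (pk n (2 * k) * z ^ (2 * n)) ≤
        ak n k * z ^ (2 * n) := by
      have h9 := mul_le_mul_of_nonneg_right (mul_le_mul_of_nonneg_right h4 h5.le) h6.le
      unfold ak pk
      push_cast
      linarith
    have h10 := mul_le_mul_of_nonneg_left hb (Real.exp_pos (-(K3 * Real.log n ^ 2))).le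
    refine le_trans ?_ (h10.trans (h8.trans h7))
    rw [← Real.exp_add]
    apply Real.exp_le_exp.2
    have hL' : Lk (2 * k) e ≤ 2 * L := by
      rw [hL]
      unfold Lk
      have hk1 : (1 : ℝ) ≤ k := by exact_mod_cast hk
      have h11 : 0 < 1 / e := by positivity
      have h12 : 2 * Real.log (2 + (k : ℝ) + 1 / e) = Real.log ((2 + (k : ℝ) + 1 / e) ^ 2) := by
        rw [Real.log_pow]; push_cast; ring
      rw [h12]
      apply Real.log_le_log (by positivity)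
      push_cast
      nlinarith
    have hL0 : 0 ≤ Lk (2 * k) e := by
      have := one_le_Lk (show 1 ≤ 2 * k by omega) he
      linarith
    have hL3 : Lk (2 * k) e ^ 2 ≤ 4 * L ^ 2 := by
      calc Lk (2 * k) e ^ 2 ≤ (2 * L) ^ 2 := pow_le_pow_left₀ hL0 hL' 2
        _ = _ := by ring
    have hlog0 : 0 ≤ Real.log (n : ℝ) := Real.log_natCast_nonneg n
    have hlog2 : Real.log (n : ℝ) ^ 2 ≤ A ^ 2 * (4 * L ^ 2) := by
      calc Real.log (n : ℝ) ^ 2 ≤ (A * Lk (2 * k) e) ^ 2 := pow_le_pow_left₀ hlog0 hlog 2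
        _ = A ^ 2 * Lk (2 * k) e ^ 2 := by ring
        _ ≤ _ := mul_le_mul_of_nonneg_left hL3 (by positivity)
    have u1 := mul_le_mul_of_nonneg_left hlog2 hK3
    have u2 := mul_le_mul_of_nonneg_left hL3 hK2
    have u3 : 0 ≤ K1 * L ^ 2 := by positivity
    push_cast
    have e1 : (1 + K1 + 4 * K2 + 4 * K3 * A ^ 2) * L ^ 2 =
        L ^ 2 + K1 * L ^ 2 + K2 * (4 * L ^ 2) + K3 * (A ^ 2 * (4 * L ^ 2)) := by ring
    rw [e1]
    linarith
  · have h4 : GA z k ≤ 2 * GP z k := by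
      unfold GA GP
      rw [← tsum_mul_left]
      exact hsumm.tsum_le_tsum hterm (s1.mul_left 2)
    have e2 : (2 : ℝ) ≤ Real.exp 1 := by
      have := Real.exp_one_gt_d9
      linarith
    refine h4.trans ?_
    calc 2 * GP z k ≤ Real.exp 1 * Real.exp (-(2 * k * mass e) + K1 * L ^ 2) := by
          apply mul_le_mul e2 b1 _ (Real.exp_pos _).le
          exact tsum_nonneg (fun n => mul_nonneg (pk_nonneg (by omega) k) (pow_nonneg hz.le _))
      _ ≤ _ := by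
          rw [← Real.exp_add]
          apply Real.exp_le_exp.2
          have u2 : 0 ≤ (4 * K2 + 4 * K3 * A ^ 2) * L ^ 2 := by positivity
          linarith

end Pool.Agent.V11252.SAW
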