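import Pool.Agent.Y981.L2X.Dir
import Pool.Agent.Y981.L2.Equiv

/-!
Self-avoiding walks pulled by a force: the free energy at small forces and the correlation length.
-/

set_option autoImplicit false

namespace Pool.Agent.V11252.SAW

open Pool.Agent.TH795.EP Pool.Agent.TH795.EP2 H981 Finset Filter Topology
open Pool.Agent.Y981.L2 (Z Z_pos Z_eq Lam Lam_le Z_le psi psi_mono psi_nonneg psi_zero Rate R
  R_le_rate Dia MassLow MassUp le_mass psi_le_of_lt young Lam_sg Lam_ng Bx mass_bdd)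
open Pool.Agent.Y981.L2X (Lam_ge Lam_sw Lam_le_of)

/-- the free energy under a force `h` is at most the one for the horizontal force
`|h₁| + |h₂|` -/
theorem Lam_le_psi (h : ℝ × ℝ) : Lam h ≤ psi (|h.1| + |h.2|) := by
  have hR : ∀ v : ℝ × ℝ, v ∈ Dia → Pool.Agent.Y981.L2.R |v.2| ≤ Rate v := by
    intro v hv
    have hv' : ((v.2, v.1) : ℝ × ℝ) ∈ Dia := by
      have h1 : |v.1| + |v.2| ≤ 1 := hv
      show |v.2| + |v.1| ≤ 1
      linarith
    have h1 := R_le_rate hv'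
    have h2 : Rate (v.2, v.1) ≤ Rate v := by
      apply ciSup_le
      intro g
      have h3 := Pool.Agent.Y981.L2.le_rate hv (g.2, g.1)
      rw [Lam_sw] at h3
      simp only at h3 ⊢
      linarith
    exact h1.trans h2
  apply Lam_le_of
  intro v hv
  have h1 := R_le_rate hv
  have h2 := hR v hv
  have hd : |v.1| + |v.2| ≤ 1 := hv
  have a1 := abs_nonneg v.1
  have a2 := abs_nonneg v.2
  have b1 := abs_nonneg h.1
  have b2 := abs_nonneg h.2
  have e1 : h.1 * v.1 ≤ |h.1| * |v.1| := by rw [← abs_mul]; exact le_abs_self _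
  have e2 : h.2 * v.2 ≤ |h.2| * |v.2| := by rw [← abs_mul]; exact le_abs_self _
  rcases le_total |v.1| |v.2| with h3 | h3
  · have h4 := young a2 (by linarith : |v.2| ≤ 1) (|h.1| + |h.2|)
    have e3 : |h.1| * |v.1| ≤ |h.1| * |v.2| := mul_le_mul_of_nonneg_left h3 b1
    linarith
  · have h4 := young a1 (by linarith : |v.1| ≤ 1) (|h.1| + |h.2|)
    have e3 : |h.2| * |v.2| ≤ |h.2| * |v.1| := mul_le_mul_of_nonneg_left h3 b2
    linarith

/-- comparison with the sup norm of the force -/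
theorem psi_norm_le (h : ℝ × ℝ) : psi ‖h‖ ≤ Lam h := by
  rw [Prod.norm_def, Real.norm_eq_abs, Real.norm_eq_abs]
  rcases max_choice |h.1| |h.2| with h1 | h1
  · rw [h1]; exact Lam_ge h
  · rw [h1]
    have := Lam_ge (h.2, h.1)
    rwa [Lam_sw] at this

theorem le_psi_norm (h : ℝ × ℝ) : Lam h ≤ psi (2 * ‖h‖) := by
  refine (Lam_le_psi h).trans (psi_mono (by positivity) ?_)
  rw [Prod.norm_def, Real.norm_eq_abs, Real.norm_eq_abs]
  have := le_max_left |h.1| |h.2|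
  have := le_max_right |h.1| |h.2|
  linarith

/-- the upper half of the exponent, in terms of the free energy -/
def FUp (θ : ℝ) : Prop := ∀ ε : ℝ, 0 < ε → ∀ᶠ h in 𝓝[≠] (0 : ℝ × ℝ), Lam h ≤ ‖h‖ ^ (1 / θ - ε)

/-- the lower half of the exponent, in terms of the free energy -/
def FLow (θ : ℝ) : Prop := ∀ ε : ℝ, 0 < ε → ∀ᶠ h in 𝓝[≠] (0 : ℝ × ℝ), ‖h‖ ^ (1 / θ + ε) ≤ Lam h

theorem tendsto_norm0 : Tendsto (fun h : ℝ × ℝ => ‖h‖) (𝓝[≠] (0 : ℝ × ℝ)) (𝓝[>] (0 : ℝ)) := by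
  rw [tendsto_nhdsWithin_iff]
  constructor
  · have h1 : Tendsto (fun h : ℝ × ℝ => ‖h‖) (𝓝 (0 : ℝ × ℝ)) (𝓝 ‖(0 : ℝ × ℝ)‖) :=
      continuous_norm.tendsto 0
    rw [norm_zero] at h1
    exact h1.mono_left nhdsWithin_le_nhds
  · filter_upwards [self_mem_nhdsWithin] with h hh
    exact norm_pos_iff.2 hh

theorem tendsto_axis : Tendsto (fun t : ℝ => ((t, 0) : ℝ × ℝ)) (𝓝[>] (0 : ℝ))
    (𝓝[≠] (0 : ℝ × ℝ)) := by
  rw [tendsto_nhdsWithin_iff]
  constructor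
  · have h1 : Tendsto (fun t : ℝ => ((t, 0) : ℝ × ℝ)) (𝓝 (0 : ℝ)) (𝓝 ((0, 0) : ℝ × ℝ)) :=
      (Continuous.prodMk continuous_id continuous_const).tendsto 0
    exact h1.mono_left nhdsWithin_le_nhds
  · filter_upwards [self_mem_nhdsWithin] with t ht
    have ht0 : (0 : ℝ) < t := ht
    intro h
    have h1 := congrArg Prod.fst h
    simp only [Prod.fst_zero] at h1
    exact ht0.ne' h1

theorem norm_axis {t : ℝ} (ht : 0 < t) : ‖((t, 0) : ℝ × ℝ)‖ = t := by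
  rw [Prod.norm_def, norm_zero, Real.norm_eq_abs, abs_of_pos ht, max_eq_left ht.le]

/-- powers near zero -/
theorem ev_rpow {α β : ℝ} (C : ℝ) (h : β < α) :
    ∀ᶠ t in 𝓝[>] (0 : ℝ), C * t ^ α ≤ t ^ β := by
  have h1 : Tendsto (fun t : ℝ => C * t ^ (α - β)) (𝓝[>] 0) (𝓝 (C * 0)) := by
    apply Tendsto.const_mul
    have h2 : ContinuousAt (fun t : ℝ => t ^ (α - β)) 0 :=
      Real.continuousAt_rpow_const 0 (α - β) (Or.inr (by linarith))
    have h3 := h2.tendsto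
    rw [Real.zero_rpow (by linarith)] at h3
    exact h3.mono_left nhdsWithin_le_nhds
  rw [mul_zero] at h1
  filter_upwards [h1.eventually (gt_mem_nhds (zero_lt_one)), self_mem_nhdsWithin] with t ht ht0
  have ht0' : (0 : ℝ) < t := ht0
  calc C * t ^ α = C * t ^ (α - β) * t ^ β := by
        rw [mul_assoc, ← Real.rpow_add ht0']; congr 2; ring
    _ ≤ 1 * t ^ β := mul_le_mul_of_nonneg_right ht.le (Real.rpow_nonneg ht0'.le _)
    _ = t ^ β := one_mul _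

theorem tendsto_pow0 {s C : ℝ} (hs : 0 < s) (hC : 0 < C) :
    Tendsto (fun t : ℝ => (C * t) ^ s) (𝓝[>] (0 : ℝ)) (𝓝[>] (0 : ℝ)) := by
  rw [tendsto_nhdsWithin_iff]
  constructor
  · have h2 : ContinuousAt (fun t : ℝ => (C * t) ^ s) 0 := by
      apply ContinuousAt.rpow_const
      · exact continuousAt_const.mul continuousAt_id
      · right; exact hs.le
    have h3 := h2.tendsto
    rw [mul_zero, Real.zero_rpow hs.ne'] at h3
    exact h3.mono_left nhdsWithin_le_nhds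
  · filter_upwards [self_mem_nhdsWithin] with t ht
    have ht0 : (0 : ℝ) < t := ht
    exact Real.rpow_pos_of_pos (mul_pos hC ht0) _

theorem massLow_fUp {θ : ℝ} (hθ : 0 < θ) (M : MassLow θ) : FUp θ := by
  intro ε hε
  -- choose η with 1 / (θ + η) > 1 / θ - ε
  obtain ⟨η, hη, hη2⟩ : ∃ η : ℝ, 0 < η ∧ 1 / θ - ε < 1 / (θ + η) := by
    have h1 : Tendsto (fun η : ℝ => 1 / (θ + η)) (𝓝[>] 0) (𝓝 (1 / θ)) := by
      have h2 : ContinuousAt (fun η : ℝ => 1 / (θ + η)) 0 := by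
        apply ContinuousAt.div continuousAt_const (continuousAt_const.add continuousAt_id)
        show θ + 0 ≠ 0
        rw [add_zero]
        exact hθ.ne'
      have h3 := h2.tendsto
      rw [add_zero] at h3
      exact h3.mono_left nhdsWithin_le_nhds
    have h2 := (h1.eventually (lt_mem_nhds (show 1 / θ - ε < 1 / θ by linarith))).and
      self_mem_nhdsWithin
    obtain ⟨η, h3, h4⟩ := h2.exists
    exact ⟨η, h4, h3⟩
  have hs : 0 < 1 / (θ + η) := by positivity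
  have h1 := (tendsto_pow0 hs (show (0 : ℝ) < 4 by norm_num)).eventually (M η hη)
  have h2 := ev_rpow ((4 : ℝ) ^ (1 / (θ + η))) hη2
  have h3 := tendsto_norm0.eventually (h1.and h2)
  filter_upwards [h3, self_mem_nhdsWithin] with h hh hh0
  obtain ⟨h4, h5⟩ := hh
  have hn : 0 < ‖h‖ := norm_pos_iff.2 hh0
  have e1 : ((4 * ‖h‖) ^ (1 / (θ + η))) ^ (θ + η) = 4 * ‖h‖ := by
    rw [← Real.rpow_mul (by positivity), one_div, inv_mul_cancel₀ (by positivity), Real.rpow_one]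
  rw [e1] at h4
  have h6 : psi (2 * ‖h‖) ≤ (4 * ‖h‖) ^ (1 / (θ + η)) := by
    apply psi_le_of_lt (by positivity) (by positivity)
    linarith
  refine (le_psi_norm h).trans (h6.trans ?_)
  rw [Real.mul_rpow (by norm_num) hn.le]
  exact h5

theorem fUp_massLow {θ : ℝ} (hθ : 0 < θ) (F : FUp θ) : MassLow θ := by
  intro η hη
  have hε : 0 < η / (θ * (θ + η)) := by positivity
  have h1 := tendsto_axis.eventually (F _ hε)
  have h2 := (tendsto_pow0 (show 0 < θ + η by positivity) one_pos).eventually h1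
  filter_upwards [h2, self_mem_nhdsWithin] with e he he0
  have he0' : (0 : ℝ) < e := he0
  simp only [one_mul] at he
  have hp : 0 < e ^ (θ + η) := Real.rpow_pos_of_pos he0' _
  rw [norm_axis hp, ← Real.rpow_mul he0'.le] at he
  apply le_mass hp.le
  have e1 : (θ + η) * (1 / θ - η / (θ * (θ + η))) = 1 := by
    field_simp
    ring
  rw [e1, Real.rpow_one] at he
  exact he

theorem massUp_fLow {θ : ℝ} (hθ : 0 < θ) (M : MassUp θ) : FLow θ := by
  intro ε hε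
  obtain ⟨η, hη, hηθ, hη2⟩ : ∃ η : ℝ, 0 < η ∧ η < θ ∧ 1 / (θ - η) < 1 / θ + ε := by
    have h1 : Tendsto (fun η : ℝ => 1 / (θ - η)) (𝓝[>] 0) (𝓝 (1 / θ)) := by
      have h2 : ContinuousAt (fun η : ℝ => 1 / (θ - η)) 0 := by
        apply ContinuousAt.div continuousAt_const (continuousAt_const.sub continuousAt_id)
        show θ - 0 ≠ 0
        rw [sub_zero]
        exact hθ.ne'
      have h3 := h2.tendsto
      rw [sub_zero] at h3
      exact h3.mono_left nhdsWithin_le_nhds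
    have h2 := ((h1.eventually (gt_mem_nhds (show 1 / θ < 1 / θ + ε by linarith))).and
      (Ioo_mem_nhdsGT hθ))
    obtain ⟨η, h3, h4⟩ := h2.exists
    exact ⟨η, h4.1, h4.2, h3⟩
  have hs : 0 < 1 / (θ - η) := one_div_pos.2 (by linarith)
  have h1 := (tendsto_pow0 hs (show (0 : ℝ) < 1 / 2 by norm_num)).eventually (M η hη)
  have h2 := ev_rpow ((2 : ℝ) ^ (1 / (θ - η))) hη2
  have h3 := tendsto_norm0.eventually (h1.and h2)
  filter_upwards [h3, self_mem_nhdsWithin] with h hh hh0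
  obtain ⟨h4, h5⟩ := hh
  have hn : 0 < ‖h‖ := norm_pos_iff.2 hh0
  have e1 : ((1 / 2 * ‖h‖) ^ (1 / (θ - η))) ^ (θ - η) = 1 / 2 * ‖h‖ := by
    rw [← Real.rpow_mul (by positivity), one_div (θ - η), inv_mul_cancel₀ (by linarith),
      Real.rpow_one]
  rw [e1] at h4
  have h6 : (1 / 2 * ‖h‖) ^ (1 / (θ - η)) < psi ‖h‖ := by
    by_contra hcon
    push Not at hcon
    have := le_mass hn.le hcon
    linarith
  refine le_trans ?_ (h6.le.trans (psi_norm_le h))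
  have e2 : (2 : ℝ) ^ (1 / (θ - η)) * (1 / 2 * ‖h‖) ^ (1 / (θ - η)) = ‖h‖ ^ (1 / (θ - η)) := by
    rw [← Real.mul_rpow (by norm_num) (by positivity)]
    congr 1
    ring
  have hp2 : 0 < (2 : ℝ) ^ (1 / (θ - η)) := by positivity
  rw [← mul_le_mul_iff_right₀ hp2, e2]
  exact h5

theorem fLow_massUp {θ : ℝ} (hθ : 0 < θ) (F : FLow θ) : MassUp θ := by
  intro η₀ hη₀
  obtain ⟨η, hη'⟩ : ∃ η, η = min η₀ (θ / 2) := ⟨_, rfl⟩
  have hη : 0 < η := by rw [hη']; exact lt_min hη₀ (by linarith)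
  have hηθ : η < θ := by rw [hη']; exact lt_of_le_of_lt (min_le_right _ _) (by linarith)
  have hη1 : η ≤ η₀ := by rw [hη']; exact min_le_left _ _
  have hθη : 0 < θ - η := by linarith
  have hε : 0 < η / (2 * (θ * (θ - η))) := by positivity
  have h1 := tendsto_axis.eventually (F _ hε)
  have h2 := (tendsto_pow0 hθη one_pos).eventually h1
  filter_upwards [h2, Ioo_mem_nhdsGT (zero_lt_one)] with e he he1
  obtain ⟨he0, he1⟩ := he1
  simp only [one_mul] at he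
  have hp : 0 < e ^ (θ - η) := Real.rpow_pos_of_pos he0 _
  rw [norm_axis hp, ← Real.rpow_mul he0.le] at he
  have e1 : (θ - η) * (1 / θ + η / (2 * (θ * (θ - η)))) = 1 - η / (2 * θ) := by
    field_simp
    ring
  rw [e1] at he
  have h3 : e < e ^ (1 - η / (2 * θ)) := by
    conv_lhs => rw [← Real.rpow_one e]
    apply Real.rpow_lt_rpow_of_exponent_gt he0 he1
    have : 0 < η / (2 * θ) := by positivity
    linarith
  have h4 : Pool.Agent.Y981.L2.mass e ≤ e ^ (θ - η) := by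
    apply csSup_le ⟨0, Pool.Agent.Y981.L2.zero_mem he0.le⟩
    rintro g ⟨g0, hg⟩
    by_contra hcon
    push Not at hcon
    have h5 := psi_mono hp.le hcon.le
    have h6 : psi (e ^ (θ - η)) = Lam (e ^ (θ - η), 0) := rfl
    rw [h6] at h5
    linarith
  refine h4.trans ?_
  apply Real.rpow_le_rpow_of_exponent_ge he0 he1.le
  linarith

/-! ### the displacement under a force -/

/-- the numerator of the mean displacement -/
noncomputable def Dn (f : ℝ) (n : ℕ) : ℝ :=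
  (∑ w ∈ fs Saw n, (dx w : ℝ) * Real.exp (f * dx w)) / Z (f, 0) n

theorem Z_hor (f : ℝ) (n : ℕ) : Z (f, 0) n = ∑ w ∈ fs Saw n, Real.exp (f * dx w) := by
  unfold Pool.Agent.Y981.L2.Z
  apply Finset.sum_congr rfl
  intro w _
  simp

theorem jensen (f g : ℝ) (n : ℕ) :
    g * Dn f n ≤ Real.log (Z (f + g, 0) n) - Real.log (Z (f, 0) n) := by
  have hZ := Z_pos (f, 0) n
  have hZ2 := Z_pos (f + g, 0) n
  have hw1 : ∑ w ∈ fs Saw n, Real.exp (f * dx w) / Z (f, 0) n = 1 := by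
    rw [← Finset.sum_div, ← Z_hor, div_self hZ.ne']
  have h1 := convexOn_exp.map_sum_le (t := fs Saw n)
    (w := fun w => Real.exp (f * dx w) / Z (f, 0) n) (p := fun w => g * (dx w : ℝ))
    (fun _ _ => by positivity) hw1 (fun _ _ => Set.mem_univ _)
  simp only [smul_eq_mul] at h1
  have e1 : ∑ w ∈ fs Saw n, Real.exp (f * dx w) / Z (f, 0) n * (g * (dx w : ℝ)) = g * Dn f n := by
    unfold Dn
    rw [Finset.sum_div, Finset.mul_sum]
    apply Finset.sum_congr rfl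
    intro w _
    ring
  have e2 : ∑ w ∈ fs Saw n, Real.exp (f * dx w) / Z (f, 0) n * Real.exp (g * (dx w : ℝ)) =
      Z (f + g, 0) n / Z (f, 0) n := by
    rw [Z_hor (f + g), Finset.sum_div]
    apply Finset.sum_congr rfl
    intro w _
    rw [div_mul_eq_mul_div, ← Real.exp_add]
    congr 2
    ring
  rw [e1, e2] at h1
  rw [← Real.log_div hZ2.ne' hZ.ne', Real.le_log_iff_exp_le (div_pos hZ2 hZ)]
  exact h1

theorem log_c : ∃ K : ℝ, 0 ≤ K ∧ ∀ n : ℕ, 2 ≤ n → n * Real.log mu ≤ Real.log (c n) ∧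
    Real.log (c n) ≤ n * Real.log mu + K * Real.log n ^ 2 := by
  obtain ⟨K, hK, hZ⟩ := Z_le
  refine ⟨K, hK, fun n hn => ?_⟩
  have e : Z (0, 0) n = c n := by
    unfold Pool.Agent.Y981.L2.Z c
    simp
  have h0 : Lam (0, 0) = 0 := psi_zero
  have h1 := hZ n hn (0, 0)
  have h2 := Lam_le (0, 0) (n := n) (by omega)
  rw [e, h0] at h1 h2
  constructor <;> linarith

theorem free_energy : ∃ K : ℝ, 0 ≤ K ∧ ∀ n : ℕ, 2 ≤ n → ∀ h : ℝ × ℝ,
    |Real.log (Z h n / c n) - n * Lam h| ≤ K * Real.log n ^ 2 := by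
  obtain ⟨K1, hK1, h1⟩ := Z_le
  obtain ⟨K2, hK2, h2⟩ := log_c
  refine ⟨K1 + K2, by positivity, fun n hn h => ?_⟩
  have hc := c_pos n
  have a1 := h1 n hn h
  have a2 := Lam_le h (n := n) (by omega)
  obtain ⟨a3, a4⟩ := h2 n hn
  have hL : 0 ≤ Real.log (n : ℝ) ^ 2 := by positivity
  have u1 : 0 ≤ K1 * Real.log (n : ℝ) ^ 2 := by positivity
  have u2 : 0 ≤ K2 * Real.log (n : ℝ) ^ 2 := by positivity
  rw [Real.log_div (Z_pos h n).ne' hc.ne', abs_le]
  constructor <;> linarith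

theorem displacement : ∃ K : ℝ, 0 ≤ K ∧ ∀ n : ℕ, 2 ≤ n → ∀ f : ℝ,
    n * Lam (f, 0) - K * Real.log n ^ 2 ≤ f * Dn f n ∧
    f * Dn f n ≤ n * (Lam (2 * f, 0) - Lam (f, 0)) + K * Real.log n ^ 2 := by
  obtain ⟨K1, hK1, h1⟩ := Z_le
  refine ⟨K1, hK1, fun n hn f => ?_⟩
  have j1 := jensen f (-f) n
  have j2 := jensen f f n
  have e1 : f + -f = 0 := by ring
  have e2 : f + f = 2 * f := by ring
  rw [e1] at j1
  rw [e2] at j2
  have a1 := h1 n hn (2 * f, 0)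
  have a2 := Lam_le (f, 0) (n := n) (by omega)
  have a3 := h1 n hn (0, 0)
  have h0 : Lam (0, 0) = 0 := psi_zero
  rw [h0] at a3
  constructor <;> linarith

/-! ### the extension under small forces -/

theorem small_log {K a b : ℝ} (hK : 0 ≤ K) (hb : 0 < b) (hab : b < a) :
    ∀ᶠ f : ℝ in 𝓝[>] (0 : ℝ), ∀ n : ℕ, f ^ (-a) ≤ (n : ℝ) →
      K * Real.log n ^ 2 ≤ (n : ℝ) * f ^ b := by
  have ha : 0 < a := hb.trans hab
  obtain ⟨s, hs⟩ : ∃ s, s = (1 - b / a) / 4 := ⟨_, rfl⟩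
  have hba : b / a < 1 := (div_lt_one ha).2 hab
  have hs0 : 0 < s := by rw [hs]; linarith
  have hs1 : 0 < 1 - 2 * s := by
    have : 0 < b / a := by positivity
    rw [hs]; linarith
  have e1 : a * (1 - 2 * s) = (a + b) / 2 := by
    rw [hs]
    field_simp
    ring
  have h1 := ev_rpow (K / s ^ 2) (show b < (a + b) / 2 by linarith)
  filter_upwards [h1, Ioo_mem_nhdsGT (zero_lt_one)] with f hf hf1 n hn
  obtain ⟨hf0, hf1⟩ := hf1
  have h2 : 1 ≤ f ^ (-a) := Real.one_le_rpow_of_pos_of_le_one_of_nonpos hf0 hf1.le (by linarith)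
  have hn1 : (1 : ℝ) ≤ n := h2.trans hn
  have hn0 : (0 : ℝ) < n := by linarith
  have h3 : Real.log n ≤ (n : ℝ) ^ s / s := Real.log_le_rpow_div hn0.le hs0
  have h4 : 0 ≤ Real.log (n : ℝ) := Real.log_nonneg hn1
  have h5 : Real.log n ^ 2 ≤ ((n : ℝ) ^ s / s) ^ 2 := pow_le_pow_left₀ h4 h3 2
  have e2 : ((n : ℝ) ^ s / s) ^ 2 = (n : ℝ) * ((n : ℝ) ^ (-(1 - 2 * s)) / s ^ 2) := by
    rw [div_pow, ← Real.rpow_natCast, ← Real.rpow_mul hn0.le, ← mul_div_assoc]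
    congr 1
    conv_rhs => lhs; rw [← Real.rpow_one (n : ℝ)]
    rw [← Real.rpow_add hn0]
    congr 1
    push_cast
    ring
  have h6 : (n : ℝ) ^ (-(1 - 2 * s)) ≤ f ^ ((a + b) / 2) := by
    have h7 := Real.rpow_le_rpow_of_nonpos (Real.rpow_pos_of_pos hf0 (-a)) hn
      (show -(1 - 2 * s) ≤ 0 by linarith)
    rw [← Real.rpow_mul hf0.le] at h7
    have e3 : -a * -(1 - 2 * s) = (a + b) / 2 := by rw [← e1]; ring
    rwa [e3] at h7
  calc K * Real.log n ^ 2 ≤ K * ((n : ℝ) * ((n : ℝ) ^ (-(1 - 2 * s)) / s ^ 2)) := by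
        rw [← e2]
        exact mul_le_mul_of_nonneg_left h5 hK
    _ ≤ K * ((n : ℝ) * (f ^ ((a + b) / 2) / s ^ 2)) := by
        apply mul_le_mul_of_nonneg_left _ hK
        apply mul_le_mul_of_nonneg_left _ hn0.le
        exact div_le_div_of_nonneg_right h6 (by positivity)
    _ = (n : ℝ) * (K / s ^ 2 * f ^ ((a + b) / 2)) := by ring
    _ ≤ n * f ^ b := mul_le_mul_of_nonneg_left hf hn0.le

theorem Lam_nonneg' (h : ℝ × ℝ) : 0 ≤ Lam h := (psi_nonneg _).trans (psi_norm_le h)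

theorem pincus_lower {θ : ℝ} (hθ : 0 < θ) (F : FLow θ) {ε : ℝ} (hε : 0 < ε) :
    ∃ f₀ : ℝ, 0 < f₀ ∧ ∀ f : ℝ, 0 < f → f < f₀ → ∀ n : ℕ, 2 ≤ n →
      f ^ (-(1 / θ + ε)) ≤ (n : ℝ) → f ^ (1 / θ - 1 + ε) ≤ Dn f n / n := by
  obtain ⟨K, hK, hD⟩ := displacement
  have hθ1 : 0 < 1 / θ := by positivity
  have h1 := tendsto_axis.eventually (F (ε / 2) (by linarith))
  have h2 := small_log hK (show 0 < 1 / θ + 3 * ε / 4 by linarith)
    (show 1 / θ + 3 * ε / 4 < 1 / θ + ε by linarith)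
  have h3 := ev_rpow 2 (show 1 / θ + ε / 2 < 1 / θ + 3 * ε / 4 by linarith)
  have h4 := ev_rpow 2 (show 1 / θ + ε / 2 < 1 / θ + ε by linarith)
  have h5 := (((h1.and h2).and (h3.and h4)).and (Ioo_mem_nhdsGT (show (0 : ℝ) < 1 / 2 by norm_num)))
  obtain ⟨f₀, hf₀, hf⟩ := mem_nhdsGT_iff_exists_Ioo_subset.1 h5
  refine ⟨f₀, hf₀, fun f hf0 hf1 n hn2 hn => ?_⟩
  obtain ⟨⟨⟨a1, a2⟩, a3, a4⟩, a5⟩ := hf ⟨hf0, hf1⟩
  rw [norm_axis hf0] at a1
  have b2 := a2 n hn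
  have hn0 : (0 : ℝ) < n := by exact_mod_cast (by omega : 0 < n)
  have b1 := (hD n hn2 f).1
  have c1 : n * f ^ (1 / θ + ε / 2) ≤ n * Lam (f, 0) := mul_le_mul_of_nonneg_left a1 hn0.le
  have c2 : n * (2 * f ^ (1 / θ + 3 * ε / 4)) ≤ n * f ^ (1 / θ + ε / 2) :=
    mul_le_mul_of_nonneg_left a3 hn0.le
  have c3 : n * (2 * f ^ (1 / θ + ε)) ≤ n * f ^ (1 / θ + ε / 2) :=
    mul_le_mul_of_nonneg_left a4 hn0.le
  have c4 : n * f ^ (1 / θ + ε) ≤ f * Dn f n := by linarith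
  rw [le_div_iff₀ hn0]
  have e3 : f * (f ^ (1 / θ - 1 + ε) * n) = n * f ^ (1 / θ + ε) := by
    have : f ^ (1 / θ + ε) = f * f ^ (1 / θ - 1 + ε) := by
      conv_rhs => lhs; rw [← Real.rpow_one f]
      rw [← Real.rpow_add hf0]
      congr 1
      ring
    rw [this]; ring
  rw [← mul_le_mul_iff_right₀ hf0, e3]
  exact c4

theorem pincus_upper {θ : ℝ} (hθ : 0 < θ) (F : FUp θ) {ε : ℝ} (hε : 0 < ε) :
    ∃ f₀ : ℝ, 0 < f₀ ∧ ∀ f : ℝ, 0 < f → f < f₀ → ∀ n : ℕ, 2 ≤ n →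
      f ^ (-(1 / θ)) ≤ (n : ℝ) → Dn f n / n ≤ f ^ (1 / θ - 1 - ε) := by
  obtain ⟨K, hK, hD⟩ := displacement
  have hθ1 : 0 < 1 / θ := by positivity
  obtain ⟨δ, hδ⟩ : ∃ δ, δ = min ε (1 / θ) := ⟨_, rfl⟩
  have hδ0 : 0 < δ := by rw [hδ]; exact lt_min hε hθ1
  have hδε : δ ≤ ε := by rw [hδ]; exact min_le_left _ _
  have hδθ : δ ≤ 1 / θ := by rw [hδ]; exact min_le_right _ _
  have htw : Tendsto (fun f : ℝ => 2 * f) (𝓝[>] (0 : ℝ)) (𝓝[>] (0 : ℝ)) := by
    have := tendsto_pow0 (s := 1) (C := 2) one_pos (by norm_num)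
    simpa using this
  have h1 := htw.eventually (tendsto_axis.eventually (F (δ / 2) (by linarith)))
  have h2 := small_log hK (show 0 < 1 / θ - δ / 2 by linarith)
    (show 1 / θ - δ / 2 < 1 / θ by linarith)
  have h3 := ev_rpow ((2 : ℝ) ^ (1 / θ - δ / 2) + 1) (show 1 / θ - δ < 1 / θ - δ / 2 by linarith)
  have h5 := (((h1.and h2).and h3).and (Ioo_mem_nhdsGT (show (0 : ℝ) < 1 by norm_num)))
  obtain ⟨f₀, hf₀, hf⟩ := mem_nhdsGT_iff_exists_Ioo_subset.1 h5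
  refine ⟨f₀, hf₀, fun f hf0 hf1 n hn2 hn => ?_⟩
  obtain ⟨⟨⟨a1, a2⟩, a3⟩, a5⟩ := hf ⟨hf0, hf1⟩
  rw [norm_axis (by positivity : (0 : ℝ) < 2 * f), Real.mul_rpow (by norm_num) hf0.le] at a1
  have b2 := a2 n hn
  have hn0 : (0 : ℝ) < n := by exact_mod_cast (by omega : 0 < n)
  have b1 := (hD n hn2 f).2
  have b0 := mul_nonneg hn0.le (Lam_nonneg' (f, 0))
  have c1 := mul_le_mul_of_nonneg_left a1 hn0.le
  have c3 := mul_le_mul_of_nonneg_left a3 hn0.le
  have c4 : f * Dn f n ≤ n * f ^ (1 / θ - δ) := by linarith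
  have c5 : f ^ (1 / θ - δ) ≤ f ^ (1 / θ - ε) :=
    Real.rpow_le_rpow_of_exponent_ge hf0 a5.2.le (by linarith)
  have c6 := mul_le_mul_of_nonneg_left c5 hn0.le
  rw [div_le_iff₀ hn0]
  have e3 : f * (f ^ (1 / θ - 1 - ε) * n) = n * f ^ (1 / θ - ε) := by
    have : f ^ (1 / θ - ε) = f * f ^ (1 / θ - 1 - ε) := by
      conv_rhs => lhs; rw [← Real.rpow_one f]
      rw [← Real.rpow_add hf0]
      congr 1
      ring
    rw [this]; ring
  rw [← mul_le_mul_iff_right₀ hf0, e3]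
  linarith

end Pool.Agent.V11252.SAW
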