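import Pool.Agent.Y981.L2X.Dir

/-!
The two-point function of the planar self-avoiding walk below the critical point: uniform estimate
by the mass norms.
-/

set_option autoImplicit false

namespace Pool.Agent.V11252.SAW

open Pool.Agent.TH795.EP Pool.Agent.TH795.EP2 Pool.Agent.TH795.SE2 H981 Finset Filter Topology
open Pool.Agent.Y981.L2 (Z Z_pos Lam Lam_le Z_le psi psi_mono psi_nonneg psi_zero Rate R
  Dia le_mass Lam_sg Lam_ng Gz summable_G ldp_words summable_aux)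
open Pool.Agent.Y981.L2X (Lam_ge Lam_sw M M_bdd le_M M_nonempty Rate_nonneg speed term_bound2
  a_zero_lt2 Lam_smul Rate_smul M_pos)

/-- the scale of a point and of `e` -/
noncomputable def Lg (x : ℤ × ℤ) (e : ℝ) : ℝ := Real.log (2 + (|(x.1 : ℝ)| + |(x.2 : ℝ)|) + 1 / e)

theorem one_le_S {x : ℤ × ℤ} (hx : x ≠ 0) : 1 ≤ |(x.1 : ℝ)| + |(x.2 : ℝ)| := by
  have hx12 : x.1 ≠ 0 ∨ x.2 ≠ 0 := by
    by_contra hcon
    push Not at hcon
    exact hx (Prod.ext hcon.1 hcon.2)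
  have hx1 : 1 ≤ |x.1| + |x.2| := by
    rcases hx12 with h | h
    · have := Int.one_le_abs h
      have := abs_nonneg x.2
      omega
    · have := Int.one_le_abs h
      have := abs_nonneg x.1
      omega
  exact_mod_cast hx1

theorem one_le_Lg {x : ℤ × ℤ} (hx : x ≠ 0) {e : ℝ} (he : 0 < e) : 1 ≤ Lg x e := by
  unfold Lg
  have h1 := one_le_S hx
  have h2 : 0 < 1 / e := by positivity
  rw [Real.le_log_iff_exp_le (by positivity)]
  have := Real.exp_one_lt_d9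
  linarith

/-- elementary domination of `log²` -/
theorem log_dom2 {K : ℝ} (hK : 0 ≤ K) {m : ℝ} (hm : 0 ≤ m) :
    2 * K * Real.log (1 + m) ^ 2 ≤ m / 2 + (1 / 2 + 512 * K ^ 2) := by
  have h0 : 0 < 1 + m := by linarith
  have h1 : Real.log (1 + m) ≤ (1 + m) ^ (1 / 4 : ℝ) / (1 / 4) :=
    Real.log_le_rpow_div h0.le (by norm_num)
  have h2 : 0 ≤ Real.log (1 + m) := Real.log_nonneg (by linarith)
  obtain ⟨s, hs⟩ : ∃ s, s = (1 + m) ^ (1 / 4 : ℝ) := ⟨_, rfl⟩
  rw [← hs] at h1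
  have hs0 : 0 ≤ s := by rw [hs]; positivity
  have hs4 : s ^ 4 = 1 + m := by
    rw [hs, ← Real.rpow_natCast, ← Real.rpow_mul h0.le]
    norm_num
  have h3 : Real.log (1 + m) ^ 2 ≤ 16 * s ^ 2 := by
    have h4 : Real.log (1 + m) ≤ 4 * s := by linarith
    calc Real.log (1 + m) ^ 2 ≤ (4 * s) ^ 2 := pow_le_pow_left₀ h2 h4 2
      _ = 16 * s ^ 2 := by ring
  have h4 : 2 * K * Real.log (1 + m) ^ 2 ≤ 2 * K * (16 * s ^ 2) :=
    mul_le_mul_of_nonneg_left h3 (by positivity)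
  nlinarith [sq_nonneg (s ^ 2 - 32 * K)]

theorem log_nat_le {η : ℝ} (hη : 0 < η) (n : ℕ) :
    Real.log n ^ 2 ≤ 2 * Real.log (2 + 1 / η) ^ 2 + 2 * Real.log (1 + η * n) ^ 2 := by
  rcases Nat.eq_zero_or_pos n with h0 | h0
  · rw [h0]
    have h1 : Real.log ((0 : ℕ) : ℝ) ^ 2 = 0 := by simp
    rw [h1]
    positivity
  · have hn : (1 : ℝ) ≤ n := by exact_mod_cast h0
    have h1 : 0 ≤ Real.log n := Real.log_nonneg hn
    have h2 : (n : ℝ) ≤ (2 + 1 / η) * (1 + η * n) := by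
      have e1 : (2 + 1 / η) * (1 + η * n) = 2 + 2 * η * n + 1 / η + n := by
        field_simp
        ring
      rw [e1]
      have : 0 < 1 / η := by positivity
      have : 0 < 2 * η * n := by positivity
      linarith
    have h3 : Real.log n ≤ Real.log (2 + 1 / η) + Real.log (1 + η * n) := by
      rw [← Real.log_mul (by positivity) (by positivity)]
      exact Real.log_le_log (by linarith) h2
    have h4 : 0 ≤ Real.log (2 + 1 / η) := by
      apply Real.log_nonneg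
      have : 0 < 1 / η := by positivity
      linarith
    have h5 : 0 ≤ Real.log (1 + η * n) := by
      apply Real.log_nonneg
      have : 0 < η * n := by positivity
      linarith
    calc Real.log n ^ 2 ≤ (Real.log (2 + 1 / η) + Real.log (1 + η * n)) ^ 2 :=
          pow_le_pow_left₀ h1 h3 2
      _ ≤ _ := by nlinarith [sq_nonneg (Real.log (2 + 1 / η) - Real.log (1 + η * n))]

/-- one term of the series -/
theorem expo_le {K η : ℝ} (hK : 0 ≤ K) (hη : 0 < η) (n : ℕ) :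
    -(η * n) + K * Real.log n ^ 2 ≤
      (1 / 2 + 512 * K ^ 2 + 2 * K * Real.log (2 + 1 / η) ^ 2) - η / 2 * n := by
  have h1 := mul_le_mul_of_nonneg_left (log_nat_le hη n) hK
  have h2 := log_dom2 hK (show 0 ≤ η * n by positivity)
  nlinarith

theorem geo_le {C η : ℝ} (hη : 0 < η) : ∑' n : ℕ, Real.exp (C - η * n) ≤
    Real.exp C * (1 + 1 / η) := by
  have h1 : ∀ n : ℕ, Real.exp (C - η * n) = Real.exp C * (Real.exp (-η)) ^ n := by
    intro n
    rw [← Real.exp_nat_mul, ← Real.exp_add]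
    congr 1
    ring
  simp only [h1]
  have h2 : Real.exp (-η) < 1 := by rw [Real.exp_lt_one_iff]; linarith
  rw [tsum_mul_left, tsum_geometric_of_lt_one (Real.exp_pos _).le h2]
  apply mul_le_mul_of_nonneg_left _ (Real.exp_pos _).le
  have h3 : 1 + η ≤ Real.exp η := by linarith [Real.add_one_le_exp η]
  have h4 : Real.exp (-η) ≤ 1 / (1 + η) := by
    rw [Real.exp_neg, ← one_div]
    exact one_div_le_one_div_of_le (by linarith) h3
  have h5 : η / (1 + η) ≤ 1 - Real.exp (-η) := by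
    have e1 : η / (1 + η) = 1 - 1 / (1 + η) := by field_simp; ring
    rw [e1]; linarith
  calc (1 - Real.exp (-η))⁻¹ ≤ (η / (1 + η))⁻¹ := inv_anti₀ (by positivity) h5
    _ = 1 + 1 / η := by field_simp; ring

theorem M_le {e : ℝ} (he : 0 ≤ e) (y : ℝ × ℝ) :
    M e y ≤ (e + Real.log mu) * (|y.1| + |y.2|) := by
  apply csSup_le (M_nonempty he y)
  rintro r ⟨h, hh, rfl⟩
  obtain ⟨h1, h2⟩ := Pool.Agent.Y981.L2.abs_le_Lam h
  have h3 : h.1 * y.1 ≤ |h.1| * |y.1| := by rw [← abs_mul]; exact le_abs_self _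
  have h4 : h.2 * y.2 ≤ |h.2| * |y.2| := by rw [← abs_mul]; exact le_abs_self _
  have h5 : |h.1| * |y.1| ≤ (e + Real.log mu) * |y.1| :=
    mul_le_mul_of_nonneg_right (by linarith) (abs_nonneg _)
  have h6 : |h.2| * |y.2| ≤ (e + Real.log mu) * |y.2| :=
    mul_le_mul_of_nonneg_right (by linarith) (abs_nonneg _)
  linarith

theorem log_mu_nonneg : 0 ≤ Real.log mu := Real.log_nonneg one_le_mu

/-- the scale of the contracted series -/
theorem scale_up {B S u : ℝ} (hB : 0 < B) (hS : 1 ≤ S) (hu : 0 < u) :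
    2 + (2 + B * S) * u ≤ (3 + 2 * B) * (2 + S + u) ^ 2 := by
  have hT : 0 < 2 + S + u := by linarith
  have h1 : u ≤ (2 + S + u) ^ 2 := by
    have : 2 + S + u ≤ (2 + S + u) ^ 2 := by nlinarith
    linarith
  have h2 : S * u ≤ (2 + S + u) ^ 2 := by
    have h3 : S * u ≤ (2 + S + u) * (2 + S + u) :=
      mul_le_mul (by linarith) (by linarith) hu.le hT.le
    rw [sq]; exact h3
  have h4 : B * (S * u) ≤ B * (2 + S + u) ^ 2 := mul_le_mul_of_nonneg_left h2 hB.le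
  have h5 : 2 ≤ (2 + S + u) ^ 2 := by nlinarith
  have h6 : 0 ≤ B * (2 + S + u) ^ 2 := by positivity
  have e1 : 2 + (2 + B * S) * u = 2 + 2 * u + B * (S * u) := by ring
  have e2 : (3 + 2 * B) * (2 + S + u) ^ 2 = 3 * (2 + S + u) ^ 2 + 2 * (B * (2 + S + u) ^ 2) := by
    ring
  rw [e1, e2]
  linarith

theorem scale_lo {B S u : ℝ} (hB : 0 < B) (hS : 1 ≤ S) (hu : 0 < u) :
    (B * S + 1) * u + 3 ≤ (4 + B) * (2 + S + u) ^ 2 := by
  have hT : 0 < 2 + S + u := by linarith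
  have h1 : u ≤ (2 + S + u) ^ 2 := by
    have : 2 + S + u ≤ (2 + S + u) ^ 2 := by nlinarith
    linarith
  have h2 : S * u ≤ (2 + S + u) ^ 2 := by
    have h3 : S * u ≤ (2 + S + u) * (2 + S + u) :=
      mul_le_mul (by linarith) (by linarith) hu.le hT.le
    rw [sq]; exact h3
  have h4 : B * (S * u) ≤ B * (2 + S + u) ^ 2 := mul_le_mul_of_nonneg_left h2 hB.le
  have h5 : 3 ≤ 3 * (2 + S + u) ^ 2 := by nlinarith
  have e1 : (B * S + 1) * u + 3 = u + 3 + B * (S * u) := by ring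
  have e2 : (4 + B) * (2 + S + u) ^ 2 = 4 * (2 + S + u) ^ 2 + B * (2 + S + u) ^ 2 := by
    ring
  rw [e1, e2]
  linarith

theorem one_le_abs_sum {x : ℤ × ℤ} (hx : x ≠ 0) : (1 : ℤ) ≤ |x.1| + |x.2| := by
  have : (1 : ℝ) ≤ |(x.1 : ℝ)| + |(x.2 : ℝ)| := one_le_S hx
  exact_mod_cast this

theorem Gz_pos {z : ℝ} (hz : 0 < z) (hz1 : z < 1 / mu) (x : ℤ × ℤ) : 0 < Gz z x.1 x.2 := by
  obtain ⟨n, hn⟩ : ∃ n : ℕ, n = x.1.natAbs + x.2.natAbs := ⟨_, rfl⟩
  have h1 : 1 ≤ a n x.1 x.2 := by rw [hn]; exact one_le_a_abs _ _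
  have h2 : (a n x.1 x.2 : ℝ) * z ^ n ≤ Gz z x.1 x.2 :=
    (summable_G hz hz1 _ _).le_tsum n (fun j _ => by positivity)
  have h3 : (1 : ℝ) ≤ a n x.1 x.2 := by exact_mod_cast h1
  have h4 := pow_pos hz n
  have h5 : 0 < (a n x.1 x.2 : ℝ) * z ^ n := by positivity
  linarith

theorem z_lt {e z : ℝ} (he : 0 < e) (hz : 0 < z) (hlz : Real.log z + Real.log mu = -e) :
    z < 1 / mu := by
  have hmu := mu_pos
  rw [lt_div_iff₀ hmu]
  have h1 : Real.log (z * mu) < 0 := by rw [Real.log_mul hz.ne' hmu.ne', hlz]; linarith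
  by_contra hcon
  push Not at hcon
  have := Real.log_nonneg hcon
  linarith

/-- the first term -/
theorem first_term {x : ℤ × ℤ} (hx : x ≠ 0) {z B c1 E T : ℝ} (hz : 0 < z) (hz1 : z ≤ 1)
    (hc1 : c1 = (c 1 : ℝ)) (hE : 0 ≤ E)
    (hT : T ≤ B * (|(x.1 : ℝ)| + |(x.2 : ℝ)|)) {n : ℕ} (hn : n < 2) (h1 : |x.1| + |x.2| ≤ (n : ℤ)) :
    (a n x.1 x.2 : ℝ) * z ^ n ≤ Real.exp (-T + (B + c1 + E)) := by
  have hS1' := one_le_abs_sum hx
  have hn1 : n = 1 := by omega
  subst hn1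
  have hSe : |(x.1 : ℝ)| + |(x.2 : ℝ)| = 1 := by
    have h2 : |x.1| + |x.2| = 1 := by push_cast at h1; omega
    exact_mod_cast h2
  have h3 : (a 1 x.1 x.2 : ℝ) ≤ c1 := by rw [hc1]; exact Pool.Agent.Y981.L2.a_le_c 1 x.1 x.2
  have h4 : (a 1 x.1 x.2 : ℝ) * z ^ 1 ≤ c1 := by
    rw [pow_one]
    have h5 : (a 1 x.1 x.2 : ℝ) * z ≤ (a 1 x.1 x.2 : ℝ) * 1 :=
      mul_le_mul_of_nonneg_left hz1 (Nat.cast_nonneg _)
    linarith
  rw [hSe, mul_one] at hT
  have h6 : c1 ≤ Real.exp c1 := by linarith [Real.add_one_le_exp c1]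
  refine h4.trans (h6.trans (Real.exp_le_exp.2 ?_))
  linarith

/-- **Upper bound.** -/
theorem G_upper (E : ℝ) (hE : 0 < E) : ∃ K : ℝ, 0 ≤ K ∧ ∀ e z : ℝ, 0 < e → e ≤ E → 0 < z →
    Real.log z + Real.log mu = -e → ∀ x : ℤ × ℤ, x ≠ 0 →
    Real.log (Gz z x.1 x.2) ≤ -M e ((x.1 : ℝ), (x.2 : ℝ)) + K * Lg x e ^ 2 := by
  have hmu := mu_pos
  have hlm := log_mu_nonneg
  obtain ⟨K1, hK1, hterm⟩ := term_bound2
  obtain ⟨B, hB⟩ : ∃ B, B = E + Real.log mu := ⟨_, rfl⟩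
  have hB0 : 0 < B := by rw [hB]; linarith
  obtain ⟨A, hA⟩ : ∃ A, A = 2 + Real.log (3 + 2 * B) := ⟨_, rfl⟩
  have hA0 : 0 ≤ Real.log (3 + 2 * B) := Real.log_nonneg (by linarith)
  have hA1 : 0 ≤ A := by rw [hA]; linarith
  obtain ⟨c1, hc1⟩ : ∃ c1 : ℝ, c1 = (c 1 : ℝ) := ⟨_, rfl⟩
  have hc10 : 0 ≤ c1 := by rw [hc1]; positivity
  obtain ⟨D, hD⟩ : ∃ D, D = B + c1 + E := ⟨_, rfl⟩
  have hD0 : 0 ≤ D := by rw [hD]; positivity
  obtain ⟨F, hF⟩ : ∃ F : ℝ, F = 1 / 2 + 512 * K1 ^ 2 := ⟨_, rfl⟩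
  have hF0 : 0 ≤ F := by rw [hF]; positivity
  refine ⟨3 + D + F + 2 * K1 * A ^ 2 + A, by positivity, ?_⟩
  intro e z he heE hz hlz x hx
  obtain ⟨y, hy⟩ : ∃ y : ℝ × ℝ, y = ((x.1 : ℝ), (x.2 : ℝ)) := ⟨_, rfl⟩
  rw [← hy]
  have hy1 : y.1 = x.1 := by rw [hy]
  have hy2 : y.2 = x.2 := by rw [hy]
  obtain ⟨S, hS⟩ : ∃ S, S = |(x.1 : ℝ)| + |(x.2 : ℝ)| := ⟨_, rfl⟩
  have hS1 : 1 ≤ S := by rw [hS]; exact one_le_S hx
  obtain ⟨L, hL⟩ : ∃ L, L = Lg x e := ⟨_, rfl⟩
  have hLg1 : 1 ≤ L := by rw [hL]; exact one_le_Lg hx he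
  have hLgd : L = Real.log (2 + S + 1 / e) := by rw [hL]; unfold Lg; rw [← hS]
  rw [← hL]
  have hz1 := z_lt he hz hlz
  have hzle : z ≤ 1 := by
    have h1 : 1 / mu ≤ 1 := by rw [div_le_one hmu]; exact one_le_mu
    linarith
  have hMpos : 0 < M e y := by rw [hy]; exact M_pos he hx
  have hMle : M e y ≤ B * S := by
    have h1 := M_le he.le y
    rw [hy1, hy2, ← hS] at h1
    refine h1.trans (mul_le_mul_of_nonneg_right ?_ (by linarith))
    rw [hB]; linarith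
  obtain ⟨φ, ⟨h, hh, hφ⟩, hMφ⟩ := exists_lt_of_lt_csSup (M_nonempty he.le y)
    (show M e y - 1 / 2 < sSup _ by
      have : M e y - 1 / 2 < M e y := by linarith
      exact this)
  have hφM : φ ≤ M e y := by rw [hφ]; exact le_M y hh
  have hφ1 : -(1 / 2) ≤ φ := by linarith
  -- the contraction
  obtain ⟨r, hr⟩ : ∃ r, r = 1 / (2 + B * S) := ⟨_, rfl⟩
  have hBS : 0 < B * S := by positivity
  have hr0 : 0 < r := by rw [hr]; positivity
  have hr1 : r ≤ 1 / 2 := by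
    rw [hr]
    exact one_div_le_one_div_of_le (by norm_num) (by linarith)
  have hrφ : r * φ ≤ 1 := by
    have h1 : r * φ ≤ r * (B * S) := mul_le_mul_of_nonneg_left (hφM.trans hMle) hr0.le
    have h2 : r * (B * S) ≤ 1 := by
      rw [hr, one_div, inv_mul_le_iff₀ (by positivity)]
      linarith
    linarith
  obtain ⟨t, ht⟩ : ∃ t, t = 1 - r := ⟨_, rfl⟩
  have ht0 : 0 ≤ t := by rw [ht]; linarith
  have ht1 : t ≤ 1 := by rw [ht]; linarith
  have htφ : φ - 1 ≤ t * φ := by rw [ht]; linarith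
  have htφ2 : t * φ ≤ B * S := by
    rcases le_total 0 φ with h0 | h0
    · have h1 : t * φ ≤ 1 * φ := mul_le_mul_of_nonneg_right ht1 h0
      linarith
    · have h1 : t * φ ≤ 0 := mul_nonpos_of_nonneg_of_nonpos ht0 h0
      linarith
  obtain ⟨T, hT⟩ : ∃ T, T = t * φ := ⟨_, rfl⟩
  rw [← hT] at htφ htφ2
  obtain ⟨h', hh'⟩ : ∃ h' : ℝ × ℝ, h' = (t * h.1, t * h.2) := ⟨_, rfl⟩
  obtain ⟨η, hη⟩ : ∃ η, η = r * e := ⟨_, rfl⟩
  have hη0 : 0 < η := by rw [hη]; positivity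
  have hLam : Lam h' ≤ e - η := by
    have h1 := Lam_smul h ht0 ht1
    rw [← hh'] at h1
    have h2 := mul_le_mul_of_nonneg_left hh ht0
    have e1 : t * e = e - η := by rw [hη, ht]; ring
    linarith
  have hhy : h'.1 * y.1 + h'.2 * y.2 = T := by
    rw [hh', hT, hφ]
    ring
  obtain ⟨Q, hQ⟩ : ∃ Q, Q = Real.log (2 + 1 / η) := ⟨_, rfl⟩
  obtain ⟨C, hC⟩ : ∃ C, C = F + 2 * K1 * Q ^ 2 := ⟨_, rfl⟩
  have hC0 : 0 ≤ C := by rw [hC]; positivity
  have hηE : η / 2 ≤ E := by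
    have h1 : r * e ≤ 1 / 2 * e := mul_le_mul_of_nonneg_right hr1 he.le
    rw [hη]; linarith
  have hsum := summable_aux (C := C) (half_pos hη0)
  -- the bound of every term
  have hbd : ∀ n : ℕ, (a n x.1 x.2 : ℝ) * z ^ n ≤
      Real.exp (-T + D) * Real.exp (C - η / 2 * n) := by
    intro n
    rcases lt_or_ge (n : ℤ) (|x.1| + |x.2|) with h1 | h1
    · rw [a_zero_lt2 h1]
      simp only [Nat.cast_zero, zero_mul]
      positivity
    · rcases Nat.lt_or_ge n 2 with hn | hn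
      · have hn1 : n = 1 := by
          have := one_le_abs_sum hx
          omega
        have h2 := first_term hx (B := B) (c1 := c1) (E := 0) (T := T) hz hzle hc1 le_rfl
          (by rw [← hS]; exact htφ2) hn h1
        refine h2.trans ?_
        rw [← Real.exp_add, hn1, hD]
        apply Real.exp_le_exp.2
        push_cast
        linarith
      · have h2 := hterm n hn x.1 x.2 h' z hz
        rw [← hy1, ← hy2, hhy] at h2
        refine h2.trans ?_
        rw [← Real.exp_add, ← Real.exp_add]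
        apply Real.exp_le_exp.2
        have h3 := expo_le hK1 hη0 n
        rw [← hF, ← hQ, ← hC] at h3
        have h4 : (n : ℝ) * (Lam h' + Real.log mu + Real.log z) ≤ -(η * n) := by
          have h5 : Lam h' + Real.log mu + Real.log z ≤ -η := by linarith
          have := mul_le_mul_of_nonneg_left h5 (Nat.cast_nonneg n : (0 : ℝ) ≤ n)
          linarith
        linarith
  have hG : Gz z x.1 x.2 ≤ Real.exp (-T + D) *
      (Real.exp C * (1 + 1 / (η / 2))) := by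
    unfold Pool.Agent.Y981.L2.Gz
    refine ((summable_G hz hz1 _ _).tsum_le_tsum hbd (hsum.mul_left _)).trans ?_
    rw [tsum_mul_left]
    exact mul_le_mul_of_nonneg_left (geo_le (half_pos hη0)) (Real.exp_pos _).le
  have h1 := Real.log_le_log (Gz_pos hz hz1 x) hG
  rw [Real.log_mul (Real.exp_pos _).ne' (by positivity), Real.log_exp,
    Real.log_mul (Real.exp_pos _).ne' (by positivity), Real.log_exp] at h1
  -- the logarithm of the scale
  have hη1 : 0 < 1 / η := by positivity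
  obtain ⟨u, hu⟩ : ∃ u, u = 1 / e := ⟨_, rfl⟩
  have hu0 : 0 < u := by rw [hu]; positivity
  have hη2 : 1 / η = (2 + B * S) * u := by
    rw [hη, hr, hu]
    field_simp
  rw [← hu] at hLgd
  have h2 : Q ≤ A * L := by
    have h3 := scale_up hB0 hS1 hu0
    rw [← hη2] at h3
    have h4 : Q ≤ Real.log (3 + 2 * B) + 2 * L := by
      rw [hLgd, hQ]
      have h5 := Real.log_le_log (by positivity) h3
      rw [Real.log_mul (by positivity) (by positivity), Real.log_pow] at h5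
      push_cast at h5
      exact h5
    have h5 : Real.log (3 + 2 * B) * 1 ≤ Real.log (3 + 2 * B) * L :=
      mul_le_mul_of_nonneg_left hLg1 hA0
    have e1 : A * L = 2 * L + Real.log (3 + 2 * B) * L := by rw [hA]; ring
    rw [e1]
    linarith
  have h2' : 0 ≤ Q := by rw [hQ]; exact Real.log_nonneg (by linarith)
  have h3 : Q ^ 2 ≤ A ^ 2 * L ^ 2 := by
    rw [← mul_pow]
    exact pow_le_pow_left₀ h2' h2 2
  have h4 : Real.log (1 + 1 / (η / 2)) ≤ 1 + A * L := by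
    have e1 : 1 / (η / 2) = 2 * (1 / η) := by field_simp
    have h5 : Real.log (1 + 1 / (η / 2)) ≤ Real.log (2 * (2 + 1 / η)) := by
      apply Real.log_le_log (by positivity)
      rw [e1]; linarith
    rw [Real.log_mul (by norm_num) (by positivity), ← hQ] at h5
    have h6 := Real.log_two_lt_d9
    linarith
  obtain ⟨L2, hL2⟩ : ∃ L2, L2 = L ^ 2 := ⟨_, rfl⟩
  have hL3 : 1 ≤ L2 := by rw [hL2]; exact one_le_pow₀ hLg1
  have hL4 : L ≤ L2 := by rw [hL2, sq]; exact le_mul_of_one_le_left (by linarith) hLg1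
  rw [← hL2] at h3 ⊢
  have u1 : A * L ≤ A * L2 := mul_le_mul_of_nonneg_left hL4 hA1
  have u2 : 2 * K1 * Q ^ 2 ≤ 2 * K1 * (A ^ 2 * L2) :=
    mul_le_mul_of_nonneg_left h3 (by positivity)
  have u4 : D * 1 ≤ D * L2 := mul_le_mul_of_nonneg_left hL3 hD0
  have u5 : F * 1 ≤ F * L2 := mul_le_mul_of_nonneg_left hL3 hF0
  rw [hC] at h1
  have e3 : (3 + D + F + 2 * K1 * A ^ 2 + A) * L2 =
      3 * L2 + D * L2 + F * L2 + 2 * K1 * (A ^ 2 * L2) + A * L2 := by ring
  rw [e3]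
  linarith

/-- **Lower bound.** -/
theorem G_lower (E : ℝ) (hE : 0 < E) : ∃ K : ℝ, 0 ≤ K ∧ ∀ e z : ℝ, 0 < e → e ≤ E → 0 < z →
    Real.log z + Real.log mu = -e → ∀ x : ℤ × ℤ, x ≠ 0 →
    -M e ((x.1 : ℝ), (x.2 : ℝ)) - K * Lg x e ^ 2 ≤ Real.log (Gz z x.1 x.2) := by
  have hmu := mu_pos
  have hlm := log_mu_nonneg
  obtain ⟨K2, hK2, hldp⟩ := ldp_words
  obtain ⟨B, hB⟩ : ∃ B, B = E + Real.log mu := ⟨_, rfl⟩
  have hB0 : 0 < B := by rw [hB]; linarith
  obtain ⟨A, hA⟩ : ∃ A, A = 2 + Real.log (4 + B) := ⟨_, rfl⟩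
  have hA0 : 0 ≤ Real.log (4 + B) := Real.log_nonneg (by linarith)
  have hA1 : 0 ≤ A := by rw [hA]; linarith
  refine ⟨1 + 3 * E + K2 * A ^ 2, by positivity, ?_⟩
  intro e z he heE hz hlz x hx
  obtain ⟨y, hy⟩ : ∃ y : ℝ × ℝ, y = ((x.1 : ℝ), (x.2 : ℝ)) := ⟨_, rfl⟩
  rw [← hy]
  have hy1 : y.1 = x.1 := by rw [hy]
  have hy2 : y.2 = x.2 := by rw [hy]
  obtain ⟨S, hS⟩ : ∃ S, S = |(x.1 : ℝ)| + |(x.2 : ℝ)| := ⟨_, rfl⟩
  have hS1 : 1 ≤ S := by rw [hS]; exact one_le_S hx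
  have hLg1 := one_le_Lg hx he
  have hLgd : Lg x e = Real.log (2 + S + 1 / e) := by unfold Lg; rw [← hS]
  have hz1 : z < 1 / mu := by
    rw [lt_div_iff₀ hmu]
    have h1 : Real.log (z * mu) < 0 := by rw [Real.log_mul hz.ne' hmu.ne', hlz]; linarith
    by_contra hcon
    push Not at hcon
    have := Real.log_nonneg hcon
    linarith
  have hMle : M e y ≤ B * S := by
    have h1 := M_le he.le y
    rw [hy1, hy2, ← hS] at h1
    refine h1.trans (mul_le_mul_of_nonneg_right ?_ (by linarith))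
    rw [hB]; linarith
  have hx12 : x.1 ≠ 0 ∨ x.2 ≠ 0 := by
    by_contra hcon
    push Not at hcon
    exact hx (Prod.ext hcon.1 hcon.2)
  have hy0 : y ≠ 0 := by
    rintro h0
    have h1 := congrArg Prod.fst h0
    have h2 := congrArg Prod.snd h0
    rw [hy1] at h1
    rw [hy2] at h2
    simp only [Prod.fst_zero, Prod.snd_zero, Int.cast_eq_zero] at h1 h2
    rcases hx12 with h | h
    · exact h h1
    · exact h h2
  have hne : (x.1, x.2) ≠ (0, 0) := by
    intro h0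
    simp only [Prod.mk.injEq] at h0
    omega
  obtain ⟨s, hs0, hsD, hs⟩ := speed he hy0 one_pos
  have hR0 := Rate_nonneg hsD
  obtain ⟨ρ, hρ⟩ : ∃ ρ, ρ = Rate (y.1 / s, y.2 / s) := ⟨_, rfl⟩
  rw [← hρ] at hs hR0
  have hs1 : S ≤ s := by
    have h1 : |y.1 / s| + |y.2 / s| ≤ 1 := hsD
    rw [abs_div, abs_div, abs_of_pos hs0, ← add_div, div_le_one hs0, hy1, hy2, ← hS] at h1
    exact h1
  obtain ⟨n, hn1, hn2, hn3⟩ : ∃ n : ℕ, s + 1 ≤ n ∧ (n : ℝ) ≤ s + 3 ∧
      (x.1 + x.2 - n) % 2 = 0 := by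
    obtain ⟨n0, hn0⟩ : ∃ n0, n0 = ⌈s + 1⌉₊ := ⟨_, rfl⟩
    have h1 : s + 1 ≤ n0 := by rw [hn0]; exact Nat.le_ceil _
    have h2 : (n0 : ℝ) < s + 1 + 1 := by rw [hn0]; exact Nat.ceil_lt_add_one (by positivity)
    rcases Int.emod_two_eq_zero_or_one (x.1 + x.2 - n0) with h3 | h3
    · exact ⟨n0, h1, by linarith, h3⟩
    · refine ⟨n0 + 1, ?_, ?_, ?_⟩
      · push_cast; linarith
      · push_cast; linarith
      · push_cast; omega
  have hn4 : 2 ≤ n := by
    have : (2 : ℝ) ≤ n := by linarith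
    exact_mod_cast this
  have hn0 : (0 : ℝ) < n := by exact_mod_cast (by omega : 0 < n)
  have hle : |x.1| + |x.2| ≤ n := by
    have h2 : |(x.1 : ℝ)| + |(x.2 : ℝ)| ≤ n := by rw [← hS]; linarith
    exact_mod_cast h2
  have h1 := hldp n hn4 x.1 x.2 hne hn3 hle
  have h1' := (abs_le.1 h1).1
  have ha1 := one_le_a hne hn3 hle
  have ha : (0 : ℝ) < a n x.1 x.2 := by exact_mod_cast ha1
  have hc := c_pos n
  have hc1 : n * Real.log mu ≤ Real.log (c n) := by
    have h1 : mu ^ n ≤ c n := by rw [c_eq]; exact mu_pow_le n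
    have h2 := Real.log_le_log (pow_pos hmu n) h1
    rwa [Real.log_pow] at h2
  rw [Real.log_div ha.ne' hc.ne'] at h1'
  obtain ⟨t, ht⟩ : ∃ t, t = s / n := ⟨_, rfl⟩
  have ht0 : 0 ≤ t := by rw [ht]; positivity
  have ht1 : t ≤ 1 := by rw [ht, div_le_one hn0]; linarith
  have hR1 := Rate_smul hsD ht0 ht1
  simp only at hR1
  rw [← hρ] at hR1
  have e1 : t * (y.1 / s) = (x.1 : ℝ) / n := by
    rw [ht, hy1]
    field_simp
  have e2 : t * (y.2 / s) = (x.2 : ℝ) / n := by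
    rw [ht, hy2]
    field_simp
  rw [e1, e2] at hR1
  have h2 : (a n x.1 x.2 : ℝ) * z ^ n ≤ Gz z x.1 x.2 :=
    (summable_G hz hz1 _ _).le_tsum n (fun j _ => by positivity)
  have h3 := Real.log_le_log (by positivity) h2
  rw [Real.log_mul ha.ne' (pow_pos hz n).ne', Real.log_pow] at h3
  have h5 := mul_le_mul_of_nonneg_left hR1 hn0.le
  have e3 : (n : ℝ) * (t * ρ) = s * ρ := by
    rw [ht]
    field_simp
  rw [e3] at h5
  have h6 : (n : ℝ) * e ≤ (s + 3) * e := mul_le_mul_of_nonneg_right hn2 he.le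
  have h9 : (n : ℝ) * Real.log z = - (n * e) - n * Real.log mu := by
    have : Real.log z = -e - Real.log mu := by linarith
    rw [this]; ring
  -- the logarithm of the length
  have he1 : 0 < 1 / e := by positivity
  have h10 : s ≤ (B * S + 1) * (1 / e) := by
    have h11 : s * e ≤ B * S + 1 := by
      have h12 : 0 ≤ s * ρ := mul_nonneg hs0.le hR0
      have h13 : s * (ρ + e) = s * ρ + s * e := by ring
      rw [h13] at hs
      linarith
    rw [mul_one_div, le_div_iff₀ he]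
    exact h11
  have h11 : (n : ℝ) ≤ (4 + B) * (2 + S + 1 / e) ^ 2 := by
    have := scale_lo hB0 hS1 he1
    linarith
  obtain ⟨L, hL⟩ : ∃ L, L = Lg x e := ⟨_, rfl⟩
  rw [← hL] at hLg1 hLgd ⊢
  have h12 : Real.log n ≤ A * L := by
    have h13 := Real.log_le_log hn0 h11
    rw [Real.log_mul (by positivity) (by positivity), Real.log_pow] at h13
    push_cast at h13
    rw [← hLgd] at h13
    have h14 : Real.log (4 + B) * 1 ≤ Real.log (4 + B) * L := mul_le_mul_of_nonneg_left hLg1 hA0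
    have e1 : A * L = 2 * L + Real.log (4 + B) * L := by rw [hA]; ring
    rw [e1]
    linarith
  have h12' : 0 ≤ Real.log (n : ℝ) := Real.log_nonneg (by linarith)
  have h13 : Real.log (n : ℝ) ^ 2 ≤ A ^ 2 * L ^ 2 := by
    rw [← mul_pow]
    exact pow_le_pow_left₀ h12' h12 2
  have h14 := mul_le_mul_of_nonneg_left h13 hK2
  have hL3 : 1 ≤ L ^ 2 := one_le_pow₀ hLg1
  have u1 : 3 * e ≤ 3 * E * L ^ 2 := by
    have q1 : E * 1 ≤ E * L ^ 2 := mul_le_mul_of_nonneg_left hL3 hE.le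
    linarith
  have e4 : (1 + 3 * E + K2 * A ^ 2) * L ^ 2 = L ^ 2 + 3 * E * L ^ 2 + K2 * (A ^ 2 * L ^ 2) := by
    ring
  rw [e4]
  have e5 : (s + 3) * e = s * e + 3 * e := by ring
  have e6 : s * (ρ + e) = s * ρ + s * e := by ring
  rw [e5] at h6
  rw [e6] at hs
  rw [h9] at h3
  clear hLgd h10 h11 h12 hMle hs1 hn1 hn2 e1 e2 hR1
  linarith

/-- comparison of the mass norms with the axis -/
theorem M_between {e : ℝ} (he : 0 < e) (y : ℝ × ℝ) :
    max |y.1| |y.2| * Pool.Agent.Y981.L2.mass e ≤ M e y ∧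
    M e y ≤ (|y.1| + |y.2|) * Pool.Agent.Y981.L2.mass e := by
  have hm := Pool.Agent.Y981.L2.mass_pos he
  constructor
  · have key : ∀ g : ℝ, 0 ≤ g → psi g ≤ e → g * |y.1| ≤ M e y ∧ g * |y.2| ≤ M e y := by
      intro g hg hpsi
      have l1 : Lam (g, 0) ≤ e := hpsi
      have l2 : Lam (-g, 0) ≤ e := (Lam_sg (g, 0)).le.trans l1
      have l3 : Lam (0, g) ≤ e := (Lam_sw (g, 0)).le.trans l1
      have l4 : Lam (0, -g) ≤ e := (Lam_ng (0, g)).le.trans l3
      constructor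
      · rcases abs_cases y.1 with ⟨h, _⟩ | ⟨h, _⟩
        · have := le_M y l1
          rw [h]; simpa using this
        · have := le_M y l2
          rw [h]; simpa using this
      · rcases abs_cases y.2 with ⟨h, _⟩ | ⟨h, _⟩
        · have := le_M y l3
          rw [h]; simpa using this
        · have := le_M y l4
          rw [h]; simpa using this
    have key2 : ∀ v : ℝ, 0 ≤ v → (∀ g : ℝ, 0 ≤ g → psi g ≤ e → g * v ≤ M e y) →
        v * Pool.Agent.Y981.L2.mass e ≤ M e y := by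
      intro v hv hg
      rcases hv.eq_or_lt with h0 | h0
      · rw [← h0, zero_mul]
        have := hg 0 le_rfl (by rw [psi_zero]; exact he.le)
        simpa using this
      · have h1 : Pool.Agent.Y981.L2.mass e ≤ M e y / v := by
          apply csSup_le ⟨0, Pool.Agent.Y981.L2.zero_mem he.le⟩
          rintro g ⟨g0, g1⟩
          rw [le_div_iff₀ h0]
          exact hg g g0 g1
        rw [le_div_iff₀ h0] at h1
        linarith
    rcases max_choice |y.1| |y.2| with h | h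
    · rw [h]
      exact key2 _ (abs_nonneg _) (fun g g0 g1 => (key g g0 g1).1)
    · rw [h]
      exact key2 _ (abs_nonneg _) (fun g g0 g1 => (key g g0 g1).2)
  · apply csSup_le (M_nonempty he.le y)
    rintro r ⟨h, hh, rfl⟩
    have h1 := le_mass (abs_nonneg h.1) ((Lam_ge h).trans hh)
    have h2 : |h.2| ≤ Pool.Agent.Y981.L2.mass e := by
      have h3 := Lam_ge (h.2, h.1)
      rw [Lam_sw] at h3
      exact le_mass (abs_nonneg h.2) (h3.trans hh)
    have h3 : h.1 * y.1 ≤ |h.1| * |y.1| := by rw [← abs_mul]; exact le_abs_self _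
    have h4 : h.2 * y.2 ≤ |h.2| * |y.2| := by rw [← abs_mul]; exact le_abs_self _
    have h5 := mul_le_mul_of_nonneg_right h1 (abs_nonneg y.1)
    have h6 := mul_le_mul_of_nonneg_right h2 (abs_nonneg y.2)
    linarith

end Pool.Agent.V11252.SAW
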