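import Pool.Agent.V11252.SAW.Poly
import Pool.Agent.Y981.L2.HalfE

/-!
Self-avoiding walks in a half plane pulled by a force.
-/

set_option autoImplicit false

namespace Pool.Agent.V11252.SAW

open Pool.Agent.TH795.EP Pool.Agent.TH795.EP2 Pool.Agent.TH795.SE2 H981 Finset Filter Topology
open Pool.Agent.Y981.L2 (Z Z_pos Z_eq Bx mem_Bx Lam psi psi_mono psi_nonneg psi_zero Rate R
  R_le_rate Dia MassLow MassUp young R_mono R_nonneg R_smul ldp_words Hi la hp hp_pos card_hi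
  card_hi_all c_le_hp a_le_la' a_zero hp_le_c Lam_ng Lam_sg)
open Pool.Agent.Y981.L2X (Lam_le_of Lam_smul Lam_sw)

/-- the partition function of the walks in the upper half plane pulled by `h` -/
noncomputable def ZH (h : ℝ × ℝ) (n : ℕ) : ℝ :=
  ∑ w ∈ fs (fun w => Saw w ∧ Hi w) n, Real.exp (h.1 * dx w + h.2 * dy w)

theorem ZH_ne {n : ℕ} (hn : 2 ≤ n) : (fs (fun w => Saw w ∧ Hi w) n).Nonempty := by
  rw [← Finset.card_pos, card_hi_all]
  exact_mod_cast hp_pos hn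

theorem ZH_pos (h : ℝ × ℝ) {n : ℕ} (hn : 2 ≤ n) : 0 < ZH h n :=
  Finset.sum_pos (fun _ _ => Real.exp_pos _) (ZH_ne hn)

theorem ZH_zero (n : ℕ) : ZH (0, 0) n = hp n := by
  unfold ZH
  simp only [zero_mul, add_zero, Real.exp_zero, Finset.sum_const, nsmul_eq_mul, mul_one]
  rw [card_hi_all]

theorem hi_dy {w : List St} (h : Hi w) : 0 ≤ dy w := by
  have h1 := h w.length
  unfold path at h1
  rw [List.take_length] at h1
  exact h1

theorem ZH_le (h : ℝ × ℝ) (n : ℕ) : ZH h n ≤ Z (h.1, max h.2 0) n := by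
  unfold ZH Pool.Agent.Y981.L2.Z
  have hsub : fs (fun w => Saw w ∧ Hi w) n ⊆ fs Saw n := by
    intro w hw
    rw [mem_fs] at hw ⊢
    exact ⟨hw.1.1, hw.2⟩
  refine le_trans (Finset.sum_le_sum ?_) (Finset.sum_le_sum_of_subset_of_nonneg hsub
    (fun _ _ _ => (Real.exp_pos _).le))
  intro w hw
  rw [mem_fs] at hw
  apply Real.exp_le_exp.2
  have h1 : (0 : ℝ) ≤ dy w := by exact_mod_cast hi_dy hw.1.2
  have h2 := mul_le_mul_of_nonneg_right (le_max_left h.2 0) h1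
  simp only
  linarith

/-- one end point -/
theorem la_le_ZH (h : ℝ × ℝ) (n : ℕ) (x y : ℤ) :
    (la n x (-y) : ℝ) * Real.exp (h.1 * x + h.2 * y) ≤ ZH h n := by
  classical
  rw [← card_hi]
  unfold ZH
  have hsub : fs (fun w => Saw w ∧ (dx w = x ∧ dy w = y) ∧ Hi w) n ⊆
      fs (fun w => Saw w ∧ Hi w) n := by
    intro w hw
    rw [mem_fs] at hw ⊢
    exact ⟨⟨hw.1.1, hw.1.2.2⟩, hw.2⟩
  rw [← nsmul_eq_mul, ← Finset.sum_const]
  refine le_trans (Finset.sum_le_sum ?_) (Finset.sum_le_sum_of_subset_of_nonneg hsub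
    (fun _ _ _ => (Real.exp_pos _).le))
  intro w hw
  rw [mem_fs] at hw
  rw [hw.1.2.1.1, hw.1.2.1.2]

/-- the sum over the end points -/
theorem ZH_eq (h : ℝ × ℝ) (n : ℕ) :
    ZH h n = ∑ z ∈ Bx n, (la n z.1 (-z.2) : ℝ) * Real.exp (h.1 * z.1 + h.2 * z.2) := by
  classical
  unfold ZH
  rw [← Finset.sum_fiberwise_of_maps_to (s := fs (fun w => Saw w ∧ Hi w) n) (t := Bx n)
    (g := fun w => (dx w, dy w)) (fun w hw => mem_Bx (mem_fs.1 hw).2)]
  apply Finset.sum_congr rfl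
  intro z _
  have e1 : ∀ w ∈ (fs (fun w => Saw w ∧ Hi w) n).filter (fun w => (dx w, dy w) = z),
      Real.exp (h.1 * dx w + h.2 * dy w) = Real.exp (h.1 * z.1 + h.2 * z.2) := by
    intro w hw
    rw [Finset.mem_filter] at hw
    rw [← hw.2]
  rw [Finset.sum_congr rfl e1, Finset.sum_const, nsmul_eq_mul]
  congr 2
  rw [← card_hi]
  congr 1
  ext w
  rw [Finset.mem_filter, mem_fs, mem_fs]
  constructor
  · rintro ⟨⟨⟨h1, h4⟩, h2⟩, h3⟩
    rw [← h3]
    exact ⟨⟨h1, ⟨rfl, rfl⟩, h4⟩, h2⟩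
  · rintro ⟨⟨h1, ⟨h4, h5⟩, h6⟩, h2⟩
    exact ⟨⟨⟨h1, h6⟩, h2⟩, Prod.ext h4 h5⟩

/-- a force into the half plane costs only a constant factor -/
theorem Z_le_ZH : ∃ K : ℝ, 0 ≤ K ∧ ∀ n : ℕ, 2 ≤ n → ∀ h : ℝ × ℝ, 0 ≤ h.2 →
    Z h n ≤ 2 * (q n K * ZH h n) := by
  classical
  obtain ⟨K, hK, hla⟩ := a_le_la'
  refine ⟨K, hK, fun n hn h hh => ?_⟩
  have hpos : ∀ z : ℤ × ℤ, 0 ≤ (a n z.1 z.2 : ℝ) * Real.exp (h.1 * z.1 + h.2 * z.2) := by
    intro z
    positivity
  have h1 : ∑ z ∈ (Bx n).filter (fun z => ¬ 0 ≤ z.2),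
      (a n z.1 z.2 : ℝ) * Real.exp (h.1 * z.1 + h.2 * z.2) ≤
      ∑ z ∈ (Bx n).filter (fun z => 0 ≤ z.2),
      (a n z.1 z.2 : ℝ) * Real.exp (h.1 * z.1 + h.2 * z.2) := by
    have h2 : ∑ z ∈ (Bx n).filter (fun z => ¬ 0 ≤ z.2),
        (a n z.1 z.2 : ℝ) * Real.exp (h.1 * z.1 + h.2 * z.2) ≤
        ∑ z ∈ ((Bx n).filter (fun z => ¬ 0 ≤ z.2)).image (fun z => (z.1, -z.2)),
        (a n z.1 z.2 : ℝ) * Real.exp (h.1 * z.1 + h.2 * z.2) := by
      rw [Finset.sum_image (by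
        intro z _ z' _ he
        simp only [Prod.mk.injEq, neg_inj] at he
        exact Prod.ext he.1 he.2)]
      apply Finset.sum_le_sum
      intro z hz
      rw [Finset.mem_filter] at hz
      rw [a_ng]
      apply mul_le_mul_of_nonneg_left _ (Nat.cast_nonneg _)
      apply Real.exp_le_exp.2
      have h3 : (z.2 : ℝ) ≤ 0 := by
        have : z.2 ≤ 0 := by omega
        exact_mod_cast this
      have h4 := mul_nonneg hh (neg_nonneg.2 h3)
      push_cast
      linarith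
    refine h2.trans (Finset.sum_le_sum_of_subset_of_nonneg ?_ (fun z _ _ => hpos z))
    intro z hz
    rw [Finset.mem_image] at hz
    obtain ⟨z', hz', rfl⟩ := hz
    rw [Finset.mem_filter] at hz' ⊢
    obtain ⟨g1, g2⟩ := hz'
    unfold Pool.Agent.Y981.L2.Bx at g1 ⊢
    rw [Finset.mem_product, Finset.mem_Icc, Finset.mem_Icc] at g1 ⊢
    simp only
    refine ⟨⟨g1.1, ?_, ?_⟩, ?_⟩ <;> omega
  have h2 : ∑ z ∈ (Bx n).filter (fun z => 0 ≤ z.2),
      (a n z.1 z.2 : ℝ) * Real.exp (h.1 * z.1 + h.2 * z.2) ≤ q n K * ZH h n := by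
    rw [ZH_eq, Finset.mul_sum]
    refine le_trans (Finset.sum_le_sum ?_) (Finset.sum_le_sum_of_subset_of_nonneg
      (Finset.filter_subset (fun z : ℤ × ℤ => 0 ≤ z.2) _) (fun z _ _ =>
        mul_nonneg (q_pos n K).le (mul_nonneg (Nat.cast_nonneg _) (Real.exp_pos _).le)))
    intro z hz
    rw [Finset.mem_filter] at hz
    rw [← mul_assoc]
    apply mul_le_mul_of_nonneg_right _ (Real.exp_pos _).le
    by_cases h0 : z = (0, 0)
    · rw [h0]
      simp only
      rw [a_zero (by omega), Nat.cast_zero]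
      exact mul_nonneg (q_pos n K).le (Nat.cast_nonneg _)
    · have g1 := hla n hn n le_rfl z.1 (-z.2) (by omega) (by
        intro he
        simp only [Prod.mk.injEq, neg_eq_zero] at he
        exact h0 (Prod.ext he.1 he.2))
      rw [a_ng] at g1
      exact g1
  rw [Z_eq, ← Finset.sum_filter_add_sum_filter_not (Bx n) (fun z => 0 ≤ z.2)]
  linarith

/-- **The free energy of the half-plane walks.** -/
theorem half_energy : ∃ K : ℝ, 0 ≤ K ∧ ∀ n : ℕ, 2 ≤ n → ∀ h : ℝ × ℝ,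
    Real.log (ZH h n / hp n) ≤ n * Lam (h.1, max h.2 0) + K * Real.log n ^ 2 ∧
    (0 ≤ h.2 → n * Lam h - K * Real.log n ^ 2 ≤ Real.log (ZH h n / hp n)) ∧
    n * Lam (h.1, 0) - 2 * |h.1| - K * Real.log n ^ 2 ≤ Real.log (ZH h n / hp n) := by
  obtain ⟨K1, hK1, h1⟩ := free_energy
  obtain ⟨K2, hK2, h2⟩ := c_le_hp
  obtain ⟨K3, hK3, h3⟩ := Z_le_ZH
  obtain ⟨K4, hK4, h4⟩ := ldp_words
  obtain ⟨K5, hK5, h5⟩ := a_le_la'
  have hR1 := R_nonneg zero_le_one le_rfl
  refine ⟨K1 + K2 + K3 + 3 + (K4 + K5 + 6 * R 1), by positivity, fun n hn h => ?_⟩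
  have hn0 : (0 : ℝ) < n := by exact_mod_cast (by omega : 0 < n)
  have hc := c_pos n
  have hhp := hp_pos hn
  have hZH := ZH_pos h hn
  have hlog : Real.log 2 ≤ Real.log n := log_ge hn
  have hl2 := Real.log_two_gt_d9
  have hl2' := Real.log_two_lt_d9
  obtain ⟨L, hL⟩ : ∃ L, L = Real.log (n : ℝ) ^ 2 := ⟨_, rfl⟩
  have hL0 : (0.4 : ℝ) ≤ L := by
    have h7 : (0.69 : ℝ) ^ 2 ≤ Real.log n ^ 2 :=
      pow_le_pow_left₀ (by norm_num) (by linarith) 2
    norm_num at h7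
    rw [hL]
    linarith
  rw [← hL]
  have p1 : 0 ≤ K1 * L := by positivity
  have p2 : 0 ≤ K2 * L := by positivity
  have p3 : 0 ≤ K3 * L := by positivity
  have p4 : 0 ≤ K4 * L := by positivity
  have p5 : 0 ≤ K5 * L := by positivity
  have p6 : 2 * R 1 ≤ 6 * R 1 * L := by
    have := mul_le_mul_of_nonneg_left hL0 hR1
    linarith
  have hclog : Real.log (c n) ≤ K2 * L + Real.log (hp n) := by
    have := Real.log_le_log hc (h2 n hn)
    rw [Real.log_mul (q_pos n K2).ne' hhp.ne'] at this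
    unfold q at this
    rwa [Real.log_exp, ← hL] at this
  have hcl2 : Real.log (hp n) ≤ Real.log (c n) :=
    Real.log_le_log hhp (by exact_mod_cast hp_le_c n)
  rw [Real.log_div hZH.ne' hhp.ne']
  refine ⟨?_, ?_, ?_⟩
  · have g1 := h1 n hn (h.1, max h.2 0)
    rw [Real.log_div (Z_pos _ n).ne' hc.ne', ← hL] at g1
    have g2 := (abs_le.1 g1).2
    have g3 := Real.log_le_log hZH (ZH_le h n)
    linarith
  · intro hh
    have g1 := h1 n hn h
    rw [Real.log_div (Z_pos _ n).ne' hc.ne', ← hL] at g1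
    have g2 := (abs_le.1 g1).1
    have g3 := Real.log_le_log (Z_pos h n) (h3 n hn h hh)
    rw [Real.log_mul (by norm_num) (mul_pos (q_pos n K3) hZH).ne',
      Real.log_mul (q_pos n K3).ne' hZH.ne'] at g3
    unfold q at g3
    rw [Real.log_exp, ← hL] at g3
    linarith
  · -- one end point on the boundary
    have one : ∀ k : ℕ, 1 ≤ k → k ≤ n → ((k : ℤ) - n) % 2 = 0 →
        |h.1| * k - n * R ((k : ℝ) / n) - (K4 + K5) * L ≤
          Real.log (ZH h n) - Real.log (hp n) := by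
      intro k hk hkn hpar
      obtain ⟨x, hx1, hx2⟩ : ∃ x : ℤ, |x| = k ∧ h.1 * x = |h.1| * k := by
        rcases le_total 0 h.1 with h0 | h0
        · exact ⟨k, abs_of_nonneg (by omega), by rw [abs_of_nonneg h0]; push_cast; ring⟩
        · exact ⟨-k, by rw [abs_neg]; exact abs_of_nonneg (by omega),
            by rw [abs_of_nonpos h0]; push_cast; ring⟩
      have hx0 : x ≠ 0 := by
        rintro rfl
        rw [abs_zero] at hx1
        omega
      have hxr : |(x : ℝ)| = k := by exact_mod_cast hx1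
      have hpar' : (x + 0 - n) % 2 = 0 := by
        rcases abs_cases x with ⟨h6, _⟩ | ⟨h6, _⟩ <;> omega
      have hle : |x| + |(0 : ℤ)| ≤ n := by rw [abs_zero, hx1]; omega
      have hne : (x, (0 : ℤ)) ≠ (0, 0) := by
        intro he
        exact hx0 (Prod.mk.inj he).1
      have hne2 : ((k : ℤ), (0 : ℤ)) ≠ (0, 0) := by
        intro he
        have := (Prod.mk.inj he).1
        omega
      have ea : a n (k : ℤ) 0 = a n x 0 := by
        rw [← a_abs n x 0, hx1, abs_zero]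
      have g1 := h4 n hn k 0 hne2 (by omega) (by rw [abs_zero, abs_of_nonneg (by omega)]; omega)
      have e1 : Rate (((k : ℤ) : ℝ) / n, ((0 : ℤ) : ℝ) / n) = R ((k : ℝ) / n) := by
        unfold Pool.Agent.Y981.L2.R
        rw [Int.cast_zero, zero_div, Int.cast_natCast]
      rw [← hL, ea] at g1
      have g2 := (abs_le.1 g1).1
      have ha1 := one_le_a hne hpar' hle
      have ha : (0 : ℝ) < a n x 0 := by exact_mod_cast ha1
      rw [Real.log_div ha.ne' hc.ne'] at g2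
      have g3 := h5 n hn n le_rfl x 0 le_rfl hne
      have hla : (0 : ℝ) < la n x 0 := by
        by_contra hcon
        push Not at hcon
        have h7 := q_pos n K5
        have : q n K5 * la n x 0 ≤ 0 := mul_nonpos_of_nonneg_of_nonpos h7.le hcon
        linarith
      have g4 := Real.log_le_log ha g3
      rw [Real.log_mul (q_pos n K5).ne' hla.ne'] at g4
      unfold q at g4
      rw [Real.log_exp, ← hL] at g4
      have g5 := la_le_ZH h n x 0
      rw [neg_zero] at g5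
      have g6 := Real.log_le_log (by positivity) g5
      rw [Real.log_mul hla.ne' (Real.exp_pos _).ne', Real.log_exp, Int.cast_zero, mul_zero,
        add_zero, hx2] at g6
      rw [e1] at g2
      linarith
    obtain ⟨C, hC⟩ : ∃ C, C = (Real.log (ZH h n) - Real.log (hp n) + 2 * |h.1| +
      (K4 + K5 + 6 * R 1) * L) / n := ⟨_, rfl⟩
    have hCn : n * C = Real.log (ZH h n) - Real.log (hp n) + 2 * |h.1| +
        (K4 + K5 + 6 * R 1) * L := by
      rw [hC]; field_simp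
    have ha0 := abs_nonneg h.1
    have key : ∀ u : ℝ, 0 ≤ u → u ≤ 1 → |h.1| * u - R u ≤ C := by
      intro u h0 h1
      have hR := R_nonneg h0 h1
      rw [← mul_le_mul_iff_right₀ hn0, hCn]
      have e1 : (n : ℝ) * (|h.1| * u - R u) = |h.1| * (n * u) - n * R u := by ring
      rw [e1]
      have hnR : 0 ≤ (n : ℝ) * R u := by positivity
      rcases lt_or_ge ((n : ℝ) * u) 2 with h2 | h2
      · -- small displacement: use `1` or `2`
        obtain ⟨k, hk1, hk2, hk3⟩ : ∃ k : ℕ, 1 ≤ k ∧ k ≤ 2 ∧ ((k : ℤ) - n) % 2 = 0 := by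
          rcases Nat.even_or_odd n with ⟨m, hm⟩ | ⟨m, hm⟩
          · exact ⟨2, by omega, le_rfl, by omega⟩
          · exact ⟨1, le_rfl, by omega, by omega⟩
        have g1 := one k hk1 (by omega) hk3
        have hkn : (k : ℝ) / n ≤ 1 := by
          rw [div_le_one hn0]
          exact_mod_cast (by omega : k ≤ n)
        have g2 := R_smul zero_le_one le_rfl (by positivity : 0 ≤ (k : ℝ) / n) hkn
        rw [mul_one] at g2
        have g3 := mul_le_mul_of_nonneg_left g2 hn0.le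
        have e2 : (n : ℝ) * ((k : ℝ) / n * R 1) = k * R 1 := by field_simp
        rw [e2] at g3
        have hk2' : (k : ℝ) ≤ 2 := by exact_mod_cast hk2
        have g4 := mul_le_mul_of_nonneg_right hk2' hR1
        have g5 : 0 ≤ |h.1| * (k : ℝ) := by positivity
        have g6 : |h.1| * (n * u) ≤ |h.1| * 2 := mul_le_mul_of_nonneg_left h2.le ha0
        linarith
      · obtain ⟨j, hj⟩ : ∃ j, j = ⌊(n : ℝ) * u⌋₊ := ⟨_, rfl⟩
        have hj1 : 2 ≤ j := by rw [hj]; exact Nat.le_floor (by exact_mod_cast h2)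
        have hj2 : (j : ℝ) ≤ n * u := by rw [hj]; exact Nat.floor_le (by positivity)
        have hj3 : (n : ℝ) * u < j + 1 := by rw [hj]; exact Nat.lt_floor_add_one _
        have hjn : j ≤ n := by
          have : (j : ℝ) ≤ n := by
            have : (n : ℝ) * u ≤ n * 1 := mul_le_mul_of_nonneg_left h1 hn0.le
            linarith
          exact_mod_cast this
        obtain ⟨k, hk1, hk2, hk3, hk4⟩ : ∃ k : ℕ, 1 ≤ k ∧ k ≤ j ∧ j ≤ k + 1 ∧
            ((k : ℤ) - n) % 2 = 0 := by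
          rcases Int.emod_two_eq_zero_or_one ((j : ℤ) - n) with h3 | h3
          · exact ⟨j, by omega, le_rfl, by omega, h3⟩
          · exact ⟨j - 1, by omega, by omega, by omega, by omega⟩
        have g1 := one k hk1 (by omega) hk4
        have hkj : (k : ℝ) ≤ j := by exact_mod_cast hk2
        have hjk : (j : ℝ) ≤ k + 1 := by exact_mod_cast hk3
        have hku : (k : ℝ) / n ≤ u := by
          rw [div_le_iff₀ hn0]; linarith
        have g2 := R_mono (by positivity : 0 ≤ (k : ℝ) / n) hku h1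
        have g3 := mul_le_mul_of_nonneg_left g2 hn0.le
        have g4 : |h.1| * (n * u) ≤ |h.1| * (k + 2) :=
          mul_le_mul_of_nonneg_left (by linarith) ha0
        have g5 : 0 ≤ 6 * R 1 * L := by positivity
        linarith
    have hlam : Lam (h.1, 0) ≤ C := by
      apply Lam_le_of
      intro v hv
      have g1 := R_le_rate hv
      have hd : |v.1| + |v.2| ≤ 1 := hv
      have a2 := abs_nonneg v.2
      have g2 := key |v.1| (abs_nonneg _) (by linarith)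
      have g3 : h.1 * v.1 ≤ |h.1| * |v.1| := by rw [← abs_mul]; exact le_abs_self _
      simp only [zero_mul, add_zero]
      linarith
    have g1 := mul_le_mul_of_nonneg_left hlam hn0.le
    rw [hCn] at g1
    linarith

/-! ### the height under a vertical force -/

/-- the mean height under the vertical force `g` -/
noncomputable def YH (g : ℝ) (n : ℕ) : ℝ :=
  (∑ w ∈ fs (fun w => Saw w ∧ Hi w) n, (dy w : ℝ) * Real.exp (g * dy w)) / ZH (0, g) n

theorem Lam_vert (g : ℝ) : Lam (0, g) = psi g := by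
  have := Lam_sw (0, g)
  exact this.symm

theorem half_height : ∃ K : ℝ, 0 ≤ K ∧ ∀ n : ℕ, 2 ≤ n → ∀ g : ℝ, 0 ≤ g →
    n * psi g - K * Real.log n ^ 2 ≤ g * YH g n ∧
    g * YH g n ≤ n * (psi (2 * g) - psi g) + K * Real.log n ^ 2 := by
  obtain ⟨K, hK, h⟩ := half_energy
  refine ⟨2 * K, by positivity, fun n hn g hg => ?_⟩
  have hp0 := hp_pos hn
  have hj : ∀ t : ℝ, t * YH g n ≤ Real.log (ZH (0, g + t) n) - Real.log (ZH (0, g) n) := by
    intro t
    have h1 := jensen_gen (fs (fun w => Saw w ∧ Hi w) n) (ZH_ne hn) (fun w => (dy w : ℝ)) g t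
    unfold YH ZH
    simp only [zero_mul, zero_add]
    exact h1
  have hL : 0 ≤ K * Real.log (n : ℝ) ^ 2 := by positivity
  have j1 := hj (-g)
  have j2 := hj g
  have e1 : g + -g = 0 := by ring
  have e2 : g + g = 2 * g := by ring
  rw [e1, ZH_zero] at j1
  rw [e2] at j2
  have h1 := (h n hn (0, g)).2.1 hg
  have h2 := (h n hn (0, 2 * g)).1
  simp only at h2
  rw [max_eq_left (by positivity : (0 : ℝ) ≤ 2 * g)] at h2
  rw [Lam_vert, Real.log_div (ZH_pos _ hn).ne' hp0.ne'] at h1 h2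
  constructor <;> linarith

theorem pincus_upper_gen2 {θ : ℝ} (hθ : 0 < θ) (F : FUp θ) {ε : ℝ} (hε : 0 < ε) {K : ℝ}
    (hK : 0 ≤ K) {D : ℝ → ℕ → ℝ}
    (hD : ∀ n : ℕ, 2 ≤ n → ∀ f : ℝ, 0 < f → f < 1 →
      f * D f n ≤ n * Lam (2 * f, 0) + K * Real.log n ^ 2) :
    ∃ f₀ : ℝ, 0 < f₀ ∧ ∀ f : ℝ, 0 < f → f < f₀ → ∀ n : ℕ, 2 ≤ n →
      f ^ (-(1 / θ)) ≤ (n : ℝ) → D f n / n ≤ f ^ (1 / θ - 1 - ε) := by
  have hθ1 : 0 < 1 / θ := by positivity
  obtain ⟨δ, hδ⟩ : ∃ δ, δ = min ε (1 / θ) := ⟨_, rfl⟩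
  have hδ0 : 0 < δ := by rw [hδ]; exact lt_min hε hθ1
  have hδε : δ ≤ ε := by rw [hδ]; exact min_le_left _ _
  have hδθ : δ ≤ 1 / θ := by rw [hδ]; exact min_le_right _ _
  have htw : Tendsto (fun f : ℝ => 2 * f) (𝓝[>] (0 : ℝ)) (𝓝[>] (0 : ℝ)) := by
    have := tendsto_pow0 (s := 1) (C := 2) one_pos (by norm_num)
    simpa using this
  have h1 := htw.eventually (tendsto_axis.eventually (F (δ / 2) (by linarith)))
  have h2 := small_log hK (show 0 < 1 / θ - δ / 2 by linarith)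
    (show 1 / θ - δ / 2 < 1 / θ by linarith)
  have h3 := ev_rpow ((2 : ℝ) ^ (1 / θ - δ / 2) + 1) (show 1 / θ - δ < 1 / θ - δ / 2 by linarith)
  have h5 := (((h1.and h2).and h3).and (Ioo_mem_nhdsGT (show (0 : ℝ) < 1 by norm_num)))
  obtain ⟨f₀, hf₀, hf⟩ := mem_nhdsGT_iff_exists_Ioo_subset.1 h5
  refine ⟨f₀, hf₀, fun f hf0 hf1 n hn2 hn => ?_⟩
  obtain ⟨⟨⟨a1, a2⟩, a3⟩, a5⟩ := hf ⟨hf0, hf1⟩
  rw [norm_axis (by positivity : (0 : ℝ) < 2 * f), Real.mul_rpow (by norm_num) hf0.le] at a1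
  have b2 := a2 n hn
  have hn0 : (0 : ℝ) < n := by exact_mod_cast (by omega : 0 < n)
  have b1 := hD n hn2 f hf0 a5.2
  have c1 := mul_le_mul_of_nonneg_left a1 hn0.le
  have c3 := mul_le_mul_of_nonneg_left a3 hn0.le
  have c4 : f * D f n ≤ n * f ^ (1 / θ - δ) := by linarith
  have c5 : f ^ (1 / θ - δ) ≤ f ^ (1 / θ - ε) :=
    Real.rpow_le_rpow_of_exponent_ge hf0 a5.2.le (by linarith)
  have c6 := mul_le_mul_of_nonneg_left c5 hn0.le
  rw [div_le_iff₀ hn0]
  have e3 : f * (f ^ (1 / θ - 1 - ε) * n) = n * f ^ (1 / θ - ε) := by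
    have : f ^ (1 / θ - ε) = f * f ^ (1 / θ - 1 - ε) := by
      conv_rhs => lhs; rw [← Real.rpow_one f]
      rw [← Real.rpow_add hf0]
      congr 1
      ring
    rw [this]; ring
  rw [← mul_le_mul_iff_right₀ hf0, e3]
  linarith

theorem psi_half (g : ℝ) : 2 * psi (g / 2) ≤ psi g := by
  have h := Lam_smul (g, 0) (t := 1 / 2) (by norm_num) (by norm_num)
  have e1 : ((1 / 2 : ℝ) * (g, (0 : ℝ)).1, (1 / 2 : ℝ) * (g, (0 : ℝ)).2) = (g / 2, (0 : ℝ)) := by
    ext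
    · simp only; ring
    · simp
  rw [e1] at h
  have e2 : psi (g / 2) = Lam (g / 2, 0) := rfl
  have e3 : psi g = Lam (g, 0) := rfl
  rw [e2, e3]
  linarith

theorem height_small : ∃ K : ℝ, 0 ≤ K ∧ ∀ n : ℕ, 2 ≤ n → ∀ f : ℝ, 0 < f → f < 1 →
    2 * n * Lam (f / 2, 0) - K * Real.log n ^ 2 ≤ f * YH f n ∧
    f * YH f n ≤ n * Lam (2 * f, 0) + K * Real.log n ^ 2 := by
  obtain ⟨K, hK, h⟩ := half_height
  refine ⟨K, hK, fun n hn f hf0 _ => ?_⟩
  obtain ⟨h1, h2⟩ := h n hn f hf0.le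
  have hn0 : (0 : ℝ) ≤ n := Nat.cast_nonneg n
  have e2 : psi (f / 2) = Lam (f / 2, 0) := rfl
  have e3 : psi (2 * f) = Lam (2 * f, 0) := rfl
  have h3 := mul_le_mul_of_nonneg_left (psi_half f) hn0
  have h4 := mul_nonneg hn0 (psi_nonneg f)
  rw [e2] at h3
  rw [e3] at h2
  constructor <;> linarith

theorem sizeUp_iff {θ : ℝ} (hθ : 0 < θ) (hθ1 : θ < 1) :
    Pool.Agent.Y981.L2.SizeUp θ ↔ FUp θ :=
  ⟨fun h => massLow_fUp hθ (Pool.Agent.Y981.L2.sizeUp_massLow hθ hθ1 h),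
    fun h => Pool.Agent.Y981.L2.massLow_sizeUp (fUp_massLow hθ h)⟩

theorem sizeLow_iff {θ : ℝ} (hθ : 0 < θ) (hθ1 : θ < 1) :
    Pool.Agent.Y981.L2.SizeLow θ ↔ FLow θ :=
  ⟨fun h => massUp_fLow hθ (Pool.Agent.Y981.L2.sizeLow_massUp hθ hθ1 h),
    fun h => Pool.Agent.Y981.L2.massUp_sizeLow hθ hθ1 (fLow_massUp hθ h)⟩

end Pool.Agent.V11252.SAW
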