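import Pool.Agent.V11252.SAW.Poly
import Pool.Agent.Y981.L2.Area5

/-!
Self-avoiding polygons under a pressure.
-/

set_option autoImplicit false

namespace Pool.Agent.V11252.SAW

open Pool.Agent.TH795.EP Pool.Agent.TH795.EP2 Pool.Agent.TH262.SawL H981 Finset Filter Topology
open Pool.Agent.Y981.L2 (Z Z_pos Lam psi psi_mono psi_nonneg psi_zero Rate R R_le_rate Dia
  young R_mono R_nonneg R_zero R_smul pw pw_anti pw_nat pw_ldp width width_le le_width
  loops_finite par par_anti par_le area area_lower area_le_wh swp swp_loop RUp RLow AreaUp AreaLow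
  ev_pow ev_log)

/-- the partition function of the inflated polygons, normalised -/
noncomputable def Za (n : ℕ) (p : ℝ) : ℝ :=
  (∑ᶠ g ∈ Lps n, Real.exp (p * area (2 * n) g)) / ((Lps n).ncard : ℝ)

theorem Za_eq {n : ℕ} (hn : 2 ≤ n) (p : ℝ) : Za n p =
    (∑ g ∈ (Lps_fin hn).toFinset, Real.exp (p * area (2 * n) g)) / ((Lps n).ncard : ℝ) := by
  unfold Za
  rw [finsum_mem_eq_finite_toFinset_sum _ (Lps_fin hn)]

theorem Za_pos {n : ℕ} (hn : 2 ≤ n) (p : ℝ) : 0 < Za n p := by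
  rw [Za_eq hn]
  exact div_pos (Finset.sum_pos (fun _ _ => Real.exp_pos _) (Lps_ne hn)) (Lps_pos hn)

theorem one_le_Za {n : ℕ} (hn : 2 ≤ n) {p : ℝ} (hp : 0 ≤ p) : 1 ≤ Za n p := by
  have h0 : Za n 0 = 1 := by
    rw [Za_eq hn]
    simp only [zero_mul, Real.exp_zero, Finset.sum_const, nsmul_eq_mul, mul_one]
    rw [Lps_card hn, div_self (Lps_pos hn).ne']
  rw [← h0, Za_eq hn, Za_eq hn]
  apply div_le_div_of_nonneg_right _ (Lps_pos hn).le
  apply Finset.sum_le_sum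
  intro g _
  apply Real.exp_le_exp.2
  rw [zero_mul]
  positivity

theorem par_card {n : ℕ} (hn : 2 ≤ n) (r : ℝ) :
    (({f : ZMod (2 * n) → ℤ × ℤ | IsLoop (2 * n) f ∧ r ≤ area (2 * n) f}.ncard : ℕ) : ℝ) =
      (((Lps_fin hn).toFinset.filter (fun g => r ≤ (area (2 * n) g : ℝ))).card : ℝ) := by
  classical
  rw [← Set.ncard_coe_finset]
  congr 2
  ext f
  simp [Lps]

/-- one area -/
theorem le_Za {n : ℕ} (hn : 2 ≤ n) {p : ℝ} (hp : 0 ≤ p) (r : ℝ) :
    par n r * Real.exp (p * r) ≤ Za n p := by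
  classical
  rw [Za_eq hn]
  unfold Pool.Agent.Y981.L2.par
  rw [div_mul_eq_mul_div]
  apply div_le_div_of_nonneg_right _ (Lps_pos hn).le
  rw [par_card hn, ← nsmul_eq_mul, ← Finset.sum_const]
  refine le_trans ?_ (Finset.sum_le_sum_of_subset_of_nonneg
    (Finset.filter_subset (fun g => r ≤ (area (2 * n) g : ℝ)) _)
    (fun _ _ _ => (Real.exp_pos _).le))
  apply Finset.sum_le_sum
  intro g hg
  rw [Finset.mem_filter] at hg
  apply Real.exp_le_exp.2
  exact mul_le_mul_of_nonneg_left hg.2 hp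

/-- all areas -/
theorem Za_le {n : ℕ} (hn : 2 ≤ n) {p : ℝ} (hp : 0 ≤ p) :
    Za n p ≤ ∑ k ∈ Finset.range (n + 1), par n ((k : ℝ) ^ 2) * Real.exp (p * ((k : ℝ) + 1) ^ 2) := by
  classical
  rw [Za_eq hn, div_le_iff₀ (Lps_pos hn), Finset.sum_mul]
  have h1 : ∀ g ∈ (Lps_fin hn).toFinset, Real.exp (p * area (2 * n) g) ≤
      ∑ k ∈ Finset.range (n + 1), (if (k : ℝ) ^ 2 ≤ area (2 * n) g then
        Real.exp (p * ((k : ℝ) + 1) ^ 2) else 0) := by
    intro g hg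
    rw [Set.Finite.mem_toFinset] at hg
    obtain ⟨k, hk⟩ : ∃ k, k = Nat.sqrt (area (2 * n) g) := ⟨_, rfl⟩
    have h2 : k * k ≤ area (2 * n) g := by rw [hk]; exact Nat.sqrt_le _
    have h3 : area (2 * n) g < (k + 1) * (k + 1) := by rw [hk]; exact Nat.lt_succ_sqrt _
    have h4 : area (2 * n) g ≤ n * n :=
      (area_le_wh (by omega) hg).trans
        (Nat.mul_le_mul (width_le_n hn hg) (width_le_n hn (swp_loop hg)))
    have h5 : k ≤ n := by
      by_contra hcon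
      push Not at hcon
      have : n * n < k * k := Nat.mul_self_lt_mul_self hcon
      omega
    have h6 := Finset.single_le_sum (f := fun k : ℕ =>
      (if (k : ℝ) ^ 2 ≤ area (2 * n) g then Real.exp (p * ((k : ℝ) + 1) ^ 2) else 0))
      (fun k _ => by split_ifs <;> positivity)
      (Finset.mem_range.2 (by omega : k < n + 1))
    have h7 : (k : ℝ) ^ 2 ≤ area (2 * n) g := by rw [sq]; exact_mod_cast h2
    simp only [h7, if_true] at h6
    refine le_trans (Real.exp_le_exp.2 (mul_le_mul_of_nonneg_left ?_ hp)) h6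
    rw [sq]
    exact_mod_cast h3.le
  refine (Finset.sum_le_sum h1).trans ?_
  rw [Finset.sum_comm]
  apply Finset.sum_le_sum
  intro k _
  rw [← Finset.sum_filter, Finset.sum_const, nsmul_eq_mul]
  unfold Pool.Agent.Y981.L2.par
  apply le_of_eq
  rw [par_card hn]
  have hp := Lps_pos hn
  have e2 : (({f : ZMod (2 * n) → ℤ × ℤ | IsLoop (2 * n) f}.ncard : ℕ) : ℝ) =
      ((Lps n).ncard : ℝ) := rfl
  rw [e2]
  field_simp

/-- **The free energy of the inflated polygons.** -/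
theorem infl_energy : ∃ K : ℝ, 0 ≤ K ∧ ∀ n : ℕ, 2 ≤ n → ∀ p : ℝ, 0 ≤ p →
    (∀ v : ℝ, 0 ≤ v → v ≤ 1 →
      p * (n * v) ^ 2 / 4 - 2 * n * R v ≤ Real.log (Za n p) + (p * n + K * Real.log n ^ 2)) ∧
    ∃ v : ℝ, 0 ≤ v ∧ v ≤ 1 ∧
      Real.log (Za n p) ≤ p * (n * v) ^ 2 - 2 * n * R v + (4 * p * n + K * Real.log n ^ 2) := by
  obtain ⟨K1, hK1, hlow⟩ := area_lower
  obtain ⟨K2, hK2, hldp⟩ := pw_ldp
  refine ⟨K1 + K2 + 6, by positivity, fun n hn p hp => ?_⟩
  have hn0 : (0 : ℝ) < n := by exact_mod_cast (by omega : 0 < n)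
  obtain ⟨L, hL⟩ : ∃ L, L = Real.log (n : ℝ) ^ 2 := ⟨_, rfl⟩
  have hlog : Real.log 2 ≤ Real.log n := log_ge hn
  have hl2 := Real.log_two_gt_d9
  have hL0 : 0 ≤ L := by rw [hL]; positivity
  have hL4 : (0.4 : ℝ) ≤ L := by
    have h7 : (0.69 : ℝ) ^ 2 ≤ Real.log n ^ 2 :=
      pow_le_pow_left₀ (by norm_num) (by linarith) 2
    norm_num at h7
    rw [hL]
    linarith
  have hKL1 : 0 ≤ K1 * L := by positivity
  have hKL2 : 0 ≤ K2 * L := by positivity
  rw [← hL]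
  have hZ1 := one_le_Za hn hp
  have hZ0 := Za_pos hn p
  have hlogZ : 0 ≤ Real.log (Za n p) := Real.log_nonneg hZ1
  have hpn : 0 ≤ p * n := by positivity
  constructor
  · intro v h0 h1
    have hR := R_nonneg h0 h1
    obtain ⟨x, hx⟩ : ∃ x, x = (n : ℝ) * v / 2 := ⟨_, rfl⟩
    have hx0 : 0 ≤ x := by rw [hx]; positivity
    have hxn : 2 * x ≤ n := by
      rw [hx]
      have : (n : ℝ) * v ≤ n * 1 := mul_le_mul_of_nonneg_left h1 hn0.le
      linarith
    have e1 : (n * v) ^ 2 / 4 = x ^ 2 := by rw [hx]; ring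
    have e2 : p * (n * v) ^ 2 / 4 = p * x ^ 2 := by rw [mul_div_assoc, e1]
    rw [e2]
    obtain ⟨j, hj1, hj2, hj3⟩ : ∃ j : ℕ, 2 * j < n ∧ (j : ℝ) ≤ x ∧ x - 1 ≤ j := by
      obtain ⟨k, hk⟩ : ∃ k, k = ⌊x⌋₊ := ⟨_, rfl⟩
      have hk2 : (k : ℝ) ≤ x := by rw [hk]; exact Nat.floor_le hx0
      have hk3 : x < k + 1 := by rw [hk]; exact Nat.lt_floor_add_one _
      rcases Nat.lt_or_ge (2 * k) n with h3 | h3
      · exact ⟨k, h3, hk2, by linarith⟩
      · have h4 : (n : ℝ) ≤ 2 * k := by exact_mod_cast h3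
        have h6 : ((k - 1 : ℕ) : ℝ) = k - 1 := by
          rw [Nat.cast_sub (by omega), Nat.cast_one]
        have h7 : 2 * k ≤ n := by
          have : 2 * (k : ℝ) ≤ n := by linarith
          exact_mod_cast this
        refine ⟨k - 1, by omega, by rw [h6]; linarith, by rw [h6]; linarith⟩
    have hj0 : (0 : ℝ) ≤ j := Nat.cast_nonneg j
    have hsq : x ^ 2 - 2 * x ≤ (j : ℝ) ^ 2 := by
      rcases le_total 1 x with h3 | h3
      · have h4 : (x - 1) ^ 2 ≤ (j : ℝ) ^ 2 := pow_le_pow_left₀ (by linarith) hj3 2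
        nlinarith
      · nlinarith [sq_nonneg (j : ℝ)]
    have h3 : p * (x ^ 2 - 2 * x) ≤ p * (j : ℝ) ^ 2 := mul_le_mul_of_nonneg_left hsq hp
    have h4 : p * (2 * x) ≤ p * n := mul_le_mul_of_nonneg_left hxn hp
    have hnR : 0 ≤ 2 * (n : ℝ) * R v := by positivity
    rcases Nat.eq_zero_or_pos j with h5 | h5
    · rw [h5] at h3
      simp only [Nat.cast_zero, ne_eq, OfNat.ofNat_ne_zero, not_false_eq_true, zero_pow,
        mul_zero] at h3
      linarith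
    · have h6 := hlow n hn j h5 hj1
      rw [← hL] at h6
      have h7 := (mul_le_mul_of_nonneg_right h6 (Real.exp_pos (p * (j : ℝ) ^ 2)).le).trans
        (le_Za hn hp ((j : ℝ) ^ 2))
      rw [← Real.exp_add, ← Real.le_log_iff_exp_le hZ0] at h7
      have hkv : 2 * (j : ℝ) / n ≤ v := by
        rw [div_le_iff₀ hn0]
        have : 2 * x = n * v := by rw [hx]; ring
        linarith
      have h8 := R_mono (by positivity : 0 ≤ 2 * (j : ℝ) / n) hkv h1
      have h9 := mul_le_mul_of_nonneg_left h8 (show (0 : ℝ) ≤ 2 * n by positivity)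
      linarith
  · -- the best scale
    obtain ⟨j, hjr, hj⟩ := Finset.exists_max_image (Finset.range n)
      (fun j : ℕ => p * (j : ℝ) ^ 2 - 2 * n * R ((j : ℝ) / n)) ⟨0, Finset.mem_range.2 (by omega)⟩
    rw [Finset.mem_range] at hjr
    obtain ⟨C, hC⟩ : ∃ C, C = p * (j : ℝ) ^ 2 - 2 * n * R ((j : ℝ) / n) := ⟨_, rfl⟩
    rw [← hC] at hj
    refine ⟨(j : ℝ) / n, by positivity, ?_, ?_⟩
    · rw [div_le_one hn0]
      exact_mod_cast hjr.le
    · have e1 : (n : ℝ) * ((j : ℝ) / n) = j := by field_simp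
      rw [e1, ← hC]
      have hC0 : 0 ≤ C := by
        have := hj 0 (Finset.mem_range.2 (by omega))
        simp only [Nat.cast_zero, zero_div, R_zero, mul_zero, ne_eq, OfNat.ofNat_ne_zero,
          not_false_eq_true, zero_pow, sub_zero] at this
        exact this
      have e2 : (2 : ℝ) ≤ Real.exp 1 := by
        have := Real.exp_one_gt_d9
        linarith
      have hterm : ∀ k ∈ Finset.range (n + 1),
          par n ((k : ℝ) ^ 2) * Real.exp (p * ((k : ℝ) + 1) ^ 2) ≤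
          Real.exp (C + 4 * p * n + K2 * L + 1) := by
        intro k hk
        rw [Finset.mem_range] at hk
        rcases Nat.eq_zero_or_pos k with h0 | h0
        · have h1 : par n (((0 : ℕ) : ℝ) ^ 2) ≤ 1 := by
            unfold Pool.Agent.Y981.L2.par
            have e3 : (({f : ZMod (2 * n) → ℤ × ℤ | IsLoop (2 * n) f}.ncard : ℕ) : ℝ) =
                ((Lps n).ncard : ℝ) := rfl
            rw [e3, div_le_one (Lps_pos hn)]
            have : {f : ZMod (2 * n) → ℤ × ℤ | IsLoop (2 * n) f ∧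
                ((0 : ℕ) : ℝ) ^ 2 ≤ area (2 * n) f}.ncard ≤
                (Lps n).ncard := Set.ncard_le_ncard (fun f hf => hf.1) (Lps_fin hn)
            exact_mod_cast this
          rw [h0]
          have h2 : Real.exp (p * (((0 : ℕ) : ℝ) + 1) ^ 2) ≤
              Real.exp (C + 4 * p * n + K2 * L + 1) := by
            apply Real.exp_le_exp.2
            have h3 : p * 1 ≤ p * n := by
              apply mul_le_mul_of_nonneg_left _ hp
              exact_mod_cast (by omega : 1 ≤ n)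
            simp only [Nat.cast_zero, zero_add, one_pow]
            linarith
          calc par n (((0 : ℕ) : ℝ) ^ 2) * Real.exp (p * (((0 : ℕ) : ℝ) + 1) ^ 2) ≤
                1 * Real.exp (p * (((0 : ℕ) : ℝ) + 1) ^ 2) :=
                mul_le_mul_of_nonneg_right h1 (Real.exp_pos _).le
            _ ≤ _ := by rw [one_mul]; exact h2
        · obtain ⟨i, hi1, hin, hik, hki⟩ : ∃ i : ℕ, 1 ≤ i ∧ i < n ∧ i ≤ k ∧ k ≤ i + 1 := by
            rcases Nat.lt_or_ge k n with h3 | h3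
            · exact ⟨k, h0, h3, le_rfl, by omega⟩
            · exact ⟨n - 1, by omega, by omega, by omega, by omega⟩
          have h1 := par_le (n := n) (by omega) (r := (k : ℝ)) (Nat.cast_nonneg k)
          have h3 : pw n k ≤ pw n i := pw_anti (by omega) (by exact_mod_cast hik)
          have h4 := (hldp n hn i hi1 hin).2
          rw [← hL] at h4
          have h5 := hj i (Finset.mem_range.2 hin)
          have hki' : (k : ℝ) ≤ i + 1 := by exact_mod_cast hki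
          have hi' : (i : ℝ) + 1 ≤ n := by exact_mod_cast hin
          have hi0 : (0 : ℝ) ≤ i := Nat.cast_nonneg i
          have h6 : ((k : ℝ) + 1) ^ 2 ≤ (i : ℝ) ^ 2 + 4 * n := by
            have : ((k : ℝ) + 1) ^ 2 ≤ ((i : ℝ) + 2) ^ 2 :=
              pow_le_pow_left₀ (by positivity) (by linarith) 2
            nlinarith
          have h7 := mul_le_mul_of_nonneg_left h6 hp
          calc par n ((k : ℝ) ^ 2) * Real.exp (p * ((k : ℝ) + 1) ^ 2) ≤
                (Real.exp 1 * Real.exp (-(2 * (n * R ((i : ℝ) / n))) + K2 * L)) *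
                Real.exp (p * ((k : ℝ) + 1) ^ 2) := by
                apply mul_le_mul_of_nonneg_right _ (Real.exp_pos _).le
                refine h1.trans ?_
                exact mul_le_mul e2 (h3.trans h4)
                  (div_nonneg (Nat.cast_nonneg _) (Nat.cast_nonneg _)) (Real.exp_pos _).le
            _ ≤ _ := by
                rw [← Real.exp_add, ← Real.exp_add]
                apply Real.exp_le_exp.2
                linarith
      have h1 := (Za_le hn hp).trans (Finset.sum_le_sum hterm)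
      rw [Finset.sum_const, Finset.card_range, nsmul_eq_mul] at h1
      have h2 : ((n + 1 : ℕ) : ℝ) ≤ Real.exp (3 * L) := by
        have h6 : ((n : ℝ) + 1) ≤ Real.exp (2 * Real.log n) := by
          have : Real.exp (2 * Real.log n) = (n : ℝ) ^ 2 := by
            rw [mul_comm, Real.exp_mul, Real.exp_log hn0]
            norm_num
          rw [this]
          have hn2 : (2 : ℝ) ≤ n := by exact_mod_cast hn
          nlinarith
        push_cast
        refine h6.trans (Real.exp_le_exp.2 ?_)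
        rw [hL]
        nlinarith
      have h3 := h1.trans (mul_le_mul_of_nonneg_right h2 (Real.exp_pos _).le)
      rw [← Real.exp_add, ← Real.log_le_iff_le_exp hZ0] at h3
      linarith

/-! ### the exponents -/

def RvUp : Prop := ∀ η : ℝ, 0 < η → ∀ᶠ v in 𝓝[>] (0 : ℝ), v ^ (4 + η) ≤ R v

def RvLow : Prop := ∀ η : ℝ, 0 < η → ∀ᶠ v in 𝓝[>] (0 : ℝ), R v ≤ v ^ (4 - η)

def IUp (a : ℝ) : Prop := ∀ ε : ℝ, 0 < ε → ∀ᶠ n : ℕ in atTop,
  Real.log (Za n ((n : ℝ) ^ (-a))) ≤ (n : ℝ) ^ (3 - 2 * a + ε)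

def ILow (a : ℝ) : Prop := ∀ ε : ℝ, 0 < ε → ∀ᶠ n : ℕ in atTop,
  (n : ℝ) ^ (3 - 2 * a - ε) ≤ Real.log (Za n ((n : ℝ) ^ (-a)))

theorem fUp_rvUp (F : FUp (3 / 4)) : RvUp := by
  rw [fUp_iff] at F
  intro η hη
  obtain ⟨η', hη'⟩ : ∃ η', η' = min η 1 := ⟨_, rfl⟩
  have h0 : 0 < η' := by rw [hη']; exact lt_min hη one_pos
  have h1 : η' ≤ 1 := by rw [hη']; exact min_le_right _ _
  have h2 : η' ≤ η := by rw [hη']; exact min_le_left _ _
  obtain ⟨b, hb⟩ : ∃ b, b = 3 + η' / 2 := ⟨_, rfl⟩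
  have hb0 : 0 < b := by rw [hb]; positivity
  obtain ⟨t, ht⟩ : ∃ t, t = b * (1 / (3 / 4) - η' / 24) := ⟨_, rfl⟩
  have ht1 : b + 1 < t := by
    rw [ht, hb]
    nlinarith
  have e1 := (tendsto_pow0 hb0 one_pos).eventually (F (η' / 24) (by positivity))
  filter_upwards [e1, ev_rpow 2 ht1, ev_rpow 2 (show b + 1 < 4 + η by rw [hb]; linarith),
    Ioo_mem_nhdsGT (show (0 : ℝ) < 1 by norm_num)] with v a1 a2 a3 a4
  obtain ⟨v0, v1⟩ := a4
  rw [one_mul] at a1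
  have e2 : (v ^ b) ^ (1 / (3 / 4) - η' / 24) = v ^ t := by
    rw [← Real.rpow_mul v0.le, ← ht]
  rw [e2] at a1
  have y := young v0.le v1.le (v ^ b)
  have e3 : v ^ b * v = v ^ (b + 1) := by
    rw [Real.rpow_add_one v0.ne']
  rw [e3] at y
  linarith

theorem rvUp_iUp {a : ℝ} (ha : 1 < a) (ha2 : a < 3 / 2) (A : RvUp) : IUp a := by
  intro ε hε
  obtain ⟨K, hK, hen⟩ := infl_energy
  obtain ⟨v0, hv0, hR⟩ := mem_nhdsGT_iff_exists_Ioo_subset.1 (A ε hε)
  have hv0' : (0 : ℝ) < v0 := hv0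
  obtain ⟨u, hu⟩ : ∃ u, u = min (v0 / 2) 1 := ⟨_, rfl⟩
  have hu0 : 0 < u := by rw [hu]; exact lt_min (by linarith) one_pos
  have hu1 : u ≤ 1 := by rw [hu]; exact min_le_right _ _
  have huv : u < v0 := by
    have : u ≤ v0 / 2 := by rw [hu]; exact min_le_left _ _
    linarith
  have hRu : u ^ (4 + ε) ≤ R u := hR ⟨hu0, huv⟩
  obtain ⟨ρ, hρ⟩ : ∃ ρ, ρ = u ^ (4 + ε) := ⟨_, rfl⟩
  have hρ0 : 0 < ρ := by rw [hρ]; positivity
  rw [← hρ] at hRu
  filter_upwards [ev_pow (1 / (2 * ρ)) (show 2 - a < 1 by linarith),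
    ev_pow 3 (show 3 - 2 * a + ε / 2 < 3 - 2 * a + ε by linarith),
    ev_pow 4 (show 1 - a < 3 - 2 * a + ε / 2 by linarith),
    ev_log K 0 (show 0 < 3 - 2 * a + ε / 2 by linarith), eventually_ge_atTop 2] with
    n a1 a2 a3 a4 hn
  have hn0 : (0 : ℝ) < n := by exact_mod_cast (by omega : 0 < n)
  have hn1 : (1 : ℝ) ≤ n := by exact_mod_cast (by omega : 1 ≤ n)
  have hp : 0 ≤ (n : ℝ) ^ (-a) := by positivity
  obtain ⟨v, h0, h1, hv⟩ := (hen n hn _ hp).2
  have e1 : (n : ℝ) ^ (-a) * (n * v) ^ 2 = (n : ℝ) ^ (2 - a) * v ^ 2 := by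
    have : (n : ℝ) ^ (2 - a) = (n : ℝ) ^ (-a) * (n : ℝ) ^ (2 : ℝ) := by
      rw [← Real.rpow_add hn0]; congr 1; ring
    rw [this, Real.rpow_two]; ring
  have e2 : 4 * (n : ℝ) ^ (-a) * n = 4 * (n : ℝ) ^ (1 - a) := by
    have : (n : ℝ) ^ (1 - a) = (n : ℝ) ^ (-a) * n := by
      rw [← Real.rpow_add_one hn0.ne']; congr 1; ring
    rw [this]; ring
  rw [e1, e2] at hv
  have key : (n : ℝ) ^ (2 - a) * v ^ 2 - 2 * n * R v ≤ (n : ℝ) ^ (3 - 2 * a + ε / 2) := by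
    have hRv := R_nonneg h0 h1
    have hpos : 0 < (n : ℝ) ^ (3 - 2 * a + ε / 2) := by positivity
    have hpos2 : 0 < (n : ℝ) ^ (2 - a) := by positivity
    obtain ⟨w, hw⟩ : ∃ w, w = (n : ℝ) ^ (-(a - 1) / 2 + ε / 4) := ⟨_, rfl⟩
    have hw0 : 0 < w := by rw [hw]; positivity
    rcases le_total v w with h2 | h2
    · have h3 : v ^ 2 ≤ w ^ 2 := pow_le_pow_left₀ h0 h2 2
      have h4 := mul_le_mul_of_nonneg_left h3 hpos2.le
      have e3 : (n : ℝ) ^ (2 - a) * w ^ 2 = (n : ℝ) ^ (3 - 2 * a + ε / 2) := by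
        rw [hw, ← Real.rpow_natCast, ← Real.rpow_mul hn0.le, ← Real.rpow_add hn0]
        congr 1
        push_cast
        ring
      have h5 : 0 ≤ 2 * (n : ℝ) * R v := by positivity
      linarith
    · have hvpos : 0 < v := lt_of_lt_of_le hw0 h2
      rcases lt_or_ge v v0 with h3 | h3
      · have h4 : v ^ (4 + ε) ≤ R v := hR ⟨hvpos, h3⟩
        have h5 : w ^ (2 + ε) ≤ v ^ (2 + ε) :=
          Real.rpow_le_rpow hw0.le h2 (by linarith)
        have h6 : (n : ℝ) ^ (1 - a) ≤ w ^ (2 + ε) := by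
          rw [hw, ← Real.rpow_mul hn0.le]
          apply Real.rpow_le_rpow_of_exponent_le hn1
          nlinarith
        have e4 : v ^ (4 + ε) = v ^ 2 * v ^ (2 + ε) := by
          have : v ^ (4 + ε) = v ^ (2 : ℝ) * v ^ (2 + ε) := by
            rw [← Real.rpow_add hvpos]; congr 1; ring
          rw [this, Real.rpow_two]
        have h7 : v ^ 2 * (n : ℝ) ^ (1 - a) ≤ R v := by
          refine le_trans ?_ h4
          rw [e4]
          exact mul_le_mul_of_nonneg_left (h6.trans h5) (by positivity)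
        have h8 := mul_le_mul_of_nonneg_left h7 (show (0 : ℝ) ≤ 2 * n by positivity)
        have e5 : (n : ℝ) ^ (2 - a) = n * (n : ℝ) ^ (1 - a) := by
          rw [mul_comm, ← Real.rpow_add_one hn0.ne']; congr 1; ring
        rw [e5]
        have h9 : 0 ≤ n * (n : ℝ) ^ (1 - a) * v ^ 2 := by positivity
        have e6 : 2 * (n : ℝ) * (v ^ 2 * (n : ℝ) ^ (1 - a)) =
            2 * (n * (n : ℝ) ^ (1 - a) * v ^ 2) := by ring
        rw [e6] at h8
        linarith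
      · have h4 : R u ≤ R v := R_mono hu0.le (by linarith) h1
        have h5 : v ^ 2 ≤ 1 := pow_le_one₀ h0 h1
        have h6 := mul_le_mul_of_nonneg_left h5 hpos2.le
        rw [Real.rpow_one] at a1
        have h7 : (n : ℝ) ^ (2 - a) ≤ 2 * n * ρ := by
          have h8 := mul_le_mul_of_nonneg_left a1 (show (0 : ℝ) ≤ 2 * ρ by positivity)
          have e7 : 2 * ρ * (1 / (2 * ρ) * (n : ℝ) ^ (2 - a)) = (n : ℝ) ^ (2 - a) := by
            field_simp
          rw [e7] at h8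
          linarith
        have h9 := mul_le_mul_of_nonneg_left (hRu.trans h4) (show (0 : ℝ) ≤ 2 * n by positivity)
        linarith
  linarith

theorem iUp_rvUp {a : ℝ} (ha : 1 < a) (ha2 : a < 3 / 2) (A : IUp a) : RvUp := by
  intro η hη
  obtain ⟨K, hK, hen⟩ := infl_energy
  have ha1 : 0 < a - 1 := by linarith
  obtain ⟨s, hs⟩ : ∃ s, s = (2 + η / 2) / (a - 1) := ⟨_, rfl⟩
  have hs0 : 0 < s := by rw [hs]; positivity
  have hsa : s * (a - 1) = 2 + η / 2 := by rw [hs]; field_simp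
  obtain ⟨ε, hε⟩ : ∃ ε, ε = η * (a - 1) / (2 * (4 + η)) := ⟨_, rfl⟩
  have hε0 : 0 < ε := by rw [hε]; positivity
  have hsε : s * ε = η / 4 := by
    rw [hs, hε]
    field_simp
    ring
  have hεa : ε < a - 1 := by
    rw [hε, div_lt_iff₀ (by positivity)]
    nlinarith
  have hpos : 0 < 3 - 2 * a + ε := by linarith
  have hev : ∀ᶠ n : ℕ in atTop, 2 ≤ n ∧ ∀ v : ℝ, 0 ≤ v → v ≤ 1 →
      (n : ℝ) ^ (2 - a) * v ^ 2 / 4 - 2 * n * R v ≤ 3 * (n : ℝ) ^ (3 - 2 * a + ε) := by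
    filter_upwards [A ε hε0, ev_pow 1 (show 1 - a < 3 - 2 * a + ε by linarith),
      ev_log K 0 hpos, eventually_ge_atTop 2] with n a1 a2 a3 hn
    refine ⟨hn, fun v h0 h1 => ?_⟩
    have hn0 : (0 : ℝ) < n := by exact_mod_cast (by omega : 0 < n)
    have hp : 0 ≤ (n : ℝ) ^ (-a) := by positivity
    have h2 := (hen n hn _ hp).1 v h0 h1
    have e1 : (n : ℝ) ^ (-a) * (n * v) ^ 2 = (n : ℝ) ^ (2 - a) * v ^ 2 := by
      have : (n : ℝ) ^ (2 - a) = (n : ℝ) ^ (-a) * (n : ℝ) ^ (2 : ℝ) := by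
        rw [← Real.rpow_add hn0]; congr 1; ring
      rw [this, Real.rpow_two]; ring
    have e2 : (n : ℝ) ^ (-a) * n = (n : ℝ) ^ (1 - a) := by
      rw [← Real.rpow_add_one hn0.ne']; congr 1; ring
    rw [e1, e2] at h2
    linarith
  obtain ⟨N, hN⟩ := eventually_atTop.1 hev
  filter_upwards [ev_rpow (N : ℝ) (show -s < 0 by linarith),
    ev_rpow 24 (show (0 : ℝ) < η / 4 by positivity),
    ev_rpow 32 (show 4 + η / 2 < 4 + η by linarith),
    Ioo_mem_nhdsGT (show (0 : ℝ) < 1 by norm_num)] with v b1 b2 b3 b4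
  obtain ⟨v0, v1⟩ := b4
  rw [Real.rpow_zero, mul_one] at b1
  rw [Real.rpow_zero] at b2
  obtain ⟨n, hn⟩ : ∃ n : ℕ, n = ⌈v ^ (-s)⌉₊ := ⟨_, rfl⟩
  have hn1 : v ^ (-s) ≤ n := by rw [hn]; exact Nat.le_ceil _
  have hx1 : 1 ≤ v ^ (-s) := Real.one_le_rpow_of_pos_of_le_one_of_nonpos v0 v1.le (by linarith)
  have hn2 : (n : ℝ) ≤ 2 * v ^ (-s) := by
    have : (n : ℝ) < v ^ (-s) + 1 := by
      rw [hn]; exact Nat.ceil_lt_add_one (by linarith)
    linarith
  have hNn : N ≤ n := by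
    have : (N : ℝ) ≤ n := b1.trans hn1
    exact_mod_cast this
  obtain ⟨hn3, hval⟩ := hN n hNn
  have h1 := hval v v0.le v1.le
  have hn0 : (0 : ℝ) < n := by exact_mod_cast (by omega : 0 < n)
  -- the first term dominates
  have h2 : 24 * (n : ℝ) ^ (3 - 2 * a + ε) ≤ (n : ℝ) ^ (2 - a) * v ^ 2 := by
    have e1 : (n : ℝ) ^ (2 - a) = (n : ℝ) ^ (3 - 2 * a + ε) * (n : ℝ) ^ (a - 1 - ε) := by
      rw [← Real.rpow_add hn0]; congr 1; ring
    have h3 : (v ^ (-s)) ^ (a - 1 - ε) ≤ (n : ℝ) ^ (a - 1 - ε) :=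
      Real.rpow_le_rpow (by linarith) hn1 (by linarith)
    have e2 : (v ^ (-s)) ^ (a - 1 - ε) * v ^ 2 * v ^ (η / 4) = 1 := by
      rw [← Real.rpow_mul v0.le, ← Real.rpow_two, ← Real.rpow_add v0, ← Real.rpow_add v0]
      have : -s * (a - 1 - ε) + 2 + η / 4 = 0 := by linarith
      rw [this, Real.rpow_zero]
    have h4 : 24 ≤ (n : ℝ) ^ (a - 1 - ε) * v ^ 2 := by
      have h5 : (v ^ (-s)) ^ (a - 1 - ε) * v ^ 2 ≤ (n : ℝ) ^ (a - 1 - ε) * v ^ 2 :=
        mul_le_mul_of_nonneg_right h3 (by positivity)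
      have h6 : 24 ≤ (v ^ (-s)) ^ (a - 1 - ε) * v ^ 2 := by
        have h7 : 0 < v ^ (η / 4) := by positivity
        have h8 : 24 * v ^ (η / 4) ≤ (v ^ (-s)) ^ (a - 1 - ε) * v ^ 2 * v ^ (η / 4) := by
          rw [e2]; exact b2
        exact le_of_mul_le_mul_right h8 h7
      linarith
    rw [e1, mul_assoc]
    have h9 : 0 < (n : ℝ) ^ (3 - 2 * a + ε) := by positivity
    have := mul_le_mul_of_nonneg_left h4 h9.le
    linarith
  have h3 : (n : ℝ) ^ (2 - a) * v ^ 2 / 8 ≤ 2 * n * R v := by linarith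
  have e3 : (n : ℝ) ^ (2 - a) = n * (n : ℝ) ^ (1 - a) := by
    rw [mul_comm, ← Real.rpow_add_one hn0.ne']; congr 1; ring
  have h4 : (n : ℝ) ^ (1 - a) * v ^ 2 / 16 ≤ R v := by
    rw [e3] at h3
    have h5 : n * ((n : ℝ) ^ (1 - a) * v ^ 2 / 16) ≤ n * R v := by linarith
    exact le_of_mul_le_mul_left h5 hn0
  have h5 : v ^ (2 + η / 2) / 2 ≤ (n : ℝ) ^ (1 - a) := by
    have h6 : (2 * v ^ (-s)) ^ (1 - a) ≤ (n : ℝ) ^ (1 - a) :=
      Real.rpow_le_rpow_of_nonpos hn0 hn2 (by linarith)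
    refine le_trans ?_ h6
    rw [Real.mul_rpow (by norm_num) (by linarith), ← Real.rpow_mul v0.le]
    have e4 : -s * (1 - a) = 2 + η / 2 := by linarith
    rw [e4]
    have h7 : (1 / 2 : ℝ) ≤ 2 ^ (1 - a) := by
      have : (2 : ℝ) ^ (-1 : ℝ) ≤ 2 ^ (1 - a) :=
        Real.rpow_le_rpow_of_exponent_le (by norm_num) (by linarith)
      rw [Real.rpow_neg_one] at this
      linarith
    have h8 : 0 < v ^ (2 + η / 2) := by positivity
    have := mul_le_mul_of_nonneg_right h7 h8.le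
    linarith
  have e5 : v ^ (4 + η / 2) = v ^ (2 + η / 2) * v ^ 2 := by
    rw [← Real.rpow_two, ← Real.rpow_add v0]; congr 1; ring
  have h6 : v ^ (2 + η / 2) / 2 * v ^ 2 ≤ (n : ℝ) ^ (1 - a) * v ^ 2 :=
    mul_le_mul_of_nonneg_right h5 (by positivity)
  have e6 : v ^ (2 + η / 2) / 2 * v ^ 2 = v ^ (4 + η / 2) / 2 := by rw [e5]; ring
  rw [e6] at h6
  linarith

theorem rvUp_rUp (A : RvUp) : RUp (3 / 4) := by
  intro ε hε
  obtain ⟨ε', hε'⟩ : ∃ ε', ε' = min ε (1 / 8) := ⟨_, rfl⟩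
  have h0 : 0 < ε' := by rw [hε']; exact lt_min hε (by norm_num)
  have h1 : ε' ≤ 1 / 8 := by rw [hε']; exact min_le_right _ _
  have h2 : ε' ≤ ε := by rw [hε']; exact min_le_left _ _
  refine ⟨ε', h0, ?_⟩
  have hs : 0 < 1 / 4 - ε' := by linarith
  have e1 := (tendsto_pow0 hs one_pos).eventually (A ε' h0)
  filter_upwards [Pool.Agent.Y981.L2.ev_inv e1, eventually_ge_atTop 2] with m hm hm2
  intro k hk hkm
  have hm0 : (0 : ℝ) < m := by exact_mod_cast (by omega : 0 < m)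
  have hm1 : (1 : ℝ) ≤ m := by exact_mod_cast (by omega : 1 ≤ m)
  obtain ⟨v, hv⟩ : ∃ v, v = (1 * (1 / (m : ℝ))) ^ (1 / 4 - ε') := ⟨_, rfl⟩
  rw [← hv] at hm
  have hv2 : v = (m : ℝ) ^ (-(1 / 4 - ε')) := by
    rw [hv, one_mul, one_div, Real.inv_rpow hm0.le, Real.rpow_neg hm0.le]
  have hv0 : 0 < v := by rw [hv2]; positivity
  have hvk : v ≤ (k : ℝ) / m := by
    rw [le_div_iff₀ hm0, hv2, ← Real.rpow_add_one hm0.ne']
    refine le_trans ?_ hk
    apply Real.rpow_le_rpow_of_exponent_le hm1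
    linarith
  have hk1 : (k : ℝ) / m ≤ 1 := by
    rw [div_le_one hm0]; exact_mod_cast hkm.le
  have h3 := R_mono hv0.le hvk hk1
  have h4 : (m : ℝ) ^ (-1 + ε') ≤ v ^ (4 + ε') := by
    rw [hv2, ← Real.rpow_mul hm0.le]
    apply Real.rpow_le_rpow_of_exponent_le hm1
    nlinarith
  have h5 := mul_le_mul_of_nonneg_left (h4.trans (hm.trans h3)) hm0.le
  refine le_trans (le_of_eq ?_) h5
  rw [mul_comm, ← Real.rpow_add_one hm0.ne']
  congr 1
  ring

theorem rLow_rvLow (B : RLow (3 / 4)) : RvLow := by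
  intro η hη
  obtain ⟨η', hη'⟩ : ∃ η', η' = min η 1 := ⟨_, rfl⟩
  have h0 : 0 < η' := by rw [hη']; exact lt_min hη one_pos
  have h1 : η' ≤ 1 := by rw [hη']; exact min_le_right _ _
  have h2 : η' ≤ η := by rw [hη']; exact min_le_left _ _
  obtain ⟨s, hs⟩ : ∃ s, s = 4 - η' / 2 := ⟨_, rfl⟩
  have hs0 : 0 < s := by rw [hs]; linarith
  obtain ⟨N, hN⟩ := eventually_atTop.1 (B (η' / 64) (by positivity) (η' / 16) (by positivity))
  filter_upwards [ev_rpow (max N 1 : ℝ) (show -s < 0 by linarith),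
    ev_rpow 2 (show 1 - η' / 16 < 1 by linarith),
    Ioo_mem_nhdsGT (show (0 : ℝ) < 1 by norm_num)] with v b1 b2 b4
  obtain ⟨v0, v1⟩ := b4
  rw [Real.rpow_zero, mul_one] at b1
  rw [Real.rpow_one] at b2
  obtain ⟨n, hn⟩ : ∃ n : ℕ, n = ⌈v ^ (-s)⌉₊ := ⟨_, rfl⟩
  have hn1 : v ^ (-s) ≤ n := by rw [hn]; exact Nat.le_ceil _
  have hx1 : 1 ≤ v ^ (-s) := Real.one_le_rpow_of_pos_of_le_one_of_nonpos v0 v1.le (by linarith)
  have hn2 : (n : ℝ) ≤ 2 * v ^ (-s) := by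
    have : (n : ℝ) < v ^ (-s) + 1 := by
      rw [hn]; exact Nat.ceil_lt_add_one (by linarith)
    linarith
  have hNn : N ≤ n := by
    have : (N : ℝ) ≤ n := (le_max_left _ _).trans (b1.trans hn1)
    exact_mod_cast this
  obtain ⟨k, hk1, hk2, hk3⟩ := hN n hNn
  have hn0 : (0 : ℝ) < n := by linarith
  have hkn : (k : ℝ) / n ≤ 1 := by
    rw [div_le_one hn0]; exact_mod_cast hk2.le
  have hvk : v ≤ (k : ℝ) / n := by
    have h3 : (n : ℝ) ^ (3 / 4 - η' / 64) / n ≤ (k : ℝ) / n :=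
      div_le_div_of_nonneg_right hk1 hn0.le
    refine le_trans ?_ h3
    have e1 : (n : ℝ) ^ (3 / 4 - η' / 64) / n = (n : ℝ) ^ (-(1 / 4 + η' / 64)) := by
      rw [div_eq_iff hn0.ne', ← Real.rpow_add_one hn0.ne']; congr 1; ring
    rw [e1]
    have h4 : (2 * v ^ (-s)) ^ (-(1 / 4 + η' / 64)) ≤ (n : ℝ) ^ (-(1 / 4 + η' / 64)) :=
      Real.rpow_le_rpow_of_nonpos hn0 hn2 (by linarith)
    refine le_trans ?_ h4
    rw [Real.mul_rpow (by norm_num) (by linarith), ← Real.rpow_mul v0.le]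
    have h7 : (1 / 2 : ℝ) ≤ 2 ^ (-(1 / 4 + η' / 64)) := by
      have : (2 : ℝ) ^ (-1 : ℝ) ≤ 2 ^ (-(1 / 4 + η' / 64)) :=
        Real.rpow_le_rpow_of_exponent_le (by norm_num) (by linarith)
      rw [Real.rpow_neg_one] at this
      linarith
    have h8 : v ^ (1 - η' / 16) ≤ v ^ (-s * -(1 / 4 + η' / 64)) := by
      apply Real.rpow_le_rpow_of_exponent_ge v0 v1.le
      rw [hs]
      nlinarith
    have h9 : 0 < v ^ (-s * -(1 / 4 + η' / 64)) := by positivity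
    have h10 := mul_le_mul_of_nonneg_right h7 h9.le
    linarith
  have h3 := R_mono v0.le hvk hkn
  have h4 : R ((k : ℝ) / n) ≤ (n : ℝ) ^ (η' / 16 - 1) := by
    have e1 : (n : ℝ) ^ (η' / 16 - 1) = (n : ℝ) ^ (η' / 16) / n := by
      rw [Real.rpow_sub_one hn0.ne']
    rw [e1, le_div_iff₀ hn0]
    linarith
  have h5 : (n : ℝ) ^ (η' / 16 - 1) ≤ (v ^ (-s)) ^ (η' / 16 - 1) :=
    Real.rpow_le_rpow_of_nonpos (by linarith) hn1 (by linarith)
  have h6 : (v ^ (-s)) ^ (η' / 16 - 1) ≤ v ^ (4 - η) := by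
    rw [← Real.rpow_mul v0.le]
    apply Real.rpow_le_rpow_of_exponent_ge v0 v1.le
    rw [hs]
    nlinarith
  linarith

theorem rvLow_iLow {a : ℝ} (ha : 1 < a) (ha2 : a < 3 / 2) (B : RvLow) : ILow a := by
  intro ε₀ hε₀
  obtain ⟨K, hK, hen⟩ := infl_energy
  obtain ⟨ε, hε⟩ : ∃ ε, ε = min ε₀ (3 - 2 * a) := ⟨_, rfl⟩
  have h0 : 0 < ε := by rw [hε]; exact lt_min hε₀ (by linarith)
  have h1 : ε ≤ 3 - 2 * a := by rw [hε]; exact min_le_right _ _
  have h2 : ε ≤ ε₀ := by rw [hε]; exact min_le_left _ _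
  obtain ⟨s, hs⟩ : ∃ s, s = (a - 1) / 2 + ε / 4 := ⟨_, rfl⟩
  have hs0 : 0 < s := by rw [hs]; linarith
  have e1 := (tendsto_pow0 hs0 one_pos).eventually (B (ε / 2) (by positivity))
  filter_upwards [Pool.Agent.Y981.L2.ev_inv e1,
    ev_pow 16 (show 3 - 2 * a - ε < 3 - 2 * a - ε / 2 by linarith),
    ev_pow 32 (show 3 - 2 * a - 3 * ε / 4 < 3 - 2 * a - ε / 2 by linarith),
    ev_pow 16 (show 1 - a < 3 - 2 * a - ε / 2 by linarith),
    ev_log (16 * K) 0 (show 0 < 3 - 2 * a - ε / 2 by linarith), eventually_ge_atTop 2] with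
    n a1 a2 a3 a4 a5 hn
  have hn0 : (0 : ℝ) < n := by exact_mod_cast (by omega : 0 < n)
  have hn1 : (1 : ℝ) ≤ n := by exact_mod_cast (by omega : 1 ≤ n)
  obtain ⟨v, hv⟩ : ∃ v, v = (1 * (1 / (n : ℝ))) ^ s := ⟨_, rfl⟩
  rw [← hv] at a1
  have hv2 : v = (n : ℝ) ^ (-s) := by
    rw [hv, one_mul, one_div, Real.inv_rpow hn0.le, Real.rpow_neg hn0.le]
  have hv0 : 0 < v := by rw [hv2]; positivity
  have hv1 : v ≤ 1 := by
    rw [hv2]
    exact Real.rpow_le_one_of_one_le_of_nonpos hn1 (by linarith)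
  have hp : 0 ≤ (n : ℝ) ^ (-a) := by positivity
  have h3 := (hen n hn _ hp).1 v hv0.le hv1
  have e3 : (n : ℝ) ^ (-a) * (n * v) ^ 2 = (n : ℝ) ^ (3 - 2 * a - ε / 2) := by
    have e4 : (n : ℝ) ^ (-a) * (n * v) ^ 2 = (n : ℝ) ^ (-a) * (n : ℝ) ^ (2 : ℝ) * v ^ (2 : ℝ) := by
      rw [Real.rpow_two, Real.rpow_two]; ring
    rw [e4, hv2, ← Real.rpow_mul hn0.le, ← Real.rpow_add hn0, ← Real.rpow_add hn0]
    congr 1
    rw [hs]; ring
  have e5 : (n : ℝ) ^ (-a) * n = (n : ℝ) ^ (1 - a) := by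
    rw [← Real.rpow_add_one hn0.ne']; congr 1; ring
  rw [e3, e5] at h3
  have h4 : n * R v ≤ (n : ℝ) ^ (3 - 2 * a - 3 * ε / 4) := by
    have h5 := mul_le_mul_of_nonneg_left a1 hn0.le
    refine h5.trans ?_
    rw [hv2, ← Real.rpow_mul hn0.le, mul_comm, ← Real.rpow_add_one hn0.ne']
    apply Real.rpow_le_rpow_of_exponent_le hn1
    rw [hs]
    nlinarith
  have h5 : (n : ℝ) ^ (3 - 2 * a - ε₀) ≤ (n : ℝ) ^ (3 - 2 * a - ε) :=
    Real.rpow_le_rpow_of_exponent_le hn1 (by linarith)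
  linarith

theorem areaUp_iff {a : ℝ} (ha : 1 < a) (ha2 : a < 3 / 2) : AreaUp (3 / 4) ↔ IUp a := by
  constructor
  · intro h
    have h1 := Pool.Agent.Y981.L2.areaUp_rUp (by norm_num) h
    have h2 := Pool.Agent.Y981.L2.rUp_massLow (by norm_num) (by norm_num) h1
    exact rvUp_iUp ha ha2 (fUp_rvUp (massLow_fUp (by norm_num) h2))
  · intro h
    have h1 := rvUp_rUp (iUp_rvUp ha ha2 h)
    exact Pool.Agent.Y981.L2.polyUp_areaUp (Pool.Agent.Y981.L2.rUp_polyUp (by norm_num) h1)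

theorem areaLow_iLow {a : ℝ} (ha : 1 < a) (ha2 : a < 3 / 2) (h : AreaLow (3 / 4)) : ILow a := by
  have h1 := Pool.Agent.Y981.L2.areaLow_polyLow h
  have h2 := Pool.Agent.Y981.L2.polyLow_rLow (by norm_num) h1
  exact rvLow_iLow ha ha2 (rLow_rvLow h2)

/-! ### the mean area under a pressure -/

/-- the mean area of the inflated polygons -/
noncomputable def Aa (n : ℕ) (p : ℝ) : ℝ :=
  (∑ᶠ g ∈ Lps n, (area (2 * n) g : ℝ) * Real.exp (p * area (2 * n) g)) /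
    ∑ᶠ g ∈ Lps n, Real.exp (p * area (2 * n) g)

theorem Aa_jensen {n : ℕ} (hn : 2 ≤ n) (p g : ℝ) :
    g * Aa n p ≤ Real.log (Za n (p + g)) - Real.log (Za n p) := by
  have h1 := jensen_gen (Lps_fin hn).toFinset (Lps_ne hn) (fun w => (area (2 * n) w : ℝ)) p g
  have e : Aa n p = (∑ g ∈ (Lps_fin hn).toFinset, (area (2 * n) g : ℝ) *
      Real.exp (p * area (2 * n) g)) /
      ∑ g ∈ (Lps_fin hn).toFinset, Real.exp (p * area (2 * n) g) := by
    unfold Aa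
    rw [finsum_mem_eq_finite_toFinset_sum _ (Lps_fin hn),
      finsum_mem_eq_finite_toFinset_sum _ (Lps_fin hn)]
  rw [e, Za_eq hn, Za_eq hn]
  have hp := Lps_pos hn
  have s1 : 0 < ∑ w ∈ (Lps_fin hn).toFinset, Real.exp ((p + g) * (area (2 * n) w : ℝ)) :=
    Finset.sum_pos (fun _ _ => Real.exp_pos _) (Lps_ne hn)
  have s2 : 0 < ∑ w ∈ (Lps_fin hn).toFinset, Real.exp (p * (area (2 * n) w : ℝ)) :=
    Finset.sum_pos (fun _ _ => Real.exp_pos _) (Lps_ne hn)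
  rw [Real.log_div s1.ne' hp.ne', Real.log_div s2.ne' hp.ne']
  linarith

theorem Aa_between {n : ℕ} (hn : 2 ≤ n) {p : ℝ} (hp : 0 ≤ p) :
    Real.log (Za n p) ≤ p * Aa n p ∧ p * Aa n p ≤ Real.log (Za n (2 * p)) := by
  have h0 : Za n 0 = 1 := by
    rw [Za_eq hn]
    simp only [zero_mul, Real.exp_zero, Finset.sum_const, nsmul_eq_mul, mul_one]
    rw [Lps_card hn, div_self (Lps_pos hn).ne']
  have j1 := Aa_jensen hn p (-p)
  have j2 := Aa_jensen hn p p
  have e1 : p + -p = 0 := by ring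
  have e2 : p + p = 2 * p := by ring
  rw [e1, h0, Real.log_one] at j1
  rw [e2] at j2
  have h1 := Real.log_nonneg (one_le_Za hn hp)
  constructor <;> linarith

theorem Za_mono {n : ℕ} (hn : 2 ≤ n) {p q : ℝ} (hpq : p ≤ q) : Za n p ≤ Za n q := by
  rw [Za_eq hn, Za_eq hn]
  apply div_le_div_of_nonneg_right _ (Lps_pos hn).le
  apply Finset.sum_le_sum
  intro g _
  apply Real.exp_le_exp.2
  exact mul_le_mul_of_nonneg_right hpq (Nat.cast_nonneg _)

theorem area_infl_low {a : ℝ} (ha : 1 < a) (ha2 : a < 3 / 2) (h : AreaLow (3 / 4)) :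
    ∀ ε : ℝ, 0 < ε → ∀ᶠ n : ℕ in atTop, (n : ℝ) ^ (3 - a - ε) ≤ Aa n ((n : ℝ) ^ (-a)) := by
  intro ε hε
  filter_upwards [areaLow_iLow ha ha2 h ε hε, eventually_ge_atTop 2] with n a1 hn
  have hn0 : (0 : ℝ) < n := by exact_mod_cast (by omega : 0 < n)
  have hp : 0 < (n : ℝ) ^ (-a) := by positivity
  have h1 := a1.trans (Aa_between hn hp.le).1
  have e1 : (n : ℝ) ^ (3 - 2 * a - ε) = (n : ℝ) ^ (-a) * (n : ℝ) ^ (3 - a - ε) := by
    rw [← Real.rpow_add hn0]; congr 1; ring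
  rw [e1] at h1
  exact le_of_mul_le_mul_left h1 hp

theorem area_infl_up {a : ℝ} (ha : 1 < a) (ha2 : a < 3 / 2) (h : AreaUp (3 / 4)) :
    ∀ ε : ℝ, 0 < ε → ∀ᶠ n : ℕ in atTop, Aa n ((n : ℝ) ^ (-a)) ≤ (n : ℝ) ^ (3 - a + ε) := by
  intro ε hε
  obtain ⟨δ, hδ⟩ : ∃ δ, δ = min (ε / 4) ((a - 1) / 2) := ⟨_, rfl⟩
  have h0 : 0 < δ := by rw [hδ]; exact lt_min (by linarith) (by linarith)
  have h1 : δ ≤ ε / 4 := by rw [hδ]; exact min_le_left _ _
  have h2 : δ ≤ (a - 1) / 2 := by rw [hδ]; exact min_le_right _ _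
  have hI := (areaUp_iff (a := a - δ) (by linarith) (by linarith)).1 h
  filter_upwards [hI (ε / 4) (by linarith), ev_pow 2 (show -a < -(a - δ) by linarith),
    eventually_ge_atTop 2] with n a1 a2 hn
  have hn0 : (0 : ℝ) < n := by exact_mod_cast (by omega : 0 < n)
  have hn1 : (1 : ℝ) ≤ n := by exact_mod_cast (by omega : 1 ≤ n)
  have hp : 0 < (n : ℝ) ^ (-a) := by positivity
  have h3 := (Aa_between hn hp.le).2
  have h4 := Real.log_le_log (Za_pos hn _) (Za_mono hn a2)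
  have h5 := h3.trans (h4.trans a1)
  have e1 : (n : ℝ) ^ (3 - 2 * a + ε) = (n : ℝ) ^ (-a) * (n : ℝ) ^ (3 - a + ε) := by
    rw [← Real.rpow_add hn0]; congr 1; ring
  have h6 : (n : ℝ) ^ (3 - 2 * (a - δ) + ε / 4) ≤ (n : ℝ) ^ (3 - 2 * a + ε) :=
    Real.rpow_le_rpow_of_exponent_le hn1 (by linarith)
  rw [e1] at h6
  exact le_of_mul_le_mul_left (h5.trans h6) hp

end Pool.Agent.V11252.SAW
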