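import Pool.Agent.V11252.SAW.Pull
import Pool.Agent.Y981.L2.PolyE

/-!
Self-avoiding polygons pulled by a force.
-/

set_option autoImplicit false

namespace Pool.Agent.V11252.SAW

open Pool.Agent.TH795.EP Pool.Agent.TH795.EP2 Pool.Agent.TH262.SawL H981 Finset Filter Topology
open Pool.Agent.Y981.L2 (Z Z_pos Lam psi psi_mono psi_nonneg psi_zero Rate R R_le_rate Dia
  MassLow MassUp young R_mono R_nonneg pw pw_anti pw_nat pw_ldp width width_le le_width
  loops_finite wn wide_le width_law PolyUp PolyLow RUp RLow)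
open Pool.Agent.Y981.L2X (Lam_le_of)

/-! ### exponential families on a finite set -/

theorem jensen_gen {ι : Type*} (s : Finset ι) (hs : s.Nonempty) (X : ι → ℝ) (f g : ℝ) :
    g * ((∑ w ∈ s, X w * Real.exp (f * X w)) / ∑ w ∈ s, Real.exp (f * X w)) ≤
      Real.log (∑ w ∈ s, Real.exp ((f + g) * X w)) - Real.log (∑ w ∈ s, Real.exp (f * X w)) := by
  obtain ⟨Zf, hZf⟩ : ∃ Zf, Zf = ∑ w ∈ s, Real.exp (f * X w) := ⟨_, rfl⟩
  have hZ : 0 < Zf := by rw [hZf]; exact Finset.sum_pos (fun _ _ => Real.exp_pos _) hs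
  have hZ2 : 0 < ∑ w ∈ s, Real.exp ((f + g) * X w) :=
    Finset.sum_pos (fun _ _ => Real.exp_pos _) hs
  rw [← hZf]
  have hw1 : ∑ w ∈ s, Real.exp (f * X w) / Zf = 1 := by
    rw [← Finset.sum_div, ← hZf, div_self hZ.ne']
  have h1 := convexOn_exp.map_sum_le (t := s)
    (w := fun w => Real.exp (f * X w) / Zf) (p := fun w => g * X w)
    (fun _ _ => by positivity) hw1 (fun _ _ => Set.mem_univ _)
  simp only [smul_eq_mul] at h1
  have e1 : ∑ w ∈ s, Real.exp (f * X w) / Zf * (g * X w) =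
      g * ((∑ w ∈ s, X w * Real.exp (f * X w)) / Zf) := by
    rw [Finset.sum_div, Finset.mul_sum]
    apply Finset.sum_congr rfl
    intro w _
    ring
  have e2 : ∑ w ∈ s, Real.exp (f * X w) / Zf * Real.exp (g * X w) =
      (∑ w ∈ s, Real.exp ((f + g) * X w)) / Zf := by
    rw [Finset.sum_div]
    apply Finset.sum_congr rfl
    intro w _
    rw [div_mul_eq_mul_div, ← Real.exp_add]
    congr 2
    ring
  rw [e1, e2] at h1
  rw [← Real.log_div hZ2.ne' hZ.ne', Real.le_log_iff_exp_le (div_pos hZ2 hZ)]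
  exact h1

/-! ### loops -/

/-- the loops of length `2 n` -/
noncomputable def Lps (n : ℕ) : Set (ZMod (2 * n) → ℤ × ℤ) := {f | IsLoop (2 * n) f}

/-- the partition function of the pulled polygons, normalised -/
noncomputable def Zp (n : ℕ) (f : ℝ) : ℝ :=
  (∑ᶠ g ∈ Lps n, Real.exp (f * width (2 * n) g)) / ((Lps n).ncard : ℝ)

/-- the mean width of the pulled polygons -/
noncomputable def Wp (n : ℕ) (f : ℝ) : ℝ :=
  (∑ᶠ g ∈ Lps n, (width (2 * n) g : ℝ) * Real.exp (f * width (2 * n) g)) /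
    ∑ᶠ g ∈ Lps n, Real.exp (f * width (2 * n) g)

theorem Lps_pos {n : ℕ} (hn : 2 ≤ n) : (0 : ℝ) < ((Lps n).ncard : ℝ) := by
  obtain ⟨K, -, h⟩ := width_law
  exact (h n hn 1 le_rfl (by omega)).1

theorem Lps_fin {n : ℕ} (hn : 2 ≤ n) : (Lps n).Finite := loops_finite (by omega)

theorem Lps_ne {n : ℕ} (hn : 2 ≤ n) : (Lps_fin hn).toFinset.Nonempty := by
  rw [Set.Finite.toFinset_nonempty]
  by_contra hcon
  rw [Set.not_nonempty_iff_eq_empty] at hcon
  have h := Lps_pos hn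
  rw [hcon] at h
  simp at h

theorem Lps_card {n : ℕ} (hn : 2 ≤ n) : ((Lps_fin hn).toFinset.card : ℝ) = ((Lps n).ncard : ℝ) := by
  rw [Set.ncard_eq_toFinset_card _ (Lps_fin hn)]

theorem Zp_eq {n : ℕ} (hn : 2 ≤ n) (f : ℝ) : Zp n f =
    (∑ g ∈ (Lps_fin hn).toFinset, Real.exp (f * width (2 * n) g)) / ((Lps n).ncard : ℝ) := by
  unfold Zp
  rw [finsum_mem_eq_finite_toFinset_sum _ (Lps_fin hn)]

theorem Wp_eq {n : ℕ} (hn : 2 ≤ n) (f : ℝ) : Wp n f =
    (∑ g ∈ (Lps_fin hn).toFinset, (width (2 * n) g : ℝ) * Real.exp (f * width (2 * n) g)) /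
    ∑ g ∈ (Lps_fin hn).toFinset, Real.exp (f * width (2 * n) g) := by
  unfold Wp
  rw [finsum_mem_eq_finite_toFinset_sum _ (Lps_fin hn),
    finsum_mem_eq_finite_toFinset_sum _ (Lps_fin hn)]

theorem Zp_pos {n : ℕ} (hn : 2 ≤ n) (f : ℝ) : 0 < Zp n f := by
  rw [Zp_eq hn]
  exact div_pos (Finset.sum_pos (fun _ _ => Real.exp_pos _) (Lps_ne hn)) (Lps_pos hn)

theorem Zp_zero {n : ℕ} (hn : 2 ≤ n) : Zp n 0 = 1 := by
  rw [Zp_eq hn]
  simp only [zero_mul, Real.exp_zero, Finset.sum_const, nsmul_eq_mul, mul_one]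
  rw [Lps_card hn, div_self (Lps_pos hn).ne']

theorem one_le_Zp {n : ℕ} (hn : 2 ≤ n) {f : ℝ} (hf : 0 ≤ f) : 1 ≤ Zp n f := by
  rw [← Zp_zero hn, Zp_eq hn, Zp_eq hn]
  apply div_le_div_of_nonneg_right _ (Lps_pos hn).le
  apply Finset.sum_le_sum
  intro g _
  apply Real.exp_le_exp.2
  rw [zero_mul]
  positivity

/-- no loop of length `2 n` is wider than `n` -/
theorem width_le_n {n : ℕ} (hn : 2 ≤ n) {g : ZMod (2 * n) → ℤ × ℤ} (hg : IsLoop (2 * n) g) :
    width (2 * n) g ≤ n := by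
  by_contra hcon
  push Not at hcon
  obtain ⟨K, -, h⟩ := wide_le
  have h1 := h n hn ((n : ℤ) + 1) (by omega)
  have h2 : a (2 * n) (2 * ((n : ℤ) + 1)) 0 = 0 := by
    apply Pool.Agent.Y981.L2X.a_zero_lt2
    rw [abs_zero, abs_of_nonneg (by omega : (0 : ℤ) ≤ 2 * ((n : ℤ) + 1))]
    push_cast
    omega
  rw [h2, Nat.cast_zero, mul_zero] at h1
  have h3 : wn n ((n : ℤ) + 1) = 0 := by
    have h4 : (0 : ℝ) ≤ wn n ((n : ℤ) + 1) := Nat.cast_nonneg _
    exact_mod_cast le_antisymm h1 h4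
  unfold wn at h3
  rw [Set.ncard_eq_zero ((Lps_fin hn).subset (fun f hf => hf.1))] at h3
  have h5 : g ∈ {f : ZMod (2 * n) → ℤ × ℤ | IsLoop (2 * n) f ∧
      Pool.Agent.Y981.L2.Wd ((n : ℤ) + 1) f} := by
    refine ⟨hg, ?_⟩
    have := (le_width (k := n + 1) (by omega) hg (by omega)).1 hcon
    push_cast at this
    exact this
  rw [h3] at h5
  exact h5

/-- one width -/
theorem le_Zp {n : ℕ} (hn : 2 ≤ n) {f : ℝ} (hf : 0 ≤ f) (k : ℕ) :
    pw n k * Real.exp (f * k) ≤ Zp n f := by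
  classical
  rw [Zp_eq hn]
  unfold Pool.Agent.Y981.L2.pw
  rw [div_mul_eq_mul_div]
  apply div_le_div_of_nonneg_right _ (Lps_pos hn).le
  have e1 : (({f : ZMod (2 * n) → ℤ × ℤ | IsLoop (2 * n) f ∧ (k : ℝ) ≤ width (2 * n) f}.ncard : ℕ) : ℝ) =
      (((Lps_fin hn).toFinset.filter (fun g => (k : ℝ) ≤ (width (2 * n) g : ℝ))).card : ℝ) := by
    rw [← Set.ncard_coe_finset]
    congr 2
    ext f
    simp [Lps]
  rw [e1, ← nsmul_eq_mul, ← Finset.sum_const]
  refine le_trans ?_ (Finset.sum_le_sum_of_subset_of_nonneg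
    (Finset.filter_subset (fun g => (k : ℝ) ≤ (width (2 * n) g : ℝ)) _)
    (fun _ _ _ => (Real.exp_pos _).le))
  apply Finset.sum_le_sum
  intro g hg
  rw [Finset.mem_filter] at hg
  apply Real.exp_le_exp.2
  exact mul_le_mul_of_nonneg_left hg.2 hf

/-- all widths -/
theorem Zp_le {n : ℕ} (hn : 2 ≤ n) (f : ℝ) :
    Zp n f ≤ ∑ k ∈ Finset.range (n + 1), pw n k * Real.exp (f * k) := by
  classical
  rw [Zp_eq hn, div_le_iff₀ (Lps_pos hn), Finset.sum_mul]
  have h1 : ∀ g ∈ (Lps_fin hn).toFinset, Real.exp (f * width (2 * n) g) ≤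
      ∑ k ∈ Finset.range (n + 1), (if (k : ℝ) ≤ width (2 * n) g then Real.exp (f * k) else 0) := by
    intro g hg
    rw [Set.Finite.mem_toFinset] at hg
    have h2 := width_le_n hn hg
    have h3 := Finset.single_le_sum (f := fun k : ℕ =>
      (if (k : ℝ) ≤ width (2 * n) g then Real.exp (f * k) else 0))
      (fun k _ => by split_ifs <;> positivity)
      (Finset.mem_range.2 (by omega : width (2 * n) g < n + 1))
    simp only [le_refl, if_true] at h3
    exact h3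
  refine (Finset.sum_le_sum h1).trans ?_
  rw [Finset.sum_comm]
  apply Finset.sum_le_sum
  intro k _
  rw [← Finset.sum_filter, Finset.sum_const, nsmul_eq_mul]
  unfold Pool.Agent.Y981.L2.pw
  apply le_of_eq
  have e1 : (({f : ZMod (2 * n) → ℤ × ℤ | IsLoop (2 * n) f ∧ (k : ℝ) ≤ width (2 * n) f}.ncard : ℕ) : ℝ) =
      (((Lps_fin hn).toFinset.filter (fun g => (k : ℝ) ≤ (width (2 * n) g : ℝ))).card : ℝ) := by
    rw [← Set.ncard_coe_finset]
    congr 2
    ext f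
    simp [Lps]
  rw [e1]
  have hp := Lps_pos hn
  have e2 : (({f : ZMod (2 * n) → ℤ × ℤ | IsLoop (2 * n) f}.ncard : ℕ) : ℝ) =
      ((Lps n).ncard : ℝ) := rfl
  rw [e2]
  field_simp

theorem pw_le_one (n : ℕ) (hn : 2 ≤ n) (r : ℝ) : pw n r ≤ 1 := by
  unfold Pool.Agent.Y981.L2.pw
  have e2 : (({f : ZMod (2 * n) → ℤ × ℤ | IsLoop (2 * n) f}.ncard : ℕ) : ℝ) =
      ((Lps n).ncard : ℝ) := rfl
  rw [e2, div_le_one (Lps_pos hn)]
  have : {f : ZMod (2 * n) → ℤ × ℤ | IsLoop (2 * n) f ∧ r ≤ width (2 * n) f}.ncard ≤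
      (Lps n).ncard := Set.ncard_le_ncard (fun f hf => hf.1) (Lps_fin hn)
  exact_mod_cast this

/-- **The free energy of the pulled polygons.** -/
theorem poly_energy : ∃ K : ℝ, 0 ≤ K ∧ ∀ n : ℕ, 2 ≤ n → ∀ f : ℝ, 0 ≤ f →
    2 * n * psi (f / 2) - f - K * Real.log n ^ 2 ≤ Real.log (Zp n f) ∧
    Real.log (Zp n f) ≤ 2 * n * psi (f / 2) + f + K * Real.log n ^ 2 := by
  obtain ⟨K, hK, hldp⟩ := pw_ldp
  refine ⟨K + 3, by positivity, fun n hn f hf => ?_⟩
  have hn0 : (0 : ℝ) < n := by exact_mod_cast (by omega : 0 < n)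
  obtain ⟨L, hL⟩ : ∃ L, L = Real.log (n : ℝ) ^ 2 := ⟨_, rfl⟩
  have hlog : Real.log 2 ≤ Real.log n := log_ge hn
  have hl2 := Real.log_two_gt_d9
  have hL0 : 0 ≤ L := by rw [hL]; positivity
  have hKL : 0 ≤ K * L := by positivity
  rw [← hL]
  have hZ1 := one_le_Zp hn hf
  have hZ0 := Zp_pos hn f
  have hlogZ : 0 ≤ Real.log (Zp n f) := Real.log_nonneg hZ1
  constructor
  · obtain ⟨C, hC⟩ : ∃ C, C = (Real.log (Zp n f) + f + K * L) / (2 * n) := ⟨_, rfl⟩
    have hC0 : 0 ≤ C := by rw [hC]; positivity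
    have hCn : 2 * n * C = Real.log (Zp n f) + f + K * L := by
      rw [hC]; field_simp
    have key : ∀ v : ℝ, 0 ≤ v → v ≤ 1 → f / 2 * v - R v ≤ C := by
      intro v h0 h1
      have hR := R_nonneg h0 h1
      -- multiply by `2 n`
      rw [← mul_le_mul_iff_right₀ (show (0 : ℝ) < 2 * n by positivity), hCn]
      have e1 : 2 * (n : ℝ) * (f / 2 * v - R v) = f * (n * v) - 2 * (n * R v) := by ring
      rw [e1]
      have hnR : 0 ≤ (n : ℝ) * R v := by positivity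
      -- one length
      have one : ∀ k : ℕ, 1 ≤ k → k < n → (n : ℝ) * v - 1 ≤ k → (k : ℝ) ≤ n * v →
          f * (n * v) - 2 * (n * R v) ≤ Real.log (Zp n f) + f + K * L := by
        intro k hk hkn hk1 hk2
        have h2 := (hldp n hn k hk hkn).1
        rw [← hL] at h2
        have h3 := (mul_le_mul_of_nonneg_right h2 (Real.exp_pos (f * k)).le).trans (le_Zp hn hf k)
        rw [← Real.exp_add, ← Real.le_log_iff_exp_le hZ0] at h3
        have hkv : (k : ℝ) / n ≤ v := by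
          rw [div_le_iff₀ hn0]; linarith
        have h4 := R_mono (by positivity : 0 ≤ (k : ℝ) / n) hkv h1
        have h5 := mul_le_mul_of_nonneg_left h4 hn0.le
        have h6 := mul_le_mul_of_nonneg_left hk1 hf
        linarith
      rcases lt_or_ge ((n : ℝ) * v) 1 with h2 | h2
      · have h3 : f * (n * v) ≤ f * 1 := mul_le_mul_of_nonneg_left h2.le hf
        linarith
      · obtain ⟨k, hk⟩ : ∃ k, k = ⌊(n : ℝ) * v⌋₊ := ⟨_, rfl⟩
        have hk1 : 1 ≤ k := by rw [hk]; exact Nat.le_floor (by exact_mod_cast h2)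
        have hk2 : (k : ℝ) ≤ n * v := by rw [hk]; exact Nat.floor_le (by positivity)
        have hk3 : (n : ℝ) * v < k + 1 := by rw [hk]; exact Nat.lt_floor_add_one _
        rcases Nat.lt_or_ge k n with h3 | h3
        · exact one k hk1 h3 (by linarith) hk2
        · have h4 : (n : ℝ) ≤ k := by exact_mod_cast h3
          have h5 : (n : ℝ) * v = n := by
            have : (n : ℝ) * v ≤ n * 1 := mul_le_mul_of_nonneg_left h1 hn0.le
            linarith
          have h6 : ((n - 1 : ℕ) : ℝ) = n - 1 := by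
            rw [Nat.cast_sub (by omega), Nat.cast_one]
          exact one (n - 1) (by omega) (by omega) (by rw [h6]; linarith) (by rw [h6]; linarith)
    have hlam : psi (f / 2) ≤ C := by
      apply Lam_le_of
      intro v hv
      have h1 := R_le_rate hv
      have hd : |v.1| + |v.2| ≤ 1 := hv
      have a2 := abs_nonneg v.2
      have h2 := key |v.1| (abs_nonneg _) (by linarith)
      have h3 : f / 2 * v.1 ≤ f / 2 * |v.1| :=
        mul_le_mul_of_nonneg_left (le_abs_self _) (by positivity)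
      simp only [zero_mul, add_zero]
      linarith
    have h1 := mul_le_mul_of_nonneg_left hlam (show (0 : ℝ) ≤ 2 * n by positivity)
    rw [hCn] at h1
    linarith
  · have hterm : ∀ k ∈ Finset.range (n + 1), pw n k * Real.exp (f * k) ≤
        Real.exp (2 * n * psi (f / 2) + f + K * L) := by
      intro k hk
      rw [Finset.mem_range] at hk
      have hpsi := psi_nonneg (f / 2)
      have hnp : 0 ≤ 2 * (n : ℝ) * psi (f / 2) := by positivity
      have one : ∀ j : ℕ, 1 ≤ j → j < n → pw n j * Real.exp (f * j) ≤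
          Real.exp (2 * n * psi (f / 2) + K * L) := by
        intro j hj hjn
        have h2 := (hldp n hn j hj hjn).2
        rw [← hL] at h2
        refine (mul_le_mul_of_nonneg_right h2 (Real.exp_pos _).le).trans ?_
        rw [← Real.exp_add]
        apply Real.exp_le_exp.2
        have hjn' : (j : ℝ) / n ≤ 1 := by
          rw [div_le_one hn0]; exact_mod_cast hjn.le
        have h3 := young (by positivity : 0 ≤ (j : ℝ) / n) hjn' (f / 2)
        have h4 := mul_le_mul_of_nonneg_left h3 (show (0 : ℝ) ≤ 2 * n by positivity)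
        have e1 : 2 * (n : ℝ) * (f / 2 * ((j : ℝ) / n)) = f * j := by field_simp
        rw [e1] at h4
        linarith
      rcases Nat.eq_zero_or_pos k with h0 | h0
      · rw [h0]
        have h1 := pw_le_one n hn ((0 : ℕ) : ℝ)
        simp only [Nat.cast_zero, mul_zero, Real.exp_zero, mul_one] at h1 ⊢
        refine h1.trans ?_
        rw [← Real.exp_zero]
        apply Real.exp_le_exp.2
        linarith
      · rcases Nat.lt_or_ge k n with h1 | h1
        · refine (one k h0 h1).trans (Real.exp_le_exp.2 ?_)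
          linarith
        · have hkn : k = n := by omega
          have h2 := one (n - 1) (by omega) (by omega)
          have h3 : pw n k ≤ pw n ((n - 1 : ℕ) : ℝ) := by
            apply pw_anti (by omega)
            rw [hkn]
            exact_mod_cast Nat.sub_le n 1
          have h6 : ((n - 1 : ℕ) : ℝ) = n - 1 := by
            rw [Nat.cast_sub (by omega), Nat.cast_one]
          have e1 : Real.exp (f * k) = Real.exp (f * ((n - 1 : ℕ) : ℝ)) * Real.exp f := by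
            rw [← Real.exp_add, hkn, h6]
            congr 1
            ring
          calc pw n k * Real.exp (f * k) ≤ pw n ((n - 1 : ℕ) : ℝ) * Real.exp (f * k) :=
                mul_le_mul_of_nonneg_right h3 (Real.exp_pos _).le
            _ = (pw n ((n - 1 : ℕ) : ℝ) * Real.exp (f * ((n - 1 : ℕ) : ℝ))) * Real.exp f := by
                rw [e1]; ring
            _ ≤ Real.exp (2 * n * psi (f / 2) + K * L) * Real.exp f :=
                mul_le_mul_of_nonneg_right h2 (Real.exp_pos _).le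
            _ = Real.exp (2 * n * psi (f / 2) + f + K * L) := by
                rw [← Real.exp_add]; congr 1; ring
    have h1 := (Zp_le hn f).trans (Finset.sum_le_sum hterm)
    rw [Finset.sum_const, Finset.card_range, nsmul_eq_mul] at h1
    have h2 : ((n + 1 : ℕ) : ℝ) ≤ Real.exp (3 * L) := by
      have h6 : ((n : ℝ) + 1) ≤ Real.exp (2 * Real.log n) := by
        have : Real.exp (2 * Real.log n) = (n : ℝ) ^ 2 := by
          rw [mul_comm, Real.exp_mul, Real.exp_log hn0]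
          norm_num
        rw [this]
        have hn2 : (2 : ℝ) ≤ n := by exact_mod_cast hn
        nlinarith
      push_cast
      refine h6.trans (Real.exp_le_exp.2 ?_)
      rw [hL]
      nlinarith
    have h3 := h1.trans (mul_le_mul_of_nonneg_right h2 (Real.exp_pos _).le)
    rw [← Real.exp_add, ← Real.log_le_iff_le_exp hZ0] at h3
    linarith

/-- **The mean width of the pulled polygons.** -/
theorem poly_width : ∃ K : ℝ, 0 ≤ K ∧ ∀ n : ℕ, 2 ≤ n → ∀ f : ℝ, 0 ≤ f →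
    2 * n * psi (f / 2) - f - K * Real.log n ^ 2 ≤ f * Wp n f ∧
    f * Wp n f ≤ 2 * n * (psi f - psi (f / 2)) + 3 * f + K * Real.log n ^ 2 := by
  obtain ⟨K, hK, h⟩ := poly_energy
  refine ⟨2 * K, by positivity, fun n hn f hf => ?_⟩
  have hj : ∀ g : ℝ, g * Wp n f ≤ Real.log (Zp n (f + g)) - Real.log (Zp n f) := by
    intro g
    have h1 := jensen_gen (Lps_fin hn).toFinset (Lps_ne hn) (fun w => (width (2 * n) w : ℝ)) f g
    rw [Wp_eq hn, Zp_eq hn, Zp_eq hn]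
    have hp := Lps_pos hn
    have s1 : 0 < ∑ w ∈ (Lps_fin hn).toFinset, Real.exp ((f + g) * (width (2 * n) w : ℝ)) :=
      Finset.sum_pos (fun _ _ => Real.exp_pos _) (Lps_ne hn)
    have s2 : 0 < ∑ w ∈ (Lps_fin hn).toFinset, Real.exp (f * (width (2 * n) w : ℝ)) :=
      Finset.sum_pos (fun _ _ => Real.exp_pos _) (Lps_ne hn)
    rw [Real.log_div s1.ne' hp.ne', Real.log_div s2.ne' hp.ne']
    linarith
  have hL : 0 ≤ K * Real.log (n : ℝ) ^ 2 := by positivity
  have j1 := hj (-f)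
  have j2 := hj f
  have e1 : f + -f = 0 := by ring
  have e2 : f + f = 2 * f := by ring
  rw [e1, Zp_zero hn, Real.log_one] at j1
  rw [e2] at j2
  have h1 := (h n hn f hf).1
  have h2 := (h n hn (2 * f) (by positivity)).2
  have e3 : 2 * f / 2 = f := by ring
  rw [e3] at h2
  constructor <;> linarith

/-! ### the extension under small forces -/

theorem pincus_lower_gen {θ : ℝ} (hθ : 0 < θ) (F : FLow θ) {ε : ℝ} (hε : 0 < ε) {K : ℝ}
    (hK : 0 ≤ K) {D : ℝ → ℕ → ℝ}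
    (hD : ∀ n : ℕ, 2 ≤ n → ∀ f : ℝ, 0 < f → f < 1 →
      2 * n * Lam (f / 2, 0) - K * Real.log n ^ 2 ≤ f * D f n) :
    ∃ f₀ : ℝ, 0 < f₀ ∧ ∀ f : ℝ, 0 < f → f < f₀ → ∀ n : ℕ, 2 ≤ n →
      f ^ (-(1 / θ + ε)) ≤ (n : ℝ) → f ^ (1 / θ - 1 + ε) ≤ D f n / n := by
  have hθ1 : 0 < 1 / θ := by positivity
  have htw : Tendsto (fun f : ℝ => f / 2) (𝓝[>] (0 : ℝ)) (𝓝[>] (0 : ℝ)) := by
    have := tendsto_pow0 (s := 1) (C := 1 / 2) one_pos (by norm_num)
    simp only [Real.rpow_one] at this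
    refine this.congr (fun f => ?_)
    ring
  obtain ⟨c, hc⟩ : ∃ c : ℝ, c = (1 / 2 : ℝ) ^ (1 / θ + ε / 2) := ⟨_, rfl⟩
  have hc0 : 0 < c := by rw [hc]; positivity
  have h1 := htw.eventually (tendsto_axis.eventually (F (ε / 2) (by linarith)))
  have h2 := small_log hK (show 0 < 1 / θ + 3 * ε / 4 by linarith)
    (show 1 / θ + 3 * ε / 4 < 1 / θ + ε by linarith)
  have h3 := ev_rpow (2 / c) (show 1 / θ + ε / 2 < 1 / θ + 3 * ε / 4 by linarith)
  have h4 := ev_rpow (2 / c) (show 1 / θ + ε / 2 < 1 / θ + ε by linarith)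
  have h5 := (((h1.and h2).and (h3.and h4)).and (Ioo_mem_nhdsGT (show (0 : ℝ) < 1 / 2 by norm_num)))
  obtain ⟨f₀, hf₀, hf⟩ := mem_nhdsGT_iff_exists_Ioo_subset.1 h5
  refine ⟨f₀, hf₀, fun f hf0 hf1 n hn2 hn => ?_⟩
  obtain ⟨⟨⟨a1, a2⟩, a3, a4⟩, a5⟩ := hf ⟨hf0, hf1⟩
  rw [norm_axis (half_pos hf0)] at a1
  have b2 := a2 n hn
  have hn0 : (0 : ℝ) < n := by exact_mod_cast (by omega : 0 < n)
  have b1 := hD n hn2 f hf0 (by linarith [a5.2])
  have e0 : (f / 2) ^ (1 / θ + ε / 2) = c * f ^ (1 / θ + ε / 2) := by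
    rw [hc, ← Real.mul_rpow (by norm_num) hf0.le]
    congr 1
    ring
  rw [e0] at a1
  have c1 : 2 * n * (c * f ^ (1 / θ + ε / 2)) ≤ 2 * n * Lam (f / 2, 0) :=
    mul_le_mul_of_nonneg_left a1 (by positivity)
  have c2 : n * c * (2 / c * f ^ (1 / θ + 3 * ε / 4)) ≤ n * c * f ^ (1 / θ + ε / 2) :=
    mul_le_mul_of_nonneg_left a3 (by positivity)
  have c3 : n * c * (2 / c * f ^ (1 / θ + ε)) ≤ n * c * f ^ (1 / θ + ε / 2) :=
    mul_le_mul_of_nonneg_left a4 (by positivity)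
  have d2 : n * c * (2 / c * f ^ (1 / θ + 3 * ε / 4)) = 2 * (n * f ^ (1 / θ + 3 * ε / 4)) := by
    field_simp
  have d3 : n * c * (2 / c * f ^ (1 / θ + ε)) = 2 * (n * f ^ (1 / θ + ε)) := by
    field_simp
  rw [d2] at c2
  rw [d3] at c3
  have p1 : 0 ≤ n * f ^ (1 / θ + ε) := by positivity
  have p2 : 0 ≤ n * f ^ (1 / θ + 3 * ε / 4) := by positivity
  have c4 : n * f ^ (1 / θ + ε) ≤ f * D f n := by linarith
  rw [le_div_iff₀ hn0]
  have e3 : f * (f ^ (1 / θ - 1 + ε) * n) = n * f ^ (1 / θ + ε) := by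
    have : f ^ (1 / θ + ε) = f * f ^ (1 / θ - 1 + ε) := by
      conv_rhs => lhs; rw [← Real.rpow_one f]
      rw [← Real.rpow_add hf0]
      congr 1
      ring
    rw [this]; ring
  rw [← mul_le_mul_iff_right₀ hf0, e3]
  exact c4

theorem pincus_upper_gen {θ : ℝ} (hθ : 0 < θ) (F : FUp θ) {ε : ℝ} (hε : 0 < ε) {K : ℝ}
    (hK : 0 ≤ K) {D : ℝ → ℕ → ℝ}
    (hD : ∀ n : ℕ, 2 ≤ n → ∀ f : ℝ, 0 < f → f < 1 →
      f * D f n ≤ 2 * n * Lam (f, 0) + K * Real.log n ^ 2) :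
    ∃ f₀ : ℝ, 0 < f₀ ∧ ∀ f : ℝ, 0 < f → f < f₀ → ∀ n : ℕ, 2 ≤ n →
      f ^ (-(1 / θ)) ≤ (n : ℝ) → D f n / n ≤ f ^ (1 / θ - 1 - ε) := by
  have hθ1 : 0 < 1 / θ := by positivity
  obtain ⟨δ, hδ⟩ : ∃ δ, δ = min ε (1 / θ) := ⟨_, rfl⟩
  have hδ0 : 0 < δ := by rw [hδ]; exact lt_min hε hθ1
  have hδε : δ ≤ ε := by rw [hδ]; exact min_le_left _ _
  have hδθ : δ ≤ 1 / θ := by rw [hδ]; exact min_le_right _ _
  have h1 := tendsto_axis.eventually (F (δ / 2) (by linarith))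
  have h2 := small_log hK (show 0 < 1 / θ - δ / 2 by linarith)
    (show 1 / θ - δ / 2 < 1 / θ by linarith)
  have h3 := ev_rpow (3 : ℝ) (show 1 / θ - δ < 1 / θ - δ / 2 by linarith)
  have h5 := (((h1.and h2).and h3).and (Ioo_mem_nhdsGT (show (0 : ℝ) < 1 by norm_num)))
  obtain ⟨f₀, hf₀, hf⟩ := mem_nhdsGT_iff_exists_Ioo_subset.1 h5
  refine ⟨f₀, hf₀, fun f hf0 hf1 n hn2 hn => ?_⟩
  obtain ⟨⟨⟨a1, a2⟩, a3⟩, a5⟩ := hf ⟨hf0, hf1⟩
  rw [norm_axis hf0] at a1
  have b2 := a2 n hn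
  have hn0 : (0 : ℝ) < n := by exact_mod_cast (by omega : 0 < n)
  have b1 := hD n hn2 f hf0 a5.2
  have c1 := mul_le_mul_of_nonneg_left a1 (show (0 : ℝ) ≤ 2 * n by positivity)
  have c3 := mul_le_mul_of_nonneg_left a3 hn0.le
  have c4 : f * D f n ≤ n * f ^ (1 / θ - δ) := by linarith
  have c5 : f ^ (1 / θ - δ) ≤ f ^ (1 / θ - ε) :=
    Real.rpow_le_rpow_of_exponent_ge hf0 a5.2.le (by linarith)
  have c6 := mul_le_mul_of_nonneg_left c5 hn0.le
  rw [div_le_iff₀ hn0]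
  have e3 : f * (f ^ (1 / θ - 1 - ε) * n) = n * f ^ (1 / θ - ε) := by
    have : f ^ (1 / θ - ε) = f * f ^ (1 / θ - 1 - ε) := by
      conv_rhs => lhs; rw [← Real.rpow_one f]
      rw [← Real.rpow_add hf0]
      congr 1
      ring
    rw [this]; ring
  rw [← mul_le_mul_iff_right₀ hf0, e3]
  linarith

/-- for forces at most one the error is `K (log n)^2` -/
theorem poly_width_small : ∃ K : ℝ, 0 ≤ K ∧ ∀ n : ℕ, 2 ≤ n → ∀ f : ℝ, 0 < f → f < 1 →
    2 * n * Lam (f / 2, 0) - K * Real.log n ^ 2 ≤ f * Wp n f ∧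
    f * Wp n f ≤ 2 * n * Lam (f, 0) + K * Real.log n ^ 2 := by
  obtain ⟨K, hK, h⟩ := poly_width
  refine ⟨K + 9, by positivity, fun n hn f hf0 hf1 => ?_⟩
  obtain ⟨h1, h2⟩ := h n hn f hf0.le
  have hlog : Real.log 2 ≤ Real.log n := log_ge hn
  have hl2 := Real.log_two_gt_d9
  have hL : (0.4 : ℝ) ≤ Real.log (n : ℝ) ^ 2 := by
    have h7 : (0.69 : ℝ) ^ 2 ≤ Real.log n ^ 2 :=
      pow_le_pow_left₀ (by norm_num) (by linarith) 2
    norm_num at h7
    linarith
  have hn0 : (0 : ℝ) ≤ 2 * n := by positivity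
  have e1 : psi (f / 2) = Lam (f / 2, 0) := rfl
  have e2 : psi f = Lam (f, 0) := rfl
  have h3 := mul_nonneg hn0 (psi_nonneg (f / 2))
  have e3 : 2 * (n : ℝ) * (psi f - psi (f / 2)) = 2 * n * psi f - 2 * n * psi (f / 2) := by ring
  rw [e3] at h2
  rw [← e1, ← e2]
  constructor <;> linarith

theorem fUp_iff {θ : ℝ} : FUp θ ↔
    ∀ ε : ℝ, 0 < ε → ∀ᶠ f in 𝓝[>] (0 : ℝ), psi f ≤ f ^ (1 / θ - ε) := by
  constructor
  · intro F ε hε
    filter_upwards [tendsto_axis.eventually (F ε hε), self_mem_nhdsWithin] with f hf hf0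
    rw [norm_axis hf0] at hf
    exact hf
  · intro F ε hε
    have htw : Tendsto (fun f : ℝ => 2 * f) (𝓝[>] (0 : ℝ)) (𝓝[>] (0 : ℝ)) := by
      have := tendsto_pow0 (s := 1) (C := 2) one_pos (by norm_num)
      simpa using this
    have h1 := htw.eventually (F (ε / 2) (by linarith))
    have h2 := ev_rpow ((2 : ℝ) ^ (1 / θ - ε / 2)) (show 1 / θ - ε < 1 / θ - ε / 2 by linarith)
    filter_upwards [tendsto_norm0.eventually (h1.and h2), self_mem_nhdsWithin] with h hh hh0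
    obtain ⟨h3, h4⟩ := hh
    have hn : 0 < ‖h‖ := norm_pos_iff.2 hh0
    rw [Real.mul_rpow (by norm_num) hn.le] at h3
    exact (le_psi_norm h).trans (h3.trans h4)

theorem fLow_iff {θ : ℝ} : FLow θ ↔
    ∀ ε : ℝ, 0 < ε → ∀ᶠ f in 𝓝[>] (0 : ℝ), f ^ (1 / θ + ε) ≤ psi f := by
  constructor
  · intro F ε hε
    filter_upwards [tendsto_axis.eventually (F ε hε), self_mem_nhdsWithin] with f hf hf0
    rw [norm_axis hf0] at hf
    exact hf
  · intro F ε hε
    filter_upwards [tendsto_norm0.eventually (F ε hε)] with h hh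
    exact hh.trans (psi_norm_le h)

theorem polyUp_iff {θ : ℝ} (hθ : 0 < θ) (hθ1 : θ < 1) : PolyUp θ ↔ FUp θ :=
  ⟨fun h => massLow_fUp hθ (Pool.Agent.Y981.L2.rUp_massLow hθ hθ1
      (Pool.Agent.Y981.L2.polyUp_rUp h)),
    fun h => Pool.Agent.Y981.L2.rUp_polyUp hθ1
      (Pool.Agent.Y981.L2.massLow_rUp (fUp_massLow hθ h))⟩

theorem polyLow_iff {θ : ℝ} (hθ : 0 < θ) (hθ1 : θ < 1) : PolyLow θ ↔ FLow θ :=
  ⟨fun h => massUp_fLow hθ (Pool.Agent.Y981.L2.rLow_massUp hθ hθ1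
      (Pool.Agent.Y981.L2.polyLow_rLow hθ1 h)),
    fun h => Pool.Agent.Y981.L2.rLow_polyLow
      (Pool.Agent.Y981.L2.massUp_rLow hθ hθ1 (fLow_massUp hθ h))⟩

end Pool.Agent.V11252.SAW
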