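import Pool.Agent.V11252.SAW.Poly
import Pool.Agent.V11252.SAW.TwoPoint

/-!
The generating function of the wide polygons below the critical point.
-/

set_option autoImplicit false

namespace Pool.Agent.V11252.SAW

open Pool.Agent.TH795.EP Pool.Agent.TH795.EP2 Pool.Agent.TH795.SE2 Pool.Agent.TH262.SawL H981 Finset Filter Topology
open Pool.Agent.Y981.L2 (Lam psi psi_mono psi_nonneg psi_zero Rate R Dia
  young R_mono R_nonneg R_smul pw pw_anti pw_nat pw_ldp width mass mass_pos summable_aux)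
open Pool.Agent.Y981.L2X (M speed Rate_nonneg)

/-- the number of polygons of perimeter `2 n` with width at least `k` -/
noncomputable def pk (n k : ℕ) : ℝ := pw n k * PP n

/-- the scale -/
noncomputable def Lk (k : ℕ) (e : ℝ) : ℝ := Real.log (2 + (k : ℝ) + 1 / e)

theorem one_le_Lk {k : ℕ} (hk : 1 ≤ k) {e : ℝ} (he : 0 < e) : 1 ≤ Lk k e := by
  unfold Lk
  have h1 : (1 : ℝ) ≤ k := by exact_mod_cast hk
  have h2 : 0 < 1 / e := by positivity
  rw [Real.le_log_iff_exp_le (by positivity)]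
  have := Real.exp_one_lt_d9
  linarith

theorem PP_b : ∃ K : ℝ, 0 ≤ K ∧ ∀ n : ℕ, 2 ≤ n → 0 < PP n ∧
    2 * n * Real.log mu - K * Real.log n ^ 2 ≤ Real.log (PP n) ∧
    Real.log (PP n) ≤ 2 * n * Real.log mu + K * Real.log n ^ 2 := by
  obtain ⟨K, hK, h⟩ := Pool.Agent.TH508.LT.sq_PP2
  refine ⟨K, hK, fun n hn => ?_⟩
  obtain ⟨h1, h2⟩ := h n hn
  have hmu := mu_pos
  have hpos : 0 < PP n := lt_of_lt_of_le (by positivity) h1
  have e1 : ∀ t : ℝ, mu ^ (2 * n) * Real.exp t = Real.exp (2 * n * Real.log mu + t) := by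
    intro t
    rw [Real.exp_add]
    congr 1
    rw [← Real.exp_log hmu, ← Real.exp_nat_mul, Real.exp_log hmu]
    congr 1
    push_cast
    ring
  rw [e1] at h1 h2
  refine ⟨hpos, ?_, ?_⟩
  · rw [← Real.le_log_iff_exp_le hpos] at h1
    linarith
  · rw [← Real.log_le_iff_le_exp hpos] at h2
    exact h2

theorem pw_zero {n k : ℕ} (hn : 2 ≤ n) (hk : n < k) : pw n k = 0 := by
  unfold Pool.Agent.Y981.L2.pw
  have : {f : ZMod (2 * n) → ℤ × ℤ | IsLoop (2 * n) f ∧ (k : ℝ) ≤ width (2 * n) f} = ∅ := by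
    rw [Set.eq_empty_iff_forall_notMem]
    rintro f ⟨h1, h2⟩
    have h3 := width_le_n hn h1
    have h4 : k ≤ width (2 * n) f := by exact_mod_cast h2
    omega
  rw [this, Set.ncard_empty]
  simp

theorem pw_nonneg (n : ℕ) (r : ℝ) : 0 ≤ pw n r := by
  unfold Pool.Agent.Y981.L2.pw
  positivity

/-- one term of the generating function, upper bound -/
theorem pk_upper : ∃ K : ℝ, 0 ≤ K ∧ ∀ n : ℕ, 2 ≤ n → ∀ k : ℕ, 1 ≤ k → ∀ z e g η : ℝ, 0 < z →
    Real.log z + Real.log mu = -e → 0 ≤ g → psi g ≤ e - η →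
    pk n k * z ^ (2 * n) ≤ Real.exp (-(2 * g * k) + 2 * g) *
      Real.exp (-(2 * η * n) + K * Real.log n ^ 2) := by
  obtain ⟨K1, hK1, h1⟩ := pw_ldp
  obtain ⟨K2, hK2, h2⟩ := PP_b
  refine ⟨K1 + K2, by positivity, ?_⟩
  intro n hn k hk z e g η hz hlz hg hpsi
  have hn0 : (0 : ℝ) < n := by exact_mod_cast (by omega : 0 < n)
  obtain ⟨g1, g2, g3⟩ := h2 n hn
  have hzn : z ^ (2 * n) = Real.exp (2 * n * Real.log z) := by
    rw [← Real.exp_log hz, ← Real.exp_nat_mul, Real.exp_log hz]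
    congr 1
    push_cast
    ring
  rcases Nat.lt_or_ge n k with h0 | h0
  · unfold pk
    rw [pw_zero hn h0, zero_mul, zero_mul]
    positivity
  · obtain ⟨j, hj1, hjn, hjk, hkj⟩ : ∃ j : ℕ, 1 ≤ j ∧ j < n ∧ j ≤ k ∧ k ≤ j + 1 := by
      rcases Nat.lt_or_ge k n with h3 | h3
      · exact ⟨k, hk, h3, le_rfl, by omega⟩
      · exact ⟨n - 1, by omega, by omega, by omega, by omega⟩
    have h3 : pw n k ≤ pw n j := pw_anti (by omega) (by exact_mod_cast hjk)
    have h4 := (h1 n hn j hj1 hjn).2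
    have hjn' : (j : ℝ) / n ≤ 1 := by
      rw [div_le_one hn0]; exact_mod_cast hjn.le
    have h5 := young (by positivity : 0 ≤ (j : ℝ) / n) hjn' g
    have h6 := mul_le_mul_of_nonneg_left h5 hn0.le
    have e1 : (n : ℝ) * (g * ((j : ℝ) / n)) = g * j := by field_simp
    rw [e1] at h6
    have h7 := mul_le_mul_of_nonneg_left hpsi hn0.le
    have hkj' : (k : ℝ) ≤ j + 1 := by exact_mod_cast hkj
    have h8 := mul_le_mul_of_nonneg_left hkj' hg
    have hPP : PP n ≤ Real.exp (2 * n * Real.log mu + K2 * Real.log n ^ 2) := by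
      rw [← Real.log_le_iff_le_exp g1]
      exact g3
    unfold pk
    calc pw n k * PP n * z ^ (2 * n) ≤
          Real.exp (-(2 * (n * R ((j : ℝ) / n))) + K1 * Real.log n ^ 2) *
          Real.exp (2 * n * Real.log mu + K2 * Real.log n ^ 2) * Real.exp (2 * n * Real.log z) := by
          rw [hzn]
          apply mul_le_mul_of_nonneg_right _ (Real.exp_pos _).le
          exact mul_le_mul (h3.trans h4) hPP g1.le (Real.exp_pos _).le
      _ = Real.exp (-(2 * (n * R ((j : ℝ) / n))) + 2 * n * (Real.log z + Real.log mu) +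
          (K1 + K2) * Real.log n ^ 2) := by
          rw [← Real.exp_add, ← Real.exp_add]
          congr 1
          ring
      _ ≤ _ := by
          rw [← Real.exp_add, hlz]
          apply Real.exp_le_exp.2
          linarith

/-- one term, lower bound -/
theorem pk_lower : ∃ K : ℝ, 0 ≤ K ∧ ∀ n : ℕ, 2 ≤ n → ∀ k : ℕ, 1 ≤ k → k < n → ∀ z e : ℝ, 0 < z →
    Real.log z + Real.log mu = -e →
    Real.exp (-(2 * (n * R ((k : ℝ) / n))) - 2 * n * e - K * Real.log n ^ 2) ≤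
      pk n k * z ^ (2 * n) := by
  obtain ⟨K1, hK1, h1⟩ := pw_ldp
  obtain ⟨K2, hK2, h2⟩ := PP_b
  refine ⟨K1 + K2, by positivity, ?_⟩
  intro n hn k hk hkn z e hz hlz
  obtain ⟨g1, g2, g3⟩ := h2 n hn
  have hzn : z ^ (2 * n) = Real.exp (2 * n * Real.log z) := by
    rw [← Real.exp_log hz, ← Real.exp_nat_mul, Real.exp_log hz]
    congr 1
    push_cast
    ring
  have h4 := (h1 n hn k hk hkn).1
  have hPP : Real.exp (2 * n * Real.log mu - K2 * Real.log n ^ 2) ≤ PP n := by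
    rw [← Real.le_log_iff_exp_le g1]
    exact g2
  unfold pk
  rw [hzn]
  have e1 : Real.exp (-(2 * (n * R ((k : ℝ) / n))) - 2 * n * e - (K1 + K2) * Real.log n ^ 2) =
      Real.exp (-(2 * (n * R ((k : ℝ) / n)) + K1 * Real.log n ^ 2)) *
      Real.exp (2 * n * Real.log mu - K2 * Real.log n ^ 2) * Real.exp (2 * n * Real.log z) := by
    rw [← Real.exp_add, ← Real.exp_add]
    congr 1
    have : Real.log z = -e - Real.log mu := by linarith
    rw [this]
    ring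
  rw [e1]
  apply mul_le_mul_of_nonneg_right _ (Real.exp_pos _).le
  exact mul_le_mul h4 hPP (Real.exp_pos _).le (pw_nonneg _ _)

theorem pk_nonneg {n : ℕ} (hn : 2 ≤ n) (k : ℕ) : 0 ≤ pk n k := by
  obtain ⟨K, _, h⟩ := PP_b
  exact mul_nonneg (pw_nonneg _ _) (h n hn).1.le

/-- the generating function of the polygons of width at least `k` -/
noncomputable def GP (z : ℝ) (k : ℕ) : ℝ := ∑' n : ℕ, pk (n + 2) k * z ^ (2 * (n + 2))

theorem mass_le_B {e : ℝ} (he : 0 < e) : mass e ≤ e + Real.log mu := by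
  have h := M_le he.le (1, 0)
  rw [Pool.Agent.Y981.L2X.M_axis he] at h
  simpa using h

/-- a slope close to the mass -/
theorem exists_slope {e : ℝ} (he : 0 < e) {d : ℝ} (hd : 0 < d) :
    ∃ g : ℝ, 0 ≤ g ∧ psi g ≤ e ∧ mass e - d ≤ g := by
  obtain ⟨g, ⟨h1, h2⟩, h3⟩ := exists_lt_of_lt_csSup
    (⟨0, Pool.Agent.Y981.L2.zero_mem he.le⟩ : Set.Nonempty {g : ℝ | 0 ≤ g ∧ psi g ≤ e})
    (show mass e - d < sSup {g : ℝ | 0 ≤ g ∧ psi g ≤ e} by
      have : mass e - d < mass e := by linarith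
      exact this)
  exact ⟨g, h1, h2, h3.le⟩

theorem GP_upper (E : ℝ) (hE : 0 < E) : ∃ K : ℝ, 0 ≤ K ∧ ∀ e z : ℝ, 0 < e → e ≤ E → 0 < z →
    Real.log z + Real.log mu = -e → ∀ k : ℕ, 1 ≤ k →
    Summable (fun n : ℕ => pk (n + 2) k * z ^ (2 * (n + 2))) ∧
    GP z k ≤ Real.exp (-(2 * k * mass e) + K * Lk k e ^ 2) := by
  have hmu := mu_pos
  have hlm := log_mu_nonneg
  obtain ⟨K1, hK1, hterm⟩ := pk_upper
  obtain ⟨B, hB⟩ : ∃ B, B = E + Real.log mu := ⟨_, rfl⟩
  have hB0 : 0 < B := by rw [hB]; linarith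
  obtain ⟨A, hA⟩ : ∃ A, A = 2 + Real.log (3 + 2 * B) := ⟨_, rfl⟩
  have hA0 : 0 ≤ Real.log (3 + 2 * B) := Real.log_nonneg (by linarith)
  have hA1 : 0 ≤ A := by rw [hA]; linarith
  obtain ⟨F, hF⟩ : ∃ F : ℝ, F = 1 / 2 + 512 * K1 ^ 2 := ⟨_, rfl⟩
  have hF0 : 0 ≤ F := by rw [hF]; positivity
  refine ⟨5 + 2 * B + F + 2 * K1 * A ^ 2 + A, by positivity, ?_⟩
  intro e z he heE hz hlz k hk
  obtain ⟨S, hS⟩ : ∃ S : ℝ, S = k := ⟨_, rfl⟩
  have hS1 : 1 ≤ S := by rw [hS]; exact_mod_cast hk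
  obtain ⟨L, hL⟩ : ∃ L, L = Lk k e := ⟨_, rfl⟩
  have hLg1 : 1 ≤ L := by rw [hL]; exact one_le_Lk hk he
  have hLgd : L = Real.log (2 + S + 1 / e) := by rw [hL]; unfold Lk; rw [← hS]
  rw [← hL]
  have hmB : mass e ≤ B := (mass_le_B he).trans (by rw [hB]; linarith)
  obtain ⟨g₀, hg0, hpsi, hg1⟩ := exists_slope he (d := 1 / S) (by positivity)
  have hg0B : g₀ ≤ B := (Pool.Agent.Y981.L2.le_mass hg0 hpsi).trans hmB
  obtain ⟨r, hr⟩ : ∃ r, r = 1 / (2 + B * S) := ⟨_, rfl⟩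
  have hBS : 0 < B * S := by positivity
  have hr0 : 0 < r := by rw [hr]; positivity
  have hr1 : r ≤ 1 / 2 := by
    rw [hr]
    exact one_div_le_one_div_of_le (by norm_num) (by linarith)
  have hrg : r * (g₀ * S) ≤ 1 := by
    have h1 : r * (g₀ * S) ≤ r * (B * S) :=
      mul_le_mul_of_nonneg_left (mul_le_mul_of_nonneg_right hg0B (by linarith)) hr0.le
    have h2 : r * (B * S) ≤ 1 := by
      rw [hr, one_div, inv_mul_le_iff₀ (by positivity)]
      linarith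
    linarith
  obtain ⟨t, ht⟩ : ∃ t, t = 1 - r := ⟨_, rfl⟩
  have ht0 : 0 ≤ t := by rw [ht]; linarith
  have ht1 : t ≤ 1 := by rw [ht]; linarith
  obtain ⟨g, hg⟩ : ∃ g, g = t * g₀ := ⟨_, rfl⟩
  have hgn : 0 ≤ g := by rw [hg]; positivity
  have hgB : g ≤ B := by
    have : t * g₀ ≤ 1 * g₀ := mul_le_mul_of_nonneg_right ht1 hg0
    rw [hg]; linarith
  have hgk : mass e * S - 2 ≤ g * S := by
    have h1 : (mass e - 1 / S) * S ≤ g₀ * S := mul_le_mul_of_nonneg_right hg1 (by linarith)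
    have h2 : (mass e - 1 / S) * S = mass e * S - 1 := by field_simp
    have h3 : g * S = g₀ * S - r * (g₀ * S) := by rw [hg, ht]; ring
    rw [h2] at h1
    linarith
  obtain ⟨η, hη⟩ : ∃ η, η = r * e := ⟨_, rfl⟩
  have hη0 : 0 < η := by rw [hη]; positivity
  have hpsi2 : psi g ≤ e - η := by
    have h1 := Pool.Agent.Y981.L2X.Lam_smul (g₀, 0) ht0 ht1
    simp only [mul_zero] at h1
    have h2 : Lam (g₀, 0) ≤ e := hpsi
    have h3 := mul_le_mul_of_nonneg_left h2 ht0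
    have e1 : t * e = e - η := by rw [hη, ht]; ring
    have e2 : psi g = Lam (t * g₀, 0) := by rw [hg]; rfl
    rw [e2]
    linarith
  obtain ⟨Q, hQ⟩ : ∃ Q, Q = Real.log (2 + 1 / (2 * η)) := ⟨_, rfl⟩
  obtain ⟨C, hC⟩ : ∃ C, C = F + 2 * K1 * Q ^ 2 := ⟨_, rfl⟩
  have hC0 : 0 ≤ C := by rw [hC]; positivity
  have h2η : 0 < 2 * η := by positivity
  have hsum0 := summable_aux (C := C) hη0
  have hsum : Summable (fun n : ℕ => Real.exp (C - η * ((n + 2 : ℕ) : ℝ))) :=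
    (summable_nat_add_iff 2).2 hsum0
  have hbd : ∀ n : ℕ, pk (n + 2) k * z ^ (2 * (n + 2)) ≤
      Real.exp (-(2 * g * S) + 2 * g) * Real.exp (C - η * ((n + 2 : ℕ) : ℝ)) := by
    intro n
    have h1 := hterm (n + 2) (by omega) k hk z e g η hz hlz hgn hpsi2
    rw [← hS] at h1
    refine h1.trans (mul_le_mul_of_nonneg_left (Real.exp_le_exp.2 ?_) (Real.exp_pos _).le)
    have h3 := expo_le hK1 h2η (n + 2)
    rw [← hF, ← hQ, ← hC] at h3
    have e1 : 2 * η / 2 = η := by ring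
    rw [e1] at h3
    exact h3
  have hnn : ∀ n : ℕ, 0 ≤ pk (n + 2) k * z ^ (2 * (n + 2)) := fun n =>
    mul_nonneg (pk_nonneg (by omega) k) (pow_nonneg hz.le _)
  have hsumm : Summable (fun n : ℕ => pk (n + 2) k * z ^ (2 * (n + 2))) :=
    Summable.of_nonneg_of_le hnn hbd (hsum.mul_left _)
  refine ⟨hsumm, ?_⟩
  have hG : GP z k ≤ Real.exp (-(2 * g * S) + 2 * g) * (Real.exp C * (1 + 1 / η)) := by
    unfold GP
    refine (hsumm.tsum_le_tsum hbd (hsum.mul_left _)).trans ?_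
    rw [tsum_mul_left]
    apply mul_le_mul_of_nonneg_left _ (Real.exp_pos _).le
    refine le_trans ?_ (geo_le hη0)
    have h1 := hsum0.sum_add_tsum_nat_add 2
    have h2 : 0 ≤ ∑ i ∈ Finset.range 2, Real.exp (C - η * (i : ℝ)) :=
      Finset.sum_nonneg (fun _ _ => (Real.exp_pos _).le)
    linarith
  refine hG.trans ?_
  -- the logarithm of the scale
  obtain ⟨u, hu⟩ : ∃ u, u = 1 / e := ⟨_, rfl⟩
  have hu0 : 0 < u := by rw [hu]; positivity
  have hη2 : 1 / η = (2 + B * S) * u := by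
    rw [hη, hr, hu]
    field_simp
  have hη3 : 1 / (2 * η) ≤ 1 / η := one_div_le_one_div_of_le hη0 (by linarith)
  have hη4 : 0 < 1 / (2 * η) := by positivity
  have hη5 : 0 < 1 / η := by positivity
  rw [← hu] at hLgd
  have hQ' : Real.log (2 + 1 / η) ≤ A * L := by
    have h3 := scale_up hB0 hS1 hu0
    rw [← hη2] at h3
    have h4 : Real.log (2 + 1 / η) ≤ Real.log (3 + 2 * B) + 2 * L := by
      rw [hLgd]
      have h5 := Real.log_le_log (by positivity) h3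
      rw [Real.log_mul (by positivity) (by positivity), Real.log_pow] at h5
      push_cast at h5
      exact h5
    have h5 : Real.log (3 + 2 * B) * 1 ≤ Real.log (3 + 2 * B) * L :=
      mul_le_mul_of_nonneg_left hLg1 hA0
    have e1 : A * L = 2 * L + Real.log (3 + 2 * B) * L := by rw [hA]; ring
    rw [e1]
    linarith
  have h2 : Q ≤ A * L := by
    refine le_trans ?_ hQ'
    rw [hQ]
    exact Real.log_le_log (by positivity) (by linarith)
  have h2' : 0 ≤ Q := by rw [hQ]; exact Real.log_nonneg (by linarith)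
  have h3 : Q ^ 2 ≤ A ^ 2 * L ^ 2 := by
    rw [← mul_pow]
    exact pow_le_pow_left₀ h2' h2 2
  have h4 : 1 + 1 / η ≤ Real.exp (A * L) := by
    rw [← Real.log_le_iff_le_exp (by positivity)]
    refine le_trans ?_ hQ'
    exact Real.log_le_log (by positivity) (by linarith)
  obtain ⟨L2, hL2⟩ : ∃ L2, L2 = L ^ 2 := ⟨_, rfl⟩
  have hL3 : 1 ≤ L2 := by rw [hL2]; exact one_le_pow₀ hLg1
  have hL4 : L ≤ L2 := by rw [hL2, sq]; exact le_mul_of_one_le_left (by linarith) hLg1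
  rw [← hL2] at h3 ⊢
  calc Real.exp (-(2 * g * S) + 2 * g) * (Real.exp C * (1 + 1 / η))
      ≤ Real.exp (-(2 * g * S) + 2 * g) * (Real.exp C * Real.exp (A * L)) := by
        apply mul_le_mul_of_nonneg_left _ (Real.exp_pos _).le
        exact mul_le_mul_of_nonneg_left h4 (Real.exp_pos _).le
    _ = Real.exp (-(2 * g * S) + 2 * g + (C + A * L)) := by
        rw [← Real.exp_add, ← Real.exp_add]
    _ ≤ _ := by
        apply Real.exp_le_exp.2
        rw [← hS]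
        have u1 : A * L ≤ A * L2 := mul_le_mul_of_nonneg_left hL4 hA1
        have u2 : 2 * K1 * Q ^ 2 ≤ 2 * K1 * (A ^ 2 * L2) :=
          mul_le_mul_of_nonneg_left h3 (by positivity)
        have u5 : F * 1 ≤ F * L2 := mul_le_mul_of_nonneg_left hL3 hF0
        have u6 : B * 1 ≤ B * L2 := mul_le_mul_of_nonneg_left hL3 hB0.le
        rw [hC]
        have e3 : (5 + 2 * B + F + 2 * K1 * A ^ 2 + A) * L2 =
            5 * L2 + 2 * (B * L2) + F * L2 + 2 * K1 * (A ^ 2 * L2) + A * L2 := by ring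
        rw [e3]
        linarith

theorem GP_lower (E : ℝ) (hE : 0 < E) : ∃ K : ℝ, 0 ≤ K ∧ ∀ e z : ℝ, 0 < e → e ≤ E → 0 < z →
    Real.log z + Real.log mu = -e → ∀ k : ℕ, 1 ≤ k →
    Real.exp (-(2 * k * mass e) - K * Lk k e ^ 2) ≤ GP z k := by
  have hmu := mu_pos
  have hlm := log_mu_nonneg
  obtain ⟨K0, hK0, hup⟩ := GP_upper E hE
  obtain ⟨K2, hK2, hlow⟩ := pk_lower
  obtain ⟨B, hB⟩ : ∃ B, B = E + Real.log mu := ⟨_, rfl⟩
  have hB0 : 0 < B := by rw [hB]; linarith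
  obtain ⟨A, hA⟩ : ∃ A, A = 2 + Real.log (4 + B) := ⟨_, rfl⟩
  have hA0 : 0 ≤ Real.log (4 + B) := Real.log_nonneg (by linarith)
  have hA1 : 0 ≤ A := by rw [hA]; linarith
  refine ⟨2 + 6 * E + K2 * A ^ 2, by positivity, ?_⟩
  intro e z he heE hz hlz k hk
  obtain ⟨S, hS⟩ : ∃ S : ℝ, S = k := ⟨_, rfl⟩
  have hS1 : 1 ≤ S := by rw [hS]; exact_mod_cast hk
  have hmB : mass e ≤ B := (mass_le_B he).trans (by rw [hB]; linarith)
  have hy0 : ((S, 0) : ℝ × ℝ) ≠ 0 := by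
    intro h0
    have h1 := congrArg Prod.fst h0
    simp only [Prod.fst_zero] at h1
    linarith
  obtain ⟨s, hs0, hsD, hs⟩ := speed he hy0 one_pos
  have hR0 := Rate_nonneg hsD
  simp only [zero_div] at hs hR0 hsD
  have hMb := (M_between he (S, 0)).2
  simp only [abs_zero, add_zero] at hMb
  rw [abs_of_nonneg (by linarith : (0 : ℝ) ≤ S)] at hMb
  have hs1 : S ≤ s := by
    have h1 : |S / s| + |(0 : ℝ)| ≤ 1 := hsD
    rw [abs_zero, add_zero, abs_div, abs_of_pos hs0, div_le_one hs0,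
      abs_of_nonneg (by linarith : (0 : ℝ) ≤ S)] at h1
    exact h1
  obtain ⟨ρ, hρ⟩ : ∃ ρ, ρ = R (S / s) := ⟨_, rfl⟩
  have hρ' : Rate (S / s, 0) = ρ := hρ.symm
  rw [hρ'] at hs hR0
  have hn : ∃ n : ℕ, s + 1 ≤ n ∧ (n : ℝ) ≤ s + 3 := by
    refine ⟨⌈s + 1⌉₊, Nat.le_ceil _, ?_⟩
    have := Nat.ceil_lt_add_one (by positivity : 0 ≤ s + 1)
    linarith
  obtain ⟨n, hn1, hn2⟩ := hn
  have hn4 : 2 ≤ n := by
    have : (2 : ℝ) ≤ n := by linarith
    exact_mod_cast this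
  have hn0 : (0 : ℝ) < n := by exact_mod_cast (by omega : 0 < n)
  have hkn : k < n := by
    have : (k : ℝ) < n := by rw [← hS]; linarith
    exact_mod_cast this
  have h1 := hlow n hn4 k hk hkn z e hz hlz
  obtain ⟨hsumm, -⟩ := hup e z he heE hz hlz k hk
  have h2 : pk n k * z ^ (2 * n) ≤ GP z k := by
    obtain ⟨j, rfl⟩ : ∃ j, n = j + 2 := ⟨n - 2, by omega⟩
    exact hsumm.le_tsum j (fun i _ => mul_nonneg (pk_nonneg (by omega) k) (pow_nonneg hz.le _))
  refine le_trans ?_ (h1.trans h2)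
  apply Real.exp_le_exp.2
  rw [← hS]
  obtain ⟨t, ht⟩ : ∃ t, t = s / n := ⟨_, rfl⟩
  have ht0 : 0 ≤ t := by rw [ht]; positivity
  have ht1 : t ≤ 1 := by rw [ht, div_le_one hn0]; linarith
  have hSs : S / s ≤ 1 := by rw [div_le_one hs0]; exact hs1
  have hR1 := R_smul (by positivity : 0 ≤ S / s) hSs ht0 ht1
  rw [← hρ] at hR1
  have e1 : t * (S / s) = S / n := by
    rw [ht]
    field_simp
  rw [e1] at hR1
  have h5 := mul_le_mul_of_nonneg_left hR1 hn0.le
  have e3 : (n : ℝ) * (t * ρ) = s * ρ := by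
    rw [ht]
    field_simp
  rw [e3] at h5
  have h6 : (n : ℝ) * e ≤ (s + 3) * e := mul_le_mul_of_nonneg_right hn2 he.le
  -- the logarithm of the length
  have he1 : 0 < 1 / e := by positivity
  have e6 : s * (ρ + e) = s * ρ + s * e := by ring
  rw [e6] at hs
  have hmS : S * mass e ≤ B * S := by
    have := mul_le_mul_of_nonneg_left hmB (by linarith : (0 : ℝ) ≤ S)
    linarith
  have h10 : s ≤ (B * S + 1) * (1 / e) := by
    have h11 : s * e ≤ B * S + 1 := by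
      have h12 : 0 ≤ s * ρ := mul_nonneg hs0.le hR0
      linarith
    rw [mul_one_div, le_div_iff₀ he]
    exact h11
  have h11 : (n : ℝ) ≤ (4 + B) * (2 + S + 1 / e) ^ 2 := by
    have := scale_lo hB0 hS1 he1
    linarith
  have hLg1 := one_le_Lk hk he
  obtain ⟨L, hL⟩ : ∃ L, L = Lk k e := ⟨_, rfl⟩
  have hLgd : L = Real.log (2 + S + 1 / e) := by rw [hL]; unfold Lk; rw [← hS]
  rw [← hL] at hLg1 ⊢
  have h12 : Real.log n ≤ A * L := by
    have h13 := Real.log_le_log hn0 h11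
    rw [Real.log_mul (by positivity) (by positivity), Real.log_pow] at h13
    push_cast at h13
    rw [← hLgd] at h13
    have h14 : Real.log (4 + B) * 1 ≤ Real.log (4 + B) * L := mul_le_mul_of_nonneg_left hLg1 hA0
    have e1 : A * L = 2 * L + Real.log (4 + B) * L := by rw [hA]; ring
    rw [e1]
    linarith
  have h12' : 0 ≤ Real.log (n : ℝ) := Real.log_nonneg (by linarith)
  have h13 : Real.log (n : ℝ) ^ 2 ≤ A ^ 2 * L ^ 2 := by
    rw [← mul_pow]
    exact pow_le_pow_left₀ h12' h12 2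
  have h14 := mul_le_mul_of_nonneg_left h13 hK2
  have hL3 : 1 ≤ L ^ 2 := one_le_pow₀ hLg1
  have u1 : 2 * (3 * e) ≤ 2 * (3 * E) := by linarith
  have u2 : E * 1 ≤ E * L ^ 2 := mul_le_mul_of_nonneg_left hL3 hE.le
  have e4 : (2 + 6 * E + K2 * A ^ 2) * L ^ 2 =
      2 * L ^ 2 + 6 * (E * L ^ 2) + K2 * (A ^ 2 * L ^ 2) := by
    ring
  rw [e4]
  have e5 : (s + 3) * e = s * e + 3 * e := by ring
  rw [e5] at h6
  clear hLgd h10 h11 h12 hs1 hn1 hn2 e1 hR1
  linarith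

end Pool.Agent.V11252.SAW
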